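import Mathlib
import Pool.Agent.H450R2.Iv.Ind

/-! Exchange lemma for algebraic independence; algebraic elements. -/

set_option autoImplicit false

namespace H450Sp

open IntermediateField

variable {L : Type} [Field L] [Algebra ℂ L]

/-- a family of the same size over which an independent family is algebraic is independent -/
theorem ind_of_alg {σ : Type} [Finite σ] (x y : σ → L)
    (hx : AlgebraicIndependent ℂ x)
    (h : ∀ i, IsAlgebraic (adjoin ℂ (Set.range y)) (x i)) : AlgebraicIndependent ℂ y := by
  classical
  have : Fintype σ := Fintype.ofFinite σ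
  set N := AlgebraicIndependent.matroid ℂ L with hN
  have hX : N.Indep (Set.range x) := by
    rw [hN, AlgebraicIndependent.matroid_indep_iff]
    exact hx.to_subtype_range
  have hsub : Set.range x ⊆ N.closure (Set.range y) := by
    rw [hN, AlgebraicIndependent.matroid_closure_eq]
    rintro _ ⟨i, rfl⟩
    have h1 := h i
    change IsAlgebraic (Algebra.adjoin ℂ (Set.range y)) (x i)
    by_contra hcon
    exact (IntermediateField.transcendental_adjoin_iff.2 hcon) h1
  have h1 : (Set.range x).encard = Fintype.card σ := by
    rw [← Set.image_univ, hx.injective.injOn.encard_image]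
    simp
  have h2 : (Set.range y).encard ≤ Fintype.card σ := by
    calc (Set.range y).encard = (y '' Set.univ).encard := by rw [Set.image_univ]
      _ ≤ (Set.univ : Set σ).encard := Set.encard_image_le _ _
      _ = Fintype.card σ := by simp
  have h3 : (Set.range x).encard ≤ N.eRk (Set.range y) := by
    rw [← hX.eRk_eq_encard, ← N.eRk_closure_eq (Set.range y)]
    exact N.eRk_mono hsub
  have h4 : N.eRk (Set.range y) ≤ (Set.range y).encard := N.eRk_le_encard _
  have h5 : (Set.range y).encard = Fintype.card σ := le_antisymm h2 (by rw [← h1]; exact h3.trans h4)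
  have h6 : N.eRk (Set.range y) = (Set.range y).encard := le_antisymm h4 (by
    rw [h5, ← h1]; exact h3)
  have h7 : N.Indep (Set.range y) :=
    (Matroid.indep_iff_eRk_eq_encard_of_finite (Set.finite_range y)).2 h6
  have hinj : Function.Injective y := by
    have h8 : (Set.range y).ncard = Fintype.card σ := by
      rw [Set.ncard, h5]; simp
    have h9 : (Finset.univ.image y).card = Fintype.card σ := by
      rw [← h8, ← Set.ncard_coe_finset]
      simp
    have := Finset.card_image_iff.1 (h9.trans (Finset.card_univ (α := σ)).symm)
    simpa using this
  exact AlgebraicIndependent.of_subtype_range hinj h7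

theorem alg_mem (F : IntermediateField ℂ L) {x : L} (hx : x ∈ F) : IsAlgebraic F x :=
  isAlgebraic_algebraMap (⟨x, hx⟩ : F)

theorem alg_sum (F : IntermediateField ℂ L) {ι : Type} (s : Finset ι) (f : ι → L)
    (h : ∀ i ∈ s, IsAlgebraic F (f i)) : IsAlgebraic F (∑ i ∈ s, f i) := by
  classical
  induction s using Finset.induction_on with
  | empty => simpa using isAlgebraic_zero
  | insert a s ha ih =>
    rw [Finset.sum_insert ha]
    exact (h a (Finset.mem_insert_self _ _)).add
      (ih fun i hi => h i (Finset.mem_insert_of_mem hi))

end H450Sp
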