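import Mathlib
import Pool.Agent.H450R2.Iv.Core
import Pool.Agent.H450R2.Sp.Alg

/-! Reflections in spheres: runs, frames. -/

set_option autoImplicit false
set_option linter.unusedSectionVars false
set_option maxHeartbeats 1000000

namespace H450Sp

open IntermediateField H450Iv

noncomputable section

variable {ι : Type} [Fintype ι]

/-- elementary steps: `n`-fold reflection with radius `r`, and shift of the centre -/
inductive Step (ι : Type) where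
  | hit (r : ℝ) (n : ℕ) (κ : ℂ)
  | shift (δ : ι → ℝ)

section defs
variable {M : Type} [Field M] [Algebra ℂ M]

/-- constant vector -/
def cv (δ : ι → ℝ) : ι → M := fun i => algebraMap ℂ M (δ i : ℂ)

/-- powers of `a + b J`, `J² = -h` -/
def pr (a b h : M) : ℕ → M × M
  | 0 => (1, 0)
  | n + 1 => (a * (pr a b h n).1 - h * b * (pr a b h n).2, a * (pr a b h n).2 + b * (pr a b h n).1)

/-- coefficient -/
def ca (r : ℝ) (H : M) : M := 1 - 2 * H * algebraMap ℂ M ((r : ℂ) ^ 2)⁻¹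
/-- coefficient -/
def cb (r : ℝ) (w : M) : M := 2 * w * algebraMap ℂ M ((r : ℂ) ^ 2)⁻¹

/-- coefficients of an `n`-fold hit -/
def pp (r : ℝ) (n : ℕ) (w : M) (V q : ι → M) : M × M :=
  pr (ca r (q ⬝ᵥ q)) (cb r w) ((q ⬝ᵥ q) / (V ⬝ᵥ V)) n

/-- velocity after a hit -/
def hitV (r : ℝ) (n : ℕ) (κ : ℂ) (w : M) (V q : ι → M) : ι → M := fun i =>
  algebraMap ℂ M κ * ((pp r n w V q).1 * V i + (pp r n w V q).2 * q i)

/-- moment after a hit -/
def hitq (r : ℝ) (n : ℕ) (κ : ℂ) (w : M) (V q : ι → M) : ι → M := fun i =>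
  algebraMap ℂ M κ * ((pp r n w V q).1 * q i - (q ⬝ᵥ q) / (V ⬝ᵥ V) * (pp r n w V q).2 * V i)

/-- perpendicular part -/
def perp (V x : ι → M) : ι → M := fun i => x i - (x ⬝ᵥ V) / (V ⬝ᵥ V) * V i

/-- moment after a shift -/
def shq (δ : ι → ℝ) (V q : ι → M) : ι → M := fun i =>
  q i - cv δ i + (cv δ ⬝ᵥ V) / (V ⬝ᵥ V) * V i

/-- independence of the coordinates -/
def Ind2 (V x : ι → M) : Prop := AlgebraicIndependent ℂ (Sum.elim V x)

/-- runs of a program (the head of the list is the last step) -/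
inductive Run (V0 x0 : ι → M) : List (Step ι) → IntermediateField ℂ M → (ι → M) → (ι → M) → Prop
  | nil : Run V0 x0 [] (adjoin ℂ (Set.range (Sum.elim V0 x0))) V0 (perp V0 x0)
  | hit (l : List (Step ι)) (K : IntermediateField ℂ M) (V q : ι → M) (r : ℝ) (n : ℕ) (κ : ℂ)
      (w : M) (h : Run V0 x0 l K V q)
      (hw : w ^ 2 = (V ⬝ᵥ V) * (algebraMap ℂ M ((r : ℂ) ^ 2) - q ⬝ᵥ q)) :
      Run V0 x0 (Step.hit r n κ :: l) (ext1 K w) (hitV r n κ w V q) (hitq r n κ w V q)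
  | shift (l : List (Step ι)) (K : IntermediateField ℂ M) (V q : ι → M) (δ : ι → ℝ)
      (h : Run V0 x0 l K V q) :
      Run V0 x0 (Step.shift δ :: l) K V (shq δ V q)
end defs

/-- radii of the current block -/
def trail : List (Step ι) → List ℝ
  | [] => []
  | Step.hit r _ _ :: l => r :: trail l
  | Step.shift _ :: _ => []

/-- is the head a shift? -/
def headShift : List (Step ι) → Prop
  | [] => False
  | Step.hit _ _ _ :: _ => False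
  | Step.shift _ :: _ => True

/-- well-formed programs -/
def WF : List (Step ι) → Prop
  | [] => True
  | Step.hit r n κ :: l => WF l ∧ 0 < r ∧ n ≠ 0 ∧ κ ^ 2 = 1 ∧ r ∉ trail l
  | Step.shift δ :: l => WF l ∧ δ ≠ 0 ∧ ¬ headShift l

section basics
variable {M : Type} [Field M] [Algebra ℂ M]

theorem pr_pow (a b h J : M) (hJ : J ^ 2 = -h) (n : ℕ) :
    (pr a b h n).1 + J * (pr a b h n).2 = (a + J * b) ^ n := by
  induction n with
  | zero => simp [pr]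
  | succ n ih =>
    rw [pow_succ, ← ih]
    simp only [pr]
    linear_combination (-(b * (pr a b h n).2)) * hJ

theorem pr_norm (a b h : M) (hab : a ^ 2 + h * b ^ 2 = 1) (n : ℕ) :
    (pr a b h n).1 ^ 2 + h * (pr a b h n).2 ^ 2 = 1 := by
  induction n with
  | zero => simp [pr]
  | succ n ih =>
    simp only [pr]
    linear_combination ((pr a b h n).1 ^ 2 + h * (pr a b h n).2 ^ 2) * hab + ih

theorem pr_neg (a b h : M) (n : ℕ) :
    (pr a (-b) h n).1 = (pr a b h n).1 ∧ (pr a (-b) h n).2 = -(pr a b h n).2 := by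
  induction n with
  | zero => simp [pr]
  | succ n ih =>
    simp only [pr]
    rw [ih.1, ih.2]
    constructor <;> ring

theorem pr_map {A B : Type} [Field A] [Algebra ℂ A] [Field B] [Algebra ℂ B] (φ : A →ₐ[ℂ] B)
    (a b h : A) (n : ℕ) :
    φ (pr a b h n).1 = (pr (φ a) (φ b) (φ h) n).1 ∧
    φ (pr a b h n).2 = (pr (φ a) (φ b) (φ h) n).2 := by
  induction n with
  | zero => simp [pr]
  | succ n ih =>
    simp only [pr, map_sub, map_add, map_mul]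
    rw [ih.1, ih.2]
    exact ⟨rfl, rfl⟩

theorem dot_map {A B : Type} [Field A] [Algebra ℂ A] [Field B] [Algebra ℂ B] (φ : A →ₐ[ℂ] B)
    (x y : ι → A) : φ (x ⬝ᵥ y) = (fun i => φ (x i)) ⬝ᵥ (fun i => φ (y i)) := by
  unfold dotProduct
  rw [map_sum]
  simp only [map_mul]

theorem cv_map {A B : Type} [Field A] [Algebra ℂ A] [Field B] [Algebra ℂ B] (φ : A →ₐ[ℂ] B)
    (δ : ι → ℝ) : (fun i => φ (cv δ i : A)) = (cv δ : ι → B) := by
  funext i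
  unfold cv
  exact φ.commutes _

theorem pp_map {A B : Type} [Field A] [Algebra ℂ A] [Field B] [Algebra ℂ B] (φ : A →ₐ[ℂ] B)
    (r : ℝ) (n : ℕ) (w : A) (V q : ι → A) :
    φ (pp r n w V q).1 = (pp r n (φ w) (fun i => φ (V i)) (fun i => φ (q i))).1 ∧
    φ (pp r n w V q).2 = (pp r n (φ w) (fun i => φ (V i)) (fun i => φ (q i))).2 := by
  unfold pp
  have h := pr_map φ (ca r (q ⬝ᵥ q)) (cb r w) ((q ⬝ᵥ q) / (V ⬝ᵥ V)) n
  have h1 : φ (ca r (q ⬝ᵥ q)) = ca r ((fun i => φ (q i)) ⬝ᵥ (fun i => φ (q i))) := by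
    unfold ca
    simp only [map_sub, map_mul, map_one, map_ofNat, AlgHom.commutes, dot_map]
  have h2 : φ (cb r w) = cb r (φ w) := by
    unfold cb
    simp only [map_mul, map_ofNat, AlgHom.commutes]
  have h3 : φ ((q ⬝ᵥ q) / (V ⬝ᵥ V)) = ((fun i => φ (q i)) ⬝ᵥ (fun i => φ (q i))) /
      ((fun i => φ (V i)) ⬝ᵥ (fun i => φ (V i))) := by
    rw [map_div₀, dot_map, dot_map]
  rw [h1, h2, h3] at h
  exact h

theorem hitV_map {A B : Type} [Field A] [Algebra ℂ A] [Field B] [Algebra ℂ B] (φ : A →ₐ[ℂ] B)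
    (r : ℝ) (n : ℕ) (κ : ℂ) (w : A) (V q : ι → A) (i : ι) :
    φ (hitV r n κ w V q i) = hitV r n κ (φ w) (fun i => φ (V i)) (fun i => φ (q i)) i := by
  unfold hitV
  have h := pp_map φ r n w V q
  rw [map_mul, map_add, map_mul, map_mul, AlgHom.commutes, h.1, h.2]

theorem hitq_map {A B : Type} [Field A] [Algebra ℂ A] [Field B] [Algebra ℂ B] (φ : A →ₐ[ℂ] B)
    (r : ℝ) (n : ℕ) (κ : ℂ) (w : A) (V q : ι → A) (i : ι) :
    φ (hitq r n κ w V q i) = hitq r n κ (φ w) (fun i => φ (V i)) (fun i => φ (q i)) i := by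
  unfold hitq
  have h := pp_map φ r n w V q
  rw [map_mul, map_sub, map_mul, map_mul, map_mul, map_div₀, AlgHom.commutes, h.1, h.2,
    dot_map, dot_map]

theorem perp_map {A B : Type} [Field A] [Algebra ℂ A] [Field B] [Algebra ℂ B] (φ : A →ₐ[ℂ] B)
    (V x : ι → A) (i : ι) :
    φ (perp V x i) = perp (fun i => φ (V i)) (fun i => φ (x i)) i := by
  unfold perp
  rw [map_sub, map_mul, map_div₀, dot_map, dot_map]

theorem shq_map {A B : Type} [Field A] [Algebra ℂ A] [Field B] [Algebra ℂ B] (φ : A →ₐ[ℂ] B)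
    (δ : ι → ℝ) (V q : ι → A) (i : ι) :
    φ (shq δ V q i) = shq δ (fun i => φ (V i)) (fun i => φ (q i)) i := by
  unfold shq
  rw [map_add, map_sub, map_mul, map_div₀, dot_map, dot_map]
  have h := cv_map φ δ
  rw [← h]

theorem rr {r : ℝ} (hr : 0 < r) :
    algebraMap ℂ M ((r : ℂ) ^ 2) * algebraMap ℂ M ((r : ℂ) ^ 2)⁻¹ = 1 := by
  have hrc : (r : ℂ) ^ 2 ≠ 0 := pow_ne_zero _ (by exact_mod_cast hr.ne')
  rw [← map_mul, mul_inv_cancel₀ hrc, map_one]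

/-- the norm identity -/
theorem ab_one (r : ℝ) (hr : 0 < r) (w : M) (V q : ι → M) (hD : V ⬝ᵥ V ≠ 0)
    (hw : w ^ 2 = (V ⬝ᵥ V) * (algebraMap ℂ M ((r : ℂ) ^ 2) - q ⬝ᵥ q)) :
    (ca r (q ⬝ᵥ q)) ^ 2 + ((q ⬝ᵥ q) / (V ⬝ᵥ V)) * (cb r w) ^ 2 = 1 := by
  have h1 := rr (M := M) hr
  unfold ca cb
  set D := V ⬝ᵥ V
  set H := q ⬝ᵥ q
  set R := algebraMap ℂ M ((r : ℂ) ^ 2)
  set R' := algebraMap ℂ M ((r : ℂ) ^ 2)⁻¹
  have h2 : H / D * (2 * w * R') ^ 2 = 4 * H * (R - H) * R' ^ 2 := by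
    calc H / D * (2 * w * R') ^ 2 = 4 * H * R' ^ 2 * (w ^ 2 / D) := by ring
      _ = _ := by rw [hw]; field_simp
  rw [h2]
  linear_combination (4 * H * R') * h1

theorem pp_norm (r : ℝ) (hr : 0 < r) (n : ℕ) (w : M) (V q : ι → M) (hD : V ⬝ᵥ V ≠ 0)
    (hw : w ^ 2 = (V ⬝ᵥ V) * (algebraMap ℂ M ((r : ℂ) ^ 2) - q ⬝ᵥ q)) :
    (pp r n w V q).1 ^ 2 + ((q ⬝ᵥ q) / (V ⬝ᵥ V)) * (pp r n w V q).2 ^ 2 = 1 :=
  pr_norm _ _ _ (ab_one r hr w V q hD hw) n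

theorem dot_lin2 (k a b a' b' : M) (x y x' y' : ι → M) :
    (fun i => k * (a * x i + b * y i)) ⬝ᵥ (fun i => k * (a' * x' i + b' * y' i)) =
      k ^ 2 * (a * a' * (x ⬝ᵥ x') + a * b' * (x ⬝ᵥ y') + b * a' * (y ⬝ᵥ x') +
        b * b' * (y ⬝ᵥ y')) := by
  unfold dotProduct
  simp only [Finset.mul_sum, ← Finset.sum_add_distrib]
  apply Finset.sum_congr rfl
  intro i _
  ring

/-- invariants of a hit -/
theorem hit_inv (r : ℝ) (hr : 0 < r) (n : ℕ) (κ : ℂ) (hκ : κ ^ 2 = 1) (w : M) (V q : ι → M)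
    (hD : V ⬝ᵥ V ≠ 0) (hVq : V ⬝ᵥ q = 0)
    (hw : w ^ 2 = (V ⬝ᵥ V) * (algebraMap ℂ M ((r : ℂ) ^ 2) - q ⬝ᵥ q)) :
    hitV r n κ w V q ⬝ᵥ hitV r n κ w V q = V ⬝ᵥ V ∧
    hitV r n κ w V q ⬝ᵥ hitq r n κ w V q = 0 ∧
    hitq r n κ w V q ⬝ᵥ hitq r n κ w V q = q ⬝ᵥ q := by
  have hn := pp_norm r hr n w V q hD hw
  have hκ' : (algebraMap ℂ M κ) ^ 2 = 1 := by rw [← map_pow, hκ, map_one]
  have hqV : q ⬝ᵥ V = 0 := by rw [dotProduct_comm]; exact hVq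
  set A := (pp r n w V q).1
  set B := (pp r n w V q).2
  have e1 : hitq r n κ w V q = fun i => algebraMap ℂ M κ * (A * q i +
      (-((q ⬝ᵥ q) / (V ⬝ᵥ V) * B)) * V i) := by
    funext i; unfold hitq; ring
  have e2 : hitV r n κ w V q = fun i => algebraMap ℂ M κ * (A * V i + B * q i) := rfl
  rw [e1, e2, dot_lin2, dot_lin2, dot_lin2, hκ', hVq, hqV]
  refine ⟨?_, ?_, ?_⟩
  · calc _ = (V ⬝ᵥ V) * (A ^ 2 + (q ⬝ᵥ q) / (V ⬝ᵥ V) * B ^ 2) := by field_simp; ring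
      _ = _ := by rw [hn, mul_one]
  · field_simp; ring
  · calc _ = (q ⬝ᵥ q) * (A ^ 2 + (q ⬝ᵥ q) / (V ⬝ᵥ V) * B ^ 2) := by field_simp; ring
      _ = _ := by rw [hn, mul_one]

theorem perp_dot (V x : ι → M) (hD : V ⬝ᵥ V ≠ 0) : V ⬝ᵥ perp V x = 0 := by
  have : V ⬝ᵥ perp V x = V ⬝ᵥ x - (x ⬝ᵥ V) / (V ⬝ᵥ V) * (V ⬝ᵥ V) := by
    unfold perp dotProduct
    rw [Finset.mul_sum, ← Finset.sum_sub_distrib]
    apply Finset.sum_congr rfl
    intro i _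
    ring
  rw [this, div_mul_cancel₀ _ hD, dotProduct_comm, sub_self]

theorem shq_dot (δ : ι → ℝ) (V q : ι → M) (hD : V ⬝ᵥ V ≠ 0) (hVq : V ⬝ᵥ q = 0) :
    V ⬝ᵥ shq δ V q = 0 := by
  have : V ⬝ᵥ shq δ V q = V ⬝ᵥ q - V ⬝ᵥ cv δ + (cv δ ⬝ᵥ V) / (V ⬝ᵥ V) * (V ⬝ᵥ V) := by
    unfold shq dotProduct
    rw [Finset.mul_sum, ← Finset.sum_sub_distrib, ← Finset.sum_add_distrib]
    apply Finset.sum_congr rfl
    intro i _
    ring
  rw [this, div_mul_cancel₀ _ hD, hVq, dotProduct_comm (cv δ) V]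
  ring

/-- the speed is not zero at a generic point -/
theorem ind_D {V x : ι → M} [Nonempty ι] (h : Ind2 V x) : V ⬝ᵥ V ≠ 0 := by
  intro h0
  have h1 := h
  unfold Ind2 at h1
  rw [algebraicIndependent_iff] at h1
  have h2 := h1 (∑ i, MvPolynomial.X (Sum.inl i) ^ 2) (by
    rw [map_sum]
    simp only [map_pow, MvPolynomial.aeval_X, Sum.elim_inl]
    rw [← h0]
    unfold dotProduct
    apply Finset.sum_congr rfl
    intro i _
    ring)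
  obtain ⟨i0⟩ := ‹Nonempty ι›
  classical
  have h3 := congrArg (MvPolynomial.eval (Sum.elim (fun i => if i = i0 then (1 : ℂ) else 0)
    (fun _ => 0))) h2
  rw [map_sum] at h3
  simp at h3

theorem run_inv [Nonempty ι] {V0 x0 : ι → M} {l : List (Step ι)} {K : IntermediateField ℂ M}
    {V q : ι → M} (h : Run V0 x0 l K V q) (hl : WF l) (h0 : Ind2 V0 x0) :
    V ⬝ᵥ V ≠ 0 ∧ V ⬝ᵥ q = 0 := by
  induction h with
  | nil => exact ⟨ind_D h0, perp_dot _ _ (ind_D h0)⟩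
  | hit l K V q r n κ w h hw ih =>
    obtain ⟨h1, h2⟩ := ih hl.1
    have h3 := hit_inv r hl.2.1 n κ hl.2.2.2.1 w V q h1 h2 hw
    exact ⟨by rw [h3.1]; exact h1, h3.2.1⟩
  | shift l K V q δ h ih =>
    obtain ⟨h1, h2⟩ := ih hl.1
    exact ⟨h1, shq_dot δ V q h1 h2⟩

theorem run_mem {V0 x0 : ι → M} {l : List (Step ι)} {K : IntermediateField ℂ M} {V q : ι → M}
    (h : Run V0 x0 l K V q) : (∀ i, V i ∈ K) ∧ (∀ i, q i ∈ K) := by
  induction h with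
  | nil =>
    have h1 : ∀ i, V0 i ∈ adjoin ℂ (Set.range (Sum.elim V0 x0)) := fun i =>
      subset_adjoin ℂ _ ⟨Sum.inl i, rfl⟩
    have h2 : ∀ i, x0 i ∈ adjoin ℂ (Set.range (Sum.elim V0 x0)) := fun i =>
      subset_adjoin ℂ _ ⟨Sum.inr i, rfl⟩
    refine ⟨h1, fun i => ?_⟩
    have := perp_map (adjoin ℂ (Set.range (Sum.elim V0 x0))).val
      (fun i => ⟨V0 i, h1 i⟩) (fun i => ⟨x0 i, h2 i⟩) i
    have h3 : perp V0 x0 i = (adjoin ℂ (Set.range (Sum.elim V0 x0))).val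
      (perp (fun i => ⟨V0 i, h1 i⟩) (fun i => ⟨x0 i, h2 i⟩) i) := this.symm
    rw [h3]
    exact (perp (fun i => (⟨V0 i, h1 i⟩ : adjoin ℂ (Set.range (Sum.elim V0 x0))))
      (fun i => ⟨x0 i, h2 i⟩) i).2
  | hit l K V q r n κ w h hw ih =>
    have h1 : ∀ i, V i ∈ ext1 K w := fun i => le_ext1 K w (ih.1 i)
    have h2 : ∀ i, q i ∈ ext1 K w := fun i => le_ext1 K w (ih.2 i)
    constructor
    · intro i
      have := hitV_map (ext1 K w).val r n κ ⟨w, mem_ext1 K w⟩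
        (fun i => ⟨V i, h1 i⟩) (fun i => ⟨q i, h2 i⟩) i
      have h3 : hitV r n κ w V q i = (ext1 K w).val (hitV r n κ ⟨w, mem_ext1 K w⟩
        (fun i => ⟨V i, h1 i⟩) (fun i => ⟨q i, h2 i⟩) i) := this.symm
      rw [h3]
      exact (hitV r n κ (⟨w, mem_ext1 K w⟩ : ext1 K w)
        (fun i => ⟨V i, h1 i⟩) (fun i => ⟨q i, h2 i⟩) i).2
    · intro i
      have := hitq_map (ext1 K w).val r n κ ⟨w, mem_ext1 K w⟩
        (fun i => ⟨V i, h1 i⟩) (fun i => ⟨q i, h2 i⟩) i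
      have h3 : hitq r n κ w V q i = (ext1 K w).val (hitq r n κ ⟨w, mem_ext1 K w⟩
        (fun i => ⟨V i, h1 i⟩) (fun i => ⟨q i, h2 i⟩) i) := this.symm
      rw [h3]
      exact (hitq r n κ (⟨w, mem_ext1 K w⟩ : ext1 K w)
        (fun i => ⟨V i, h1 i⟩) (fun i => ⟨q i, h2 i⟩) i).2
  | shift l K V q δ h ih =>
    refine ⟨ih.1, fun i => ?_⟩
    have := shq_map K.val δ (fun i => ⟨V i, ih.1 i⟩) (fun i => ⟨q i, ih.2 i⟩) i
    have h3 : shq δ V q i = K.val (shq δ (fun i => ⟨V i, ih.1 i⟩) (fun i => ⟨q i, ih.2 i⟩) i) :=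
      this.symm
    rw [h3]
    exact (shq δ (fun i => (⟨V i, ih.1 i⟩ : K)) (fun i => ⟨q i, ih.2 i⟩) i).2

/-- the frame -/
def fE (σ h : M) (V q : ι → M) : ι → M := fun i => V i / σ + q i / (algebraMap ℂ M Complex.I * h)
/-- the conjugate frame -/
def fF (σ h : M) (V q : ι → M) : ι → M := fun i => V i / σ - q i / (algebraMap ℂ M Complex.I * h)

theorem I_ne : algebraMap ℂ M Complex.I ≠ 0 := (map_ne_zero _).2 Complex.I_ne_zero

theorem gsq (r : ℝ) (hr : 0 < r) (w σ h : M) (V q : ι → M) (hσ : σ ^ 2 = V ⬝ᵥ V)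
    (hh : h ^ 2 = q ⬝ᵥ q) (hσ0 : σ ≠ 0)
    (hw : w ^ 2 = (V ⬝ᵥ V) * (algebraMap ℂ M ((r : ℂ) ^ 2) - q ⬝ᵥ q)) :
    (w / σ) ^ 2 = algebraMap ℂ M ((r : ℂ) ^ 2) - h ^ 2 := by
  rw [div_pow, hw, hσ, hh]
  have : V ⬝ᵥ V ≠ 0 := by rw [← hσ]; exact pow_ne_zero _ hσ0
  field_simp

theorem pp_eig (r : ℝ) (hr : 0 < r) (n : ℕ) (w σ h : M) (V q : ι → M) (hσ : σ ^ 2 = V ⬝ᵥ V)
    (hh : h ^ 2 = q ⬝ᵥ q) (hσ0 : σ ≠ 0)
    (hw : w ^ 2 = (V ⬝ᵥ V) * (algebraMap ℂ M ((r : ℂ) ^ 2) - q ⬝ᵥ q)) :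
    (pp r n w V q).1 + algebraMap ℂ M Complex.I * h / σ * (pp r n w V q).2 =
      (gg r (w / σ) h) ^ (2 * n) ∧
    (pp r n w V q).1 - algebraMap ℂ M Complex.I * h / σ * (pp r n w V q).2 =
      ((gg r (w / σ) h)⁻¹) ^ (2 * n) := by
  have hI := I_sq (M := M)
  have h1 := rr (M := M) hr
  have hw2 := gsq r hr w σ h V q hσ hh hσ0 hw
  have hgm := gg_mul r hr (w / σ) h hw2
  have hgi : (gg r (w / σ) h)⁻¹ = (w / σ - algebraMap ℂ M Complex.I * h) *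
      algebraMap ℂ M ((r : ℂ)⁻¹) := inv_eq_of_mul_eq_one_right hgm
  have hri : (algebraMap ℂ M ((r : ℂ)⁻¹)) ^ 2 = algebraMap ℂ M ((r : ℂ) ^ 2)⁻¹ := by
    rw [← map_pow]; congr 1; rw [inv_pow]
  have hD : V ⬝ᵥ V ≠ 0 := by rw [← hσ]; exact pow_ne_zero _ hσ0
  have hJ : (algebraMap ℂ M Complex.I * h / σ) ^ 2 = -((q ⬝ᵥ q) / (V ⬝ᵥ V)) := by
    rw [div_pow, mul_pow, hI, hh, hσ]; ring
  have hJ' : (-(algebraMap ℂ M Complex.I * h / σ)) ^ 2 = -((q ⬝ᵥ q) / (V ⬝ᵥ V)) := by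
    rw [neg_sq]; exact hJ
  have e1 : ca r (q ⬝ᵥ q) + algebraMap ℂ M Complex.I * h / σ * cb r w =
      (gg r (w / σ) h) ^ 2 := by
    unfold ca cb gg
    rw [mul_pow, hri]
    have : (w / σ + algebraMap ℂ M Complex.I * h) ^ 2 =
        (w / σ) ^ 2 + 2 * algebraMap ℂ M Complex.I * h * (w / σ) +
          (algebraMap ℂ M Complex.I) ^ 2 * h ^ 2 := by ring
    rw [this, hw2, hI, hh]
    linear_combination -h1
  have e2 : ca r (q ⬝ᵥ q) + -(algebraMap ℂ M Complex.I * h / σ) * cb r w =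
      ((gg r (w / σ) h)⁻¹) ^ 2 := by
    rw [hgi]
    unfold ca cb
    rw [mul_pow, hri]
    have : (w / σ - algebraMap ℂ M Complex.I * h) ^ 2 =
        (w / σ) ^ 2 - 2 * algebraMap ℂ M Complex.I * h * (w / σ) +
          (algebraMap ℂ M Complex.I) ^ 2 * h ^ 2 := by ring
    rw [this, hw2, hI, hh]
    linear_combination -h1
  constructor
  · unfold pp
    rw [pr_pow _ _ _ _ hJ, e1, ← pow_mul]
  · unfold pp
    rw [sub_eq_add_neg, ← neg_mul, pr_pow _ _ _ _ hJ', e2, ← pow_mul]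

/-- a hit scales the frame -/
theorem hit_frame (r : ℝ) (hr : 0 < r) (n : ℕ) (κ : ℂ) (w σ h : M) (V q : ι → M)
    (hσ : σ ^ 2 = V ⬝ᵥ V) (hh : h ^ 2 = q ⬝ᵥ q) (hσ0 : σ ≠ 0) (hh0 : h ≠ 0)
    (hw : w ^ 2 = (V ⬝ᵥ V) * (algebraMap ℂ M ((r : ℂ) ^ 2) - q ⬝ᵥ q)) (i : ι) :
    fE σ h (hitV r n κ w V q) (hitq r n κ w V q) i =
      algebraMap ℂ M κ * (gg r (w / σ) h) ^ (2 * n) * fE σ h V q i ∧
    fF σ h (hitV r n κ w V q) (hitq r n κ w V q) i =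
      algebraMap ℂ M κ * ((gg r (w / σ) h)⁻¹) ^ (2 * n) * fF σ h V q i := by
  obtain ⟨h1, h2⟩ := pp_eig r hr n w σ h V q hσ hh hσ0 hw
  have hI := I_sq (M := M)
  have hI0 := I_ne (M := M)
  rw [← h1, ← h2]
  unfold fE fF hitV hitq
  rw [← hσ, ← hh]
  set A := (pp r n w V q).1
  set B := (pp r n w V q).2
  set I := algebraMap ℂ M Complex.I
  constructor
  · field_simp
    linear_combination (-(algebraMap ℂ M κ * B * h ^ 2 * V i)) * hI
  · field_simp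
    linear_combination (algebraMap ℂ M κ * B * h ^ 2 * V i) * hI

end basics

end

end H450Sp
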