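import Mathlib
import Pool.Agent.H450R2.Iv.Core

/-! Hahn series fields over an arbitrary value group. -/

set_option autoImplicit false
set_option linter.unusedSectionVars false
set_option maxHeartbeats 2000000

namespace H450Sp

open HahnSeries H450Iv

noncomputable section

variable {Γ : Type} [AddCommGroup Γ] [LinearOrder Γ] [IsOrderedAddMonoid Γ]

/-- the valuation -/
def va : AddValuation (HahnSeries Γ ℂ) (WithTop Γ) := HahnSeries.addVal Γ ℂ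

theorem va_C {a : ℂ} (ha : a ≠ 0) : va (algebraMap ℂ (HahnSeries Γ ℂ) a) = 0 := by
  have h : algebraMap ℂ (HahnSeries Γ ℂ) a = HahnSeries.C a := rfl
  rw [va, HahnSeries.addVal_apply, h, HahnSeries.C_apply, HahnSeries.orderTop_single ha]
  rfl

theorem va_C_nonneg (a : ℂ) : 0 ≤ va (algebraMap ℂ (HahnSeries Γ ℂ) a) := by
  by_cases ha : a = 0
  · rw [ha, map_zero, AddValuation.map_zero]; exact le_top
  · rw [va_C ha]

theorem va_top {x : HahnSeries Γ ℂ} : va x = ⊤ ↔ x = 0 := AddValuation.top_iff (va (Γ := Γ))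

theorem sqrt_ex (x : HahnSeries Γ ℂ) (hx : 0 < va x) :
    ∃ h : HahnSeries Γ ℂ, h ^ 2 = 1 + x ∧ 0 < va (h - 1) := by
  have hx' : 0 < x.orderTop := by
    rw [va, HahnSeries.addVal_apply] at hx
    exact hx
  refine ⟨PowerSeries.heval x (PowerSeries.binomialSeries ℂ (1 / 2 : ℂ)), ?_, ?_⟩
  · rw [pow_two, ← map_mul, ← PowerSeries.binomialSeries_add]
    have h1 : (1 / 2 + 1 / 2 : ℂ) = ((1 : ℕ) : ℂ) := by norm_num
    rw [h1, PowerSeries.binomialSeries_nat, pow_one, map_add, map_one, PowerSeries.heval_X x hx']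
  · have h2 : 0 < ((1 + x) - 1 : HahnSeries Γ ℂ).orderTop := by
      rw [add_sub_cancel_left]; exact hx'
    have h3 := HahnSeries.SummableFamily.orderTop_hsum_binomialFamily_pos h2 (1 / 2 : ℂ)
    rw [HahnSeries.SummableFamily.binomialFamily] at h3
    rw [add_sub_cancel_left] at h3
    rw [va, HahnSeries.addVal_apply, PowerSeries.heval_apply]
    exact h3

/-- the order -/
def od (x : HahnSeries Γ ℂ) : Γ := x.order

theorem va_eq {x : HahnSeries Γ ℂ} (hx : x ≠ 0) : va x = ((od x : Γ) : WithTop Γ) := by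
  rw [va, HahnSeries.addVal_apply, od, HahnSeries.order_eq_orderTop_of_ne_zero hx]

theorem od_mul {x y : HahnSeries Γ ℂ} (hx : x ≠ 0) (hy : y ≠ 0) : od (x * y) = od x + od y :=
  HahnSeries.order_mul hx hy

theorem od_one : od (1 : HahnSeries Γ ℂ) = 0 := by
  rw [od]; simp

theorem od_inv {x : HahnSeries Γ ℂ} (hx : x ≠ 0) : od x⁻¹ = - od x := by
  have h := od_mul hx (inv_ne_zero hx)
  rw [mul_inv_cancel₀ hx, od_one] at h
  exact (neg_eq_of_add_eq_zero_right h.symm).symm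

theorem od_pow {x : HahnSeries Γ ℂ} (n : ℕ) : od (x ^ n) = n • od x := HahnSeries.order_pow x n

theorem od_zpow {x : HahnSeries Γ ℂ} (hx : x ≠ 0) (n : ℤ) : od (x ^ n) = n • od x := by
  obtain ⟨k, rfl | rfl⟩ := n.eq_nat_or_neg
  · rw [zpow_natCast, od_pow, natCast_zsmul]
  · rw [zpow_neg, zpow_natCast, od_inv (pow_ne_zero _ hx), od_pow, neg_zsmul, natCast_zsmul]

theorem od_C {a : ℂ} (ha : a ≠ 0) : od (algebraMap ℂ (HahnSeries Γ ℂ) a) = 0 := by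
  have h0 : algebraMap ℂ (HahnSeries Γ ℂ) a ≠ 0 := (map_ne_zero _).2 ha
  have h := va_C (Γ := Γ) ha
  rw [va_eq h0] at h
  exact_mod_cast h

theorem od_neg (x : HahnSeries Γ ℂ) : od (-x) = od x := by
  rw [od, HahnSeries.order_neg]; rfl

/-- dominant term -/
theorem od_add {x y : HahnSeries Γ ℂ} (hx : x ≠ 0) (h : y = 0 ∨ od x < od y) :
    x + y ≠ 0 ∧ od (x + y) = od x := by
  have h1 : va x < va y := by
    by_cases hy : y = 0
    · rw [hy, va_top.2 rfl, va_eq hx]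
      exact WithTop.coe_lt_top _
    · rcases h with h | h
      · exact absurd h hy
      · rw [va_eq hx, va_eq hy]; exact_mod_cast h
  have h2 := AddValuation.map_add_eq_of_lt_left va h1
  have h3 : x + y ≠ 0 := by
    intro h0
    rw [h0, va_top.2 rfl, va_eq hx] at h2
    exact WithTop.top_ne_coe h2
  refine ⟨h3, ?_⟩
  rw [va_eq h3, va_eq hx] at h2
  exact_mod_cast h2

theorem nsq (r : ℝ) : (algebraMap ℂ (HahnSeries Γ ℂ) ((r : ℂ) ^ 2)) =
    (algebraMap ℂ (HahnSeries Γ ℂ) (r : ℂ)) ^ 2 := map_pow _ _ _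

/-- the two square roots at a pole of `p` -/
theorem root_choice (r : ℝ) (hr : 0 < r) (p : HahnSeries Γ ℂ) (hp : p ≠ 0) (hpn : od p < 0) :
    (∃ w : HahnSeries Γ ℂ, w ^ 2 = algebraMap ℂ (HahnSeries Γ ℂ) ((r : ℂ) ^ 2) - p ^ 2 ∧
      od (gg r w p) = - od p) := by
  have hrc : (r : ℂ) ≠ 0 := by exact_mod_cast hr.ne'
  have hr0 : algebraMap ℂ (HahnSeries Γ ℂ) (r : ℂ) ≠ 0 := (map_ne_zero _).2 hrc
  have hri : algebraMap ℂ (HahnSeries Γ ℂ) ((r : ℂ)⁻¹) ≠ 0 := (map_ne_zero _).2 (inv_ne_zero hrc)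
  have hI0 : algebraMap ℂ (HahnSeries Γ ℂ) Complex.I ≠ 0 := (map_ne_zero _).2 Complex.I_ne_zero
  have hI := I_sq (M := HahnSeries Γ ℂ)
  set x : HahnSeries Γ ℂ := -(algebraMap ℂ (HahnSeries Γ ℂ) (r : ℂ) * p⁻¹) ^ 2 with hx
  have hx0 : x ≠ 0 := neg_ne_zero.2 (pow_ne_zero _ (mul_ne_zero hr0 (inv_ne_zero hp)))
  have hxo : od x = -(od p + od p) := by
    rw [hx, od_neg, od_pow, od_mul hr0 (inv_ne_zero hp), od_C hrc, od_inv hp, zero_add, two_nsmul]
    abel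
  have hxv : 0 < va x := by
    rw [va_eq hx0, hxo]
    have : (0 : Γ) < -(od p + od p) := by
      rw [neg_pos]; exact add_neg hpn hpn
    exact_mod_cast this
  obtain ⟨h, hh, hh1⟩ := sqrt_ex x hxv
  have h2 : (2 : HahnSeries Γ ℂ) = algebraMap ℂ (HahnSeries Γ ℂ) 2 := (map_ofNat _ 2).symm
  have h2ne : (2 : HahnSeries Γ ℂ) ≠ 0 := by rw [h2]; exact (map_ne_zero _).2 two_ne_zero
  have hplus : h + 1 ≠ 0 ∧ od (h + 1) = 0 := by
    have e1 : h + 1 = 2 + (h - 1) := by ring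
    have h3 : h - 1 = 0 ∨ od (2 : HahnSeries Γ ℂ) < od (h - 1) := by
      by_cases h4 : h - 1 = 0
      · exact Or.inl h4
      · right
        rw [va_eq h4] at hh1
        rw [h2, od_C two_ne_zero]
        exact_mod_cast hh1
    have h5 := od_add h2ne h3
    rw [e1]
    refine ⟨h5.1, ?_⟩
    rw [h5.2, h2, od_C two_ne_zero]
  have hsq : (algebraMap ℂ (HahnSeries Γ ℂ) Complex.I * p * h) ^ 2 =
      algebraMap ℂ (HahnSeries Γ ℂ) ((r : ℂ) ^ 2) - p ^ 2 := by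
    rw [mul_pow, mul_pow, hI, hh, hx, nsq]
    field_simp
    ring
  refine ⟨-(algebraMap ℂ (HahnSeries Γ ℂ) Complex.I * p * h), by rw [← hsq]; ring, ?_⟩
  set w : HahnSeries Γ ℂ := -(algebraMap ℂ (HahnSeries Γ ℂ) Complex.I * p * h) with hw
  have hw2 : w ^ 2 = algebraMap ℂ (HahnSeries Γ ℂ) ((r : ℂ) ^ 2) - p ^ 2 := by
    rw [hw, ← hsq]; ring
  have hmul := gg_mul r hr w p hw2
  have hgn := gg_ne r hr w p hw2
  have e1 : (w - algebraMap ℂ (HahnSeries Γ ℂ) Complex.I * p) *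
      algebraMap ℂ (HahnSeries Γ ℂ) ((r : ℂ)⁻¹) =
      -(algebraMap ℂ (HahnSeries Γ ℂ) Complex.I * p * (h + 1) *
        algebraMap ℂ (HahnSeries Γ ℂ) ((r : ℂ)⁻¹)) := by
    rw [hw]; ring
  have e2 : od ((w - algebraMap ℂ (HahnSeries Γ ℂ) Complex.I * p) *
      algebraMap ℂ (HahnSeries Γ ℂ) ((r : ℂ)⁻¹)) = od p := by
    rw [e1, od_neg, od_mul (mul_ne_zero (mul_ne_zero hI0 hp) hplus.1) hri,
      od_mul (mul_ne_zero hI0 hp) hplus.1, od_mul hI0 hp, od_C Complex.I_ne_zero, hplus.2,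
      od_C (inv_ne_zero hrc)]
    simp
  have e3 : (w - algebraMap ℂ (HahnSeries Γ ℂ) Complex.I * p) *
      algebraMap ℂ (HahnSeries Γ ℂ) ((r : ℂ)⁻¹) ≠ 0 := by
    intro h0; rw [h0, mul_zero] at hmul; exact zero_ne_one hmul
  have e4 := od_mul hgn e3
  rw [hmul, od_one, e2] at e4
  exact eq_neg_of_add_eq_zero_left e4.symm

/-- root of `r'^2 - (r+t)^2`, order of `g` is zero -/
theorem root_const (t : HahnSeries Γ ℂ) (ht0 : t ≠ 0) (htp : 0 < od t)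
    (r r' : ℝ) (hr : 0 < r) (hr' : 0 < r') (hne : r' ≠ r) :
    ∃ w : HahnSeries Γ ℂ, w ^ 2 = algebraMap ℂ (HahnSeries Γ ℂ) ((r' : ℂ) ^ 2) -
        (algebraMap ℂ (HahnSeries Γ ℂ) (r : ℂ) + t) ^ 2 ∧
      od (gg r' w (algebraMap ℂ (HahnSeries Γ ℂ) (r : ℂ) + t)) = 0 := by
  have htv : 0 < va t := by rw [va_eq ht0]; exact_mod_cast htp
  set p : HahnSeries Γ ℂ := algebraMap ℂ (HahnSeries Γ ℂ) (r : ℂ) + t with hp
  have hd : (r' : ℂ) ^ 2 - (r : ℂ) ^ 2 ≠ 0 := by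
    have : (r' ^ 2 - r ^ 2 : ℝ) ≠ 0 := by
      intro h
      have h2 : (r' - r) * (r' + r) = 0 := by ring_nf; linarith
      rcases mul_eq_zero.1 h2 with h3 | h3
      · exact hne (by linarith)
      · linarith
    exact_mod_cast this
  set d : ℂ := (r' : ℂ) ^ 2 - (r : ℂ) ^ 2 with hdd
  obtain ⟨c, hc⟩ := IsAlgClosed.exists_pow_nat_eq d (n := 2) (by norm_num)
  have hc0 : c ≠ 0 := by rintro rfl; apply hd; rw [← hc]; norm_num
  have h2r : (2 * (r : ℂ)) ≠ 0 := by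
    have : (r : ℂ) ≠ 0 := by exact_mod_cast hr.ne'
    simp [this]
  have h2r0 : algebraMap ℂ (HahnSeries Γ ℂ) (2 * (r : ℂ)) ≠ 0 := (map_ne_zero _).2 h2r
  have hs := od_add (x := algebraMap ℂ (HahnSeries Γ ℂ) (2 * (r : ℂ))) (y := t) h2r0
    (Or.inr (by rw [od_C h2r]; exact htp))
  set x : HahnSeries Γ ℂ := -(t * (algebraMap ℂ (HahnSeries Γ ℂ) (2 * (r : ℂ)) + t)) *
    algebraMap ℂ (HahnSeries Γ ℂ) d⁻¹ with hx
  have hdi0 : algebraMap ℂ (HahnSeries Γ ℂ) d⁻¹ ≠ 0 := (map_ne_zero _).2 (inv_ne_zero hd)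
  have hx0 : x ≠ 0 := mul_ne_zero (neg_ne_zero.2 (mul_ne_zero ht0 hs.1)) hdi0
  have hxo : od x = od t := by
    rw [hx, od_mul (neg_ne_zero.2 (mul_ne_zero ht0 hs.1)) hdi0, od_neg, od_mul ht0 hs.1, hs.2,
      od_C h2r, od_C (inv_ne_zero hd)]
    simp
  have hxv : 0 < va x := by
    rw [va_eq hx0, hxo]; exact_mod_cast htp
  obtain ⟨h, hh, hh1⟩ := sqrt_ex x hxv
  have hcc : algebraMap ℂ (HahnSeries Γ ℂ) c ^ 2 = algebraMap ℂ (HahnSeries Γ ℂ) d := by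
    rw [← map_pow, hc]
  have hw : (algebraMap ℂ (HahnSeries Γ ℂ) c * h) ^ 2 =
      algebraMap ℂ (HahnSeries Γ ℂ) ((r' : ℂ) ^ 2) - p ^ 2 := by
    rw [mul_pow, hh, hcc, mul_add, mul_one, hx]
    have e1 : algebraMap ℂ (HahnSeries Γ ℂ) d * algebraMap ℂ (HahnSeries Γ ℂ) d⁻¹ = 1 := by
      rw [← map_mul, mul_inv_cancel₀ hd, map_one]
    have e2 : algebraMap ℂ (HahnSeries Γ ℂ) d *
        (-(t * (algebraMap ℂ (HahnSeries Γ ℂ) (2 * (r : ℂ)) + t)) *
        algebraMap ℂ (HahnSeries Γ ℂ) d⁻¹) =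
        -(t * (algebraMap ℂ (HahnSeries Γ ℂ) (2 * (r : ℂ)) + t)) *
        (algebraMap ℂ (HahnSeries Γ ℂ) d * algebraMap ℂ (HahnSeries Γ ℂ) d⁻¹) := by ring
    rw [e2, e1, hdd, map_sub, hp, map_mul, map_ofNat, nsq, nsq]
    ring
  refine ⟨algebraMap ℂ (HahnSeries Γ ℂ) c * h, hw, ?_⟩
  -- valuations are nonnegative
  have hoh : 0 ≤ va h := by
    have e1 : h = 1 + (h - 1) := by ring
    rw [e1]
    refine le_trans ?_ (AddValuation.map_add va _ _)
    rw [AddValuation.map_one]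
    exact le_min le_rfl hh1.le
  have hvw : 0 ≤ va (algebraMap ℂ (HahnSeries Γ ℂ) c * h) := by
    rw [AddValuation.map_mul, va_C hc0, zero_add]; exact hoh
  have hrc : (r : ℂ) ≠ 0 := by exact_mod_cast hr.ne'
  have hvp : 0 ≤ va p := by
    rw [hp]
    refine le_trans ?_ (AddValuation.map_add va _ _)
    rw [va_C hrc]
    exact le_min le_rfl htv.le
  have hvIp : 0 ≤ va (algebraMap ℂ (HahnSeries Γ ℂ) Complex.I * p) := by
    rw [AddValuation.map_mul, va_C Complex.I_ne_zero, zero_add]; exact hvp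
  have hrc' : (r' : ℂ) ≠ 0 := by exact_mod_cast hr'.ne'
  have hmul := gg_mul r' hr' _ p hw
  have hgn := gg_ne r' hr' _ p hw
  have hg0 : 0 ≤ va (gg r' (algebraMap ℂ (HahnSeries Γ ℂ) c * h) p) := by
    unfold gg
    rw [AddValuation.map_mul, va_C (inv_ne_zero hrc'), add_zero]
    exact le_trans (le_min hvw hvIp) (AddValuation.map_add va _ _)
  have hg1 : 0 ≤ va ((algebraMap ℂ (HahnSeries Γ ℂ) c * h -
      algebraMap ℂ (HahnSeries Γ ℂ) Complex.I * p) *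
      algebraMap ℂ (HahnSeries Γ ℂ) ((r' : ℂ)⁻¹)) := by
    rw [AddValuation.map_mul, va_C (inv_ne_zero hrc'), add_zero]
    exact le_trans (le_min hvw hvIp) (AddValuation.map_sub va _ _)
  have hn1 : (algebraMap ℂ (HahnSeries Γ ℂ) c * h -
      algebraMap ℂ (HahnSeries Γ ℂ) Complex.I * p) *
      algebraMap ℂ (HahnSeries Γ ℂ) ((r' : ℂ)⁻¹) ≠ 0 := by
    intro h0; rw [h0, mul_zero] at hmul; exact zero_ne_one hmul
  rw [va_eq hgn] at hg0
  rw [va_eq hn1] at hg1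
  have hg0' : 0 ≤ od (gg r' (algebraMap ℂ (HahnSeries Γ ℂ) c * h) p) := by exact_mod_cast hg0
  have hg1' : 0 ≤ od ((algebraMap ℂ (HahnSeries Γ ℂ) c * h -
      algebraMap ℂ (HahnSeries Γ ℂ) Complex.I * p) *
      algebraMap ℂ (HahnSeries Γ ℂ) ((r' : ℂ)⁻¹)) := by exact_mod_cast hg1
  have hsum := od_mul hgn hn1
  rw [hmul, od_one] at hsum
  exact ((add_eq_zero_iff_of_nonneg hg0' hg1').1 hsum.symm).1

end

end H450Sp
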