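import Mathlib
import Pool.Agent.H450R2.Sp.Val
import Pool.Agent.H450R2.Sp.Core

/-! Runs in the Hahn series field with prescribed end. -/

set_option autoImplicit false
set_option linter.unusedSectionVars false
set_option maxHeartbeats 2000000

namespace H450Sp

open IntermediateField H450Iv

noncomputable section

section general
variable {ι : Type} [Fintype ι] {M : Type} [Field M] [Algebra ℂ M]

theorem gg_neg (r : ℝ) (hr : 0 < r) (w p : M)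
    (hw : w ^ 2 = algebraMap ℂ M ((r : ℂ) ^ 2) - p ^ 2) : gg r (-w) p = -(gg r w p)⁻¹ := by
  have hgm := gg_mul r hr w p hw
  have : (gg r w p)⁻¹ = (w - algebraMap ℂ M Complex.I * p) * algebraMap ℂ M ((r : ℂ)⁻¹) :=
    inv_eq_of_mul_eq_one_right hgm
  rw [this]
  unfold gg
  ring

theorem frame_V (σ h : M) (V q : ι → M) (hσ0 : σ ≠ 0) (i : ι) :
    V i = σ / 2 * (fE σ h V q i + fF σ h V q i) ∨ (2 : M) = 0 := by
  by_cases h2 : (2 : M) = 0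
  · right; exact h2
  · left
    unfold fE fF
    field_simp
    ring

theorem two_ne : (2 : M) ≠ 0 := by
  have : (2 : M) = algebraMap ℂ M 2 := (map_ofNat _ 2).symm
  rw [this]; exact (map_ne_zero _).2 two_ne_zero

theorem frame_q (σ h : M) (V q : ι → M) (hh0 : h ≠ 0) (i : ι) :
    q i = algebraMap ℂ M Complex.I * h / 2 * (fE σ h V q i - fF σ h V q i) := by
  have h2 := two_ne (M := M)
  have hI := I_ne (M := M)
  unfold fE fF
  field_simp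
  ring

/-- undoing a hit -/
theorem hit_back (r : ℝ) (hr : 0 < r) (n : ℕ) (κ : ℂ) (hκ : κ ^ 2 = 1) (w σ h : M) (V q : ι → M)
    (hσ : σ ^ 2 = V ⬝ᵥ V) (hh : h ^ 2 = q ⬝ᵥ q) (hσ0 : σ ≠ 0) (hh0 : h ≠ 0) (hVq : V ⬝ᵥ q = 0)
    (hw : w ^ 2 = (V ⬝ᵥ V) * (algebraMap ℂ M ((r : ℂ) ^ 2) - q ⬝ᵥ q)) :
    ∃ V' q' : ι → M, V' ⬝ᵥ V' = V ⬝ᵥ V ∧ V' ⬝ᵥ q' = 0 ∧ q' ⬝ᵥ q' = q ⬝ᵥ q ∧
      hitV r n κ w V' q' = V ∧ hitq r n κ w V' q' = q ∧
      (∀ i, fE σ h V' q' i = algebraMap ℂ M κ * ((gg r (w / σ) h)⁻¹) ^ (2 * n) * fE σ h V q i) ∧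
      (∀ i, fF σ h V' q' i = algebraMap ℂ M κ * (gg r (w / σ) h) ^ (2 * n) * fF σ h V q i) := by
  have hD : V ⬝ᵥ V ≠ 0 := by rw [← hσ]; exact pow_ne_zero _ hσ0
  have hw' : (-w) ^ 2 = (V ⬝ᵥ V) * (algebraMap ℂ M ((r : ℂ) ^ 2) - q ⬝ᵥ q) := by
    rw [neg_sq]; exact hw
  have hw2 := gsq r hr w σ h V q hσ hh hσ0 hw
  have hgn := gg_ne r hr _ _ hw2
  have hneg : gg r (-w / σ) h = -(gg r (w / σ) h)⁻¹ := by
    rw [neg_div]; exact gg_neg r hr _ _ hw2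
  obtain ⟨h1, h2, h3⟩ := hit_inv r hr n κ hκ (-w) V q hD hVq hw'
  have hf := hit_frame r hr n κ (-w) σ h V q hσ hh hσ0 hh0 hw'
  set V' := hitV r n κ (-w) V q
  set q' := hitq r n κ (-w) V q
  have hev : Even (2 * n) := even_two_mul n
  have hE : ∀ i, fE σ h V' q' i = algebraMap ℂ M κ * ((gg r (w / σ) h)⁻¹) ^ (2 * n) *
      fE σ h V q i := by
    intro i; rw [(hf i).1, hneg, hev.neg_pow]
  have hF : ∀ i, fF σ h V' q' i = algebraMap ℂ M κ * (gg r (w / σ) h) ^ (2 * n) *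
      fF σ h V q i := by
    intro i
    rw [(hf i).2, hneg, inv_neg, inv_inv, hev.neg_pow]
  have hκ' : algebraMap ℂ M κ * algebraMap ℂ M κ = 1 := by
    rw [← map_mul, ← pow_two, hκ, map_one]
  have hw3 : w ^ 2 = (V' ⬝ᵥ V') * (algebraMap ℂ M ((r : ℂ) ^ 2) - q' ⬝ᵥ q') := by
    rw [h1, h3]; exact hw
  have hf2 := hit_frame r hr n κ w σ h V' q' (by rw [h1]; exact hσ) (by rw [h3]; exact hh)
    hσ0 hh0 hw3
  have hgg : (gg r (w / σ) h) ^ (2 * n) * ((gg r (w / σ) h)⁻¹) ^ (2 * n) = 1 := by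
    rw [← mul_pow, mul_inv_cancel₀ hgn, one_pow]
  have hE2 : ∀ i, fE σ h (hitV r n κ w V' q') (hitq r n κ w V' q') i = fE σ h V q i := by
    intro i
    rw [(hf2 i).1, hE i]
    linear_combination (algebraMap ℂ M κ * algebraMap ℂ M κ * fE σ h V q i) * hgg +
      fE σ h V q i * hκ'
  have hF2 : ∀ i, fF σ h (hitV r n κ w V' q') (hitq r n κ w V' q') i = fF σ h V q i := by
    intro i
    rw [(hf2 i).2, hF i]
    linear_combination (algebraMap ℂ M κ * algebraMap ℂ M κ * fF σ h V q i) * hgg +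
      fF σ h V q i * hκ'
  refine ⟨V', q', h1, h2, h3, ?_, ?_, hE, hF⟩
  · funext i
    have e1 := (frame_V σ h (hitV r n κ w V' q') (hitq r n κ w V' q') hσ0 i).resolve_right two_ne
    have e2 := (frame_V σ h V q hσ0 i).resolve_right two_ne
    rw [e1, e2, hE2, hF2]
  · funext i
    have e1 := frame_q σ h (hitV r n κ w V' q') (hitq r n κ w V' q') hh0 i
    have e2 := frame_q σ h V q hh0 i
    rw [e1, e2, hE2, hF2]

theorem dot_mem (A : IntermediateField ℂ M) (x y : ι → M) (hx : ∀ i, x i ∈ A)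
    (hy : ∀ i, y i ∈ A) : x ⬝ᵥ y ∈ A :=
  sum_mem fun i _ => mul_mem (hx i) (hy i)

/-- independence passes to the previous state -/
theorem ind_prev (V1 q1 V2 q2 : ι → M) (τ : M) (hD : V2 ⬝ᵥ V2 ≠ 0) (hVq : V2 ⬝ᵥ q2 = 0)
    (hi : Ind2 V1 (fun i => q1 i + τ * V1 i))
    (hA : ∀ A : IntermediateField ℂ M, (∀ x, IsAlgebraic A x → x ∈ A) → (∀ i, V2 i ∈ A) →
      (∀ i, q2 i ∈ A) → (∀ i, V1 i ∈ A) ∧ (∀ i, q1 i ∈ A)) :
    Ind2 V2 (fun i => q2 i + τ * V2 i) := by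
  set x2 : ι → M := fun i => q2 i + τ * V2 i with hx2
  set F := adjoin ℂ (Set.range (Sum.elim V2 x2)) with hF
  set A : IntermediateField ℂ M := (algebraicClosure F M).restrictScalars ℂ with hAdef
  have hFA : ∀ x ∈ F, x ∈ A := fun x hx => (algebraicClosure F M).algebraMap_mem ⟨x, hx⟩
  have hV2 : ∀ i, V2 i ∈ F := fun i => subset_adjoin ℂ _ ⟨Sum.inl i, rfl⟩
  have hx2' : ∀ i, x2 i ∈ F := fun i => subset_adjoin ℂ _ ⟨Sum.inr i, rfl⟩
  have hτ : τ ∈ F := by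
    have h1 : x2 ⬝ᵥ V2 = τ * (V2 ⬝ᵥ V2) := by
      have h2 : x2 ⬝ᵥ V2 = V2 ⬝ᵥ q2 + τ * (V2 ⬝ᵥ V2) := by
        unfold dotProduct
        rw [Finset.mul_sum, ← Finset.sum_add_distrib]
        apply Finset.sum_congr rfl
        intro i _
        simp only [hx2]; ring
      rw [h2, hVq, zero_add]
    have h2 : τ = (x2 ⬝ᵥ V2) / (V2 ⬝ᵥ V2) := by
      rw [h1, mul_div_assoc, div_self hD, mul_one]
    rw [h2]
    exact div_mem (dot_mem F x2 V2 hx2' hV2) (dot_mem F V2 V2 hV2 hV2)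
  have hq2 : ∀ i, q2 i ∈ F := by
    intro i
    have : q2 i = x2 i - τ * V2 i := by simp only [hx2]; ring
    rw [this]
    exact sub_mem (hx2' i) (mul_mem hτ (hV2 i))
  have hcl : ∀ x, IsAlgebraic A x → x ∈ A := by
    intro x hx
    have h1 : IsAlgebraic (algebraicClosure F M) x := hx
    have h2 : IsAlgebraic F x := by
      have : Algebra.IsAlgebraic F (algebraicClosure F M) := algebraicClosure.isAlgebraic F M
      exact h1.restrictScalars F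
    exact mem_algebraicClosure_iff.2 h2
  obtain ⟨hV1, hq1⟩ := hA A hcl (fun i => hFA _ (hV2 i)) (fun i => hFA _ (hq2 i))
  unfold Ind2 at hi ⊢
  refine ind_of_alg _ _ hi ?_
  intro j
  have key : ∀ y ∈ A, IsAlgebraic F y := fun y hy => mem_algebraicClosure_iff.1 hy
  rcases j with i | i
  · exact key _ (hV1 i)
  · exact key _ (add_mem (hq1 i) (mul_mem (hFA _ hτ) (hV1 i)))

theorem ind_hit_prev (r : ℝ) (n : ℕ) (κ : ℂ) (w : M) (V q V' q' : ι → M) (τ : M)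
    (hD : V' ⬝ᵥ V' ≠ 0) (hVq : V' ⬝ᵥ q' = 0)
    (hw : w ^ 2 = (V' ⬝ᵥ V') * (algebraMap ℂ M ((r : ℂ) ^ 2) - q' ⬝ᵥ q'))
    (hV : hitV r n κ w V' q' = V) (hq : hitq r n κ w V' q' = q)
    (hi : Ind2 V (fun i => q i + τ * V i)) : Ind2 V' (fun i => q' i + τ * V' i) := by
  refine ind_prev V q V' q' τ hD hVq hi ?_
  intro A hcl hV' hq'
  have hwA : w ∈ A := by
    apply hcl
    exact isAlg_of_sq (mul_mem (dot_mem A _ _ hV' hV')
      (sub_mem (IntermediateField.algebraMap_mem _ _) (dot_mem A _ _ hq' hq'))) hw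
  constructor
  · intro i
    have := hitV_map A.val r n κ ⟨w, hwA⟩ (fun i => ⟨V' i, hV' i⟩) (fun i => ⟨q' i, hq' i⟩) i
    have h3 : V i = A.val (hitV r n κ ⟨w, hwA⟩ (fun i => ⟨V' i, hV' i⟩)
      (fun i => ⟨q' i, hq' i⟩) i) := by rw [this, ← hV]; rfl
    rw [h3]
    exact (hitV r n κ (⟨w, hwA⟩ : A) (fun i => ⟨V' i, hV' i⟩) (fun i => ⟨q' i, hq' i⟩) i).2
  · intro i
    have := hitq_map A.val r n κ ⟨w, hwA⟩ (fun i => ⟨V' i, hV' i⟩) (fun i => ⟨q' i, hq' i⟩) i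
    have h3 : q i = A.val (hitq r n κ ⟨w, hwA⟩ (fun i => ⟨V' i, hV' i⟩)
      (fun i => ⟨q' i, hq' i⟩) i) := by rw [this, ← hq]; rfl
    rw [h3]
    exact (hitq r n κ (⟨w, hwA⟩ : A) (fun i => ⟨V' i, hV' i⟩) (fun i => ⟨q' i, hq' i⟩) i).2

theorem ind_shift_prev (δ : ι → ℝ) (V q q' : ι → M) (τ : M)
    (hD : V ⬝ᵥ V ≠ 0) (hVq : V ⬝ᵥ q' = 0) (hq : shq δ V q' = q)
    (hi : Ind2 V (fun i => q i + τ * V i)) : Ind2 V (fun i => q' i + τ * V i) := by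
  refine ind_prev V q V q' τ hD hVq hi ?_
  intro A hcl hV' hq'
  refine ⟨hV', fun i => ?_⟩
  have := shq_map A.val δ (fun i => ⟨V i, hV' i⟩) (fun i => ⟨q' i, hq' i⟩) i
  have h3 : q i = A.val (shq δ (fun i => ⟨V i, hV' i⟩) (fun i => ⟨q' i, hq' i⟩) i) := by
    rw [this, ← hq]; rfl
  rw [h3]
  exact (shq δ (fun i => (⟨V i, hV' i⟩ : A)) (fun i => ⟨q' i, hq' i⟩) i).2

theorem perp_rec (V q : ι → M) (τ : M) (hD : V ⬝ᵥ V ≠ 0) (hVq : V ⬝ᵥ q = 0) :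
    perp V (fun i => q i + τ * V i) = q := by
  have h2 : (fun i => q i + τ * V i) ⬝ᵥ V = V ⬝ᵥ q + τ * (V ⬝ᵥ V) := by
    unfold dotProduct
    rw [Finset.mul_sum, ← Finset.sum_add_distrib]
    apply Finset.sum_congr rfl
    intro i _
    ring
  funext i
  unfold perp
  rw [h2, hVq, zero_add, mul_div_assoc, div_self hD]
  ring

end general

end

end H450Sp
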