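import Mathlib
import Pool.Agent.H450R2.Sp.Growth

/-! Stages A and B of the construction. -/

set_option autoImplicit false
set_option linter.unusedSectionVars false
set_option maxHeartbeats 2000000

namespace H450Sp

open IntermediateField H450Iv

noncomputable section

variable {Γ : Type} [AddCommGroup Γ] [LinearOrder Γ] [IsOrderedAddMonoid Γ]
variable {ι : Type} [Fintype ι]

theorem P_add {a b : HahnSeries Γ ℂ} (ha : 0 < va a) (hb : 0 < va b) : 0 < va (a + b) :=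
  lt_of_lt_of_le (lt_min ha hb) (AddValuation.map_add va a b)

theorem P_sub {a b : HahnSeries Γ ℂ} (ha : 0 < va a) (hb : 0 < va b) : 0 < va (a - b) :=
  lt_of_lt_of_le (lt_min ha hb) (AddValuation.map_sub va a b)

theorem N_add {a b : HahnSeries Γ ℂ} (ha : 0 ≤ va a) (hb : 0 ≤ va b) : 0 ≤ va (a + b) :=
  (le_min ha hb).trans (AddValuation.map_add va a b)

theorem N_sub {a b : HahnSeries Γ ℂ} (ha : 0 ≤ va a) (hb : 0 ≤ va b) : 0 ≤ va (a - b) :=
  (le_min ha hb).trans (AddValuation.map_sub va a b)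

theorem N_mul {a b : HahnSeries Γ ℂ} (ha : 0 ≤ va a) (hb : 0 ≤ va b) : 0 ≤ va (a * b) := by
  rw [AddValuation.map_mul]; exact add_nonneg ha hb

theorem P_mul_N {a b : HahnSeries Γ ℂ} (ha : 0 < va a) (hb : 0 ≤ va b) : 0 < va (a * b) := by
  rw [AddValuation.map_mul]; exact lt_of_lt_of_le ha (le_add_of_nonneg_right hb)

theorem N_mul_P {a b : HahnSeries Γ ℂ} (ha : 0 ≤ va a) (hb : 0 < va b) : 0 < va (a * b) := by
  rw [AddValuation.map_mul]; exact lt_of_lt_of_le hb (le_add_of_nonneg_left ha)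

theorem N_pow {a : HahnSeries Γ ℂ} (ha : 0 ≤ va a) (n : ℕ) : 0 ≤ va (a ^ n) := by
  rw [AddValuation.map_pow]; exact nsmul_nonneg ha n

theorem N_C (a : ℂ) : 0 ≤ va (algebraMap ℂ (HahnSeries Γ ℂ) a) := va_C_nonneg a

theorem N_2 : 0 ≤ va (2 : HahnSeries Γ ℂ) := by
  have : (2 : HahnSeries Γ ℂ) = algebraMap ℂ _ 2 := (map_ofNat _ 2).symm
  rw [this]; exact N_C 2

theorem N_half : 0 ≤ va ((2 : HahnSeries Γ ℂ)⁻¹) := by
  have : (2 : HahnSeries Γ ℂ)⁻¹ = algebraMap ℂ _ (2⁻¹) := by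
    rw [map_inv₀, map_ofNat]
  rw [this]; exact N_C _

theorem N_one : 0 ≤ va (1 : HahnSeries Γ ℂ) := by rw [AddValuation.map_one]

theorem P_sum {s : Finset ι} {f : ι → HahnSeries Γ ℂ} (hf : ∀ i ∈ s, 0 < va (f i)) :
    0 < va (∑ i ∈ s, f i) := by
  classical
  induction s using Finset.induction_on with
  | empty => rw [Finset.sum_empty, AddValuation.map_zero]; exact WithTop.coe_lt_top _
  | insert a s ha ih =>
    rw [Finset.sum_insert ha]
    exact P_add (hf a (Finset.mem_insert_self _ _))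
      (ih fun i hi => hf i (Finset.mem_insert_of_mem hi))

theorem N_sum {s : Finset ι} {f : ι → HahnSeries Γ ℂ} (hf : ∀ i ∈ s, 0 ≤ va (f i)) :
    0 ≤ va (∑ i ∈ s, f i) := by
  classical
  induction s using Finset.induction_on with
  | empty => rw [Finset.sum_empty, AddValuation.map_zero]; exact le_top
  | insert a s ha ih =>
    rw [Finset.sum_insert ha]
    exact N_add (hf a (Finset.mem_insert_self _ _))
      (ih fun i hi => hf i (Finset.mem_insert_of_mem hi))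

/-- nonzero constant plus small -/
theorem unit_of {c : ℂ} (hc : c ≠ 0) {e : HahnSeries Γ ℂ} (he : 0 < va e) :
    algebraMap ℂ (HahnSeries Γ ℂ) c + e ≠ 0 ∧ va (algebraMap ℂ (HahnSeries Γ ℂ) c + e) = 0 := by
  have h1 : va (algebraMap ℂ (HahnSeries Γ ℂ) c + e) = 0 := by
    rw [AddValuation.map_add_eq_of_lt_left va (by rw [va_C hc]; exact he), va_C hc]
  refine ⟨?_, h1⟩
  intro h0
  rw [h0, va_top.2 rfl] at h1
  exact WithTop.top_ne_coe h1

theorem va_inv_zero {x : HahnSeries Γ ℂ} (hx : x ≠ 0) (h : va x = 0) : va x⁻¹ = 0 := by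
  have h1 := AddValuation.map_mul va x x⁻¹
  rw [mul_inv_cancel₀ hx, AddValuation.map_one, h, zero_add] at h1
  exact h1.symm

/-- a frame adapted to the null direction `ν` -/
structure Fr (ν : ι → ℂ) (V q : ι → HahnSeries Γ ℂ) (σ h X : HahnSeries Γ ℂ) : Prop where
  hσ : σ ^ 2 = V ⬝ᵥ V
  hh : h ^ 2 = q ⬝ᵥ q
  hVq : V ⬝ᵥ q = 0
  hσ0 : σ ≠ 0
  hh0 : h ≠ 0
  hX0 : X ≠ 0
  hE : ∀ i, 0 < va (fE σ h V q i / X - algebraMap ℂ _ (ν i))
  hF : ∀ i, 0 < va (fF σ h V q i / X)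

theorem Fr.hD {ν : ι → ℂ} {V q : ι → HahnSeries Γ ℂ} {σ h X : HahnSeries Γ ℂ}
    (H : Fr ν V q σ h X) : V ⬝ᵥ V ≠ 0 := by
  rw [← H.hσ]; exact pow_ne_zero _ H.hσ0

/-- undoing a hit keeps the frame adapted -/
theorem Fr.unhit {ν : ι → ℂ} {V q : ι → HahnSeries Γ ℂ} {σ h X τ : HahnSeries Γ ℂ}
    (H : Fr ν V q σ h X) (hi : Ind2 V (fun i => q i + τ * V i)) (r : ℝ) (hr : 0 < r) (n : ℕ)
    (κ : ℂ) (hκ : κ ^ 2 = 1)
    (w : HahnSeries Γ ℂ) (hw : w ^ 2 = algebraMap ℂ _ ((r : ℂ) ^ 2) - h ^ 2)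
    (hg : 0 ≤ od (gg r w h)) :
    ∃ (V' q' : ι → HahnSeries Γ ℂ) (X' w' : HahnSeries Γ ℂ), Fr ν V' q' σ h X' ∧
      Ind2 V' (fun i => q' i + τ * V' i) ∧
      w' ^ 2 = (V' ⬝ᵥ V') * (algebraMap ℂ _ ((r : ℂ) ^ 2) - q' ⬝ᵥ q') ∧
      hitV r n κ w' V' q' = V ∧ hitq r n κ w' V' q' = q ∧
      od X' = od X - (2 * n) • od (gg r w h) := by
  set w' := σ * w with hw'
  have hww : w' / σ = w := by rw [hw', mul_div_assoc, mul_div_cancel₀ _ H.hσ0]
  have hw2 : w' ^ 2 = (V ⬝ᵥ V) * (algebraMap ℂ _ ((r : ℂ) ^ 2) - q ⬝ᵥ q) := by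
    rw [hw', mul_pow, hw, H.hσ, H.hh]
  obtain ⟨V', q', h1, h2, h3, h4, h5, h6, h7⟩ := hit_back r hr n κ hκ w' σ h V q H.hσ H.hh
    H.hσ0 H.hh0 H.hVq hw2
  rw [hww] at h6 h7
  have hgn := gg_ne r hr w h hw
  have hκ0 : κ ≠ 0 := by rintro rfl; norm_num at hκ
  have hκa : algebraMap ℂ (HahnSeries Γ ℂ) κ ≠ 0 := (map_ne_zero _).2 hκ0
  set X' := algebraMap ℂ _ κ * ((gg r w h)⁻¹) ^ (2 * n) * X with hX'
  have hX0' : X' ≠ 0 := mul_ne_zero (mul_ne_zero hκa (pow_ne_zero _ (inv_ne_zero hgn))) H.hX0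
  have hw3 : w' ^ 2 = (V' ⬝ᵥ V') * (algebraMap ℂ _ ((r : ℂ) ^ 2) - q' ⬝ᵥ q') := by
    rw [h1, h3]; exact hw2
  refine ⟨V', q', X', w', ⟨by rw [h1]; exact H.hσ, by rw [h3]; exact H.hh, h2, H.hσ0, H.hh0,
    hX0', ?_, ?_⟩, ?_, hw3, h4, h5, ?_⟩
  · intro i
    have e1 : fE σ h V' q' i / X' = fE σ h V q i / X := by
      rw [h6 i, hX']
      rw [mul_div_mul_left _ _ (mul_ne_zero hκa (pow_ne_zero _ (inv_ne_zero hgn)))]
    rw [e1]
    exact H.hE i
  · intro i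
    have e1 : fF σ h V' q' i / X' = (gg r w h) ^ (4 * n) * (fF σ h V q i / X) := by
      rw [h7 i, hX', inv_pow]
      have e2 : 4 * n = 2 * n + 2 * n := by ring
      rw [e2, pow_add]
      have := H.hX0
      field_simp
    rw [e1]
    refine N_mul_P (N_pow ?_ _) (H.hF i)
    rw [va_eq hgn]
    exact_mod_cast hg
  · exact ind_hit_prev r n κ w' V q V' q' τ (by rw [h1]; exact H.hD) h2 hw3 h4 h5 hi
  · rw [hX', od_mul (mul_ne_zero hκa (pow_ne_zero _ (inv_ne_zero hgn))) H.hX0,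
      od_mul hκa (pow_ne_zero _ (inv_ne_zero hgn)), od_C hκ0, od_pow, od_inv hgn, zero_add,
      smul_neg]
    abel

/-- undoing a shift -/
theorem Fr.unshift {ν : ι → ℂ} {V q : ι → HahnSeries Γ ℂ} {σ h X τ : HahnSeries Γ ℂ}
    (H : Fr ν V q σ h X) (hi : Ind2 V (fun i => q i + τ * V i)) (δ : ι → ℝ)
    (hδ : ∑ i, (δ i : ℂ) * ν i ≠ 0) (hX : od X < 0) (hXh : od X < od h) :
    ∃ (q' : ι → HahnSeries Γ ℂ) (h' : HahnSeries Γ ℂ), Fr ν V q' σ h' X ∧
      Ind2 V (fun i => q' i + τ * V i) ∧ shq δ V q' = q ∧ od h' = od X := by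
  have hX0 := H.hX0
  have h20 := two_ne (M := HahnSeries Γ ℂ)
  have hI0 := I_ne (M := HahnSeries Γ ℂ)
  have hI := I_sq (M := HahnSeries Γ ℂ)
  set I := algebraMap ℂ (HahnSeries Γ ℂ) Complex.I with hIdef
  set e : ι → HahnSeries Γ ℂ := fun i => fE σ h V q i / X - algebraMap ℂ _ (ν i) with he
  set f : ι → HahnSeries Γ ℂ := fun i => fF σ h V q i / X with hf
  set νL : ι → HahnSeries Γ ℂ := fun i => algebraMap ℂ _ (ν i) with hνL
  have he' : ∀ i, 0 < va (e i) := H.hE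
  have hf' : ∀ i, 0 < va (f i) := H.hF
  have hE : ∀ i, fE σ h V q i = X * (νL i + e i) := by
    intro i; simp only [he, hνL]; field_simp; ring
  have hF : ∀ i, fF σ h V q i = X * f i := by
    intro i; simp only [hf]; field_simp
  have hνN : ∀ i, 0 ≤ va (νL i) := fun i => N_C _
  -- normalised velocity
  set a : ι → HahnSeries Γ ℂ := fun i => (2 : HahnSeries Γ ℂ)⁻¹ * (νL i + e i + f i) with ha
  have haN : ∀ i, 0 ≤ va (a i) := fun i =>
    N_mul N_half (N_add (N_add (hνN i) (he' i).le) (hf' i).le)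
  have hVa : ∀ i, V i = σ * (X * a i) := by
    intro i
    rw [(frame_V σ h V q H.hσ0 i).resolve_right h20, hE, hF]
    simp only [ha]; field_simp
  set c : ι → HahnSeries Γ ℂ := fun i => I * (2 : HahnSeries Γ ℂ)⁻¹ * (νL i + e i - f i) with hc
  have hcN : ∀ i, 0 ≤ va (c i) := fun i =>
    N_mul (N_mul (N_C _) N_half) (N_sub (N_add (hνN i) (he' i).le) (hf' i).le)
  have hqc : ∀ i, q i = h * X * c i := by
    intro i
    rw [frame_q σ h V q H.hh0 i, hE, hF, ← hIdef]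
    simp only [hc]; field_simp
  set D : ι → HahnSeries Γ ℂ := cv δ with hDdef
  have hDN : ∀ i, 0 ≤ va (D i) := fun i => N_C _
  -- b
  set b := D ⬝ᵥ a with hb
  have hbsplit : b = algebraMap ℂ _ ((∑ i, (δ i : ℂ) * ν i) / 2) +
      ∑ i, D i * ((2 : HahnSeries Γ ℂ)⁻¹ * (e i + f i)) := by
    rw [map_div₀, map_ofNat, map_sum, hb]
    unfold dotProduct
    rw [Finset.sum_div, ← Finset.sum_add_distrib]
    apply Finset.sum_congr rfl
    intro i _
    simp only [ha, hDdef, cv, map_mul, hνL]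
    field_simp
    ring
  have hbP : 0 < va (∑ i, D i * ((2 : HahnSeries Γ ℂ)⁻¹ * (e i + f i))) :=
    P_sum fun i _ => N_mul_P (hDN i) (N_mul_P N_half (P_add (he' i) (hf' i)))
  obtain ⟨hb0, hbv⟩ := unit_of (Γ := Γ) (c := (∑ i, (δ i : ℂ) * ν i) / 2)
    (div_ne_zero hδ two_ne_zero) hbP
  rw [← hbsplit] at hb0 hbv
  have hbi := va_inv_zero hb0 hbv
  -- small quantities
  set η := h / X with hη
  have hηP : 0 < va η := by
    have h1 : η ≠ 0 := div_ne_zero H.hh0 hX0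
    rw [va_eq h1, hη, div_eq_mul_inv, od_mul H.hh0 (inv_ne_zero hX0), od_inv hX0]
    have : (0 : Γ) < od h + -od X := by rw [← sub_eq_add_neg]; exact sub_pos.2 hXh
    exact_mod_cast this
  set ξ := X⁻¹ with hξ
  have hξP : 0 < va ξ := by
    rw [va_eq (inv_ne_zero hX0), od_inv hX0]
    have : (0 : Γ) < -od X := neg_pos.2 hX
    exact_mod_cast this
  set z := -((η * η + 2 * η * (D ⬝ᵥ c) + ξ * ξ * (D ⬝ᵥ D)) * (b⁻¹ * b⁻¹)) with hz
  have hDc : 0 ≤ va (D ⬝ᵥ c) := N_sum fun i _ => N_mul (hDN i) (hcN i)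
  have hDD : 0 ≤ va (D ⬝ᵥ D) := N_sum fun i _ => N_mul (hDN i) (hDN i)
  have hzP : 0 < va z := by
    rw [hz, AddValuation.map_neg]
    refine P_mul_N (P_add (P_add (P_mul_N hηP hηP.le) (P_mul_N (N_mul_P N_2 hηP) hDc))
      (P_mul_N (P_mul_N hξP hξP.le) hDD)) (N_mul ?_ ?_) <;> rw [hbi]
  obtain ⟨u, hu, hu1⟩ := sqrt_ex z hzP
  have hu1' : u = algebraMap ℂ _ 1 + (u - 1) := by rw [map_one]; ring
  obtain ⟨hu0, huv⟩ := unit_of (Γ := Γ) (c := 1) one_ne_zero hu1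
  rw [← hu1'] at hu0 huv
  have hui := va_inv_zero hu0 huv
  -- new state
  set h' := I * X * b * u with hh'
  have hh'0 : h' ≠ 0 := mul_ne_zero (mul_ne_zero (mul_ne_zero hI0 hX0) hb0) hu0
  have hVV := H.hσ
  have hDV : D ⬝ᵥ V = σ * (X * b) := by
    rw [hb]; unfold dotProduct
    rw [Finset.mul_sum, Finset.mul_sum]
    apply Finset.sum_congr rfl
    intro i _
    rw [hVa i]; ring
  set q' : ι → HahnSeries Γ ℂ := fun i => q i + D i - X * b * (X * a i) with hq'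
  have hDVV : (D ⬝ᵥ V) / (V ⬝ᵥ V) * σ = X * b := by
    rw [hDV, ← hVV]
    have := H.hσ0
    field_simp
  have hqq : ∀ i, q' i = q i + D i - (D ⬝ᵥ V) / (V ⬝ᵥ V) * V i := by
    intro i
    simp only [hq']
    rw [hVa i]
    linear_combination (X * a i) * hDVV
  have hVq' : V ⬝ᵥ q' = 0 := by
    have : V ⬝ᵥ q' = V ⬝ᵥ q + V ⬝ᵥ D - (D ⬝ᵥ V) / (V ⬝ᵥ V) * (V ⬝ᵥ V) := by
      unfold dotProduct
      rw [Finset.mul_sum, ← Finset.sum_add_distrib, ← Finset.sum_sub_distrib]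
      apply Finset.sum_congr rfl
      intro i _
      rw [hqq i]; unfold dotProduct; ring
    rw [this, H.hVq, div_mul_cancel₀ _ H.hD, dotProduct_comm V D]
    ring
  have haa : a ⬝ᵥ a * (X * X) = 1 := by
    have h1 : V ⬝ᵥ V = σ ^ 2 * (a ⬝ᵥ a * (X * X)) := by
      unfold dotProduct
      rw [Finset.sum_mul, Finset.mul_sum]
      apply Finset.sum_congr rfl
      intro i _
      rw [hVa i]; ring
    rw [← hVV] at h1
    have h2 : σ ^ 2 * (a ⬝ᵥ a * (X * X)) = σ ^ 2 * 1 := by rw [← h1, mul_one]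
    exact mul_left_cancel₀ (pow_ne_zero _ H.hσ0) h2
  have hqa : q ⬝ᵥ a = 0 := by
    have h1 : V ⬝ᵥ q = σ * X * (q ⬝ᵥ a) := by
      unfold dotProduct
      rw [Finset.mul_sum]
      apply Finset.sum_congr rfl
      intro i _
      rw [hVa i]; ring
    rw [H.hVq] at h1
    rcases mul_eq_zero.1 h1.symm with h2 | h2
    · exact absurd h2 (mul_ne_zero H.hσ0 hX0)
    · exact h2
  have hqD : q ⬝ᵥ D = h * X * (D ⬝ᵥ c) := by
    unfold dotProduct
    rw [Finset.mul_sum]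
    apply Finset.sum_congr rfl
    intro i _
    rw [hqc i]; ring
  have hqq' : q' ⬝ᵥ q' = q ⬝ᵥ q + D ⬝ᵥ D + 2 * (q ⬝ᵥ D) - 2 * (X * b * X) * (q ⬝ᵥ a)
      - 2 * (X * b * X) * (D ⬝ᵥ a) + X * b * (X * b) * (a ⬝ᵥ a * (X * X)) := by
    unfold dotProduct
    simp only [Finset.mul_sum, Finset.sum_mul, ← Finset.sum_add_distrib,
      ← Finset.sum_sub_distrib]
    apply Finset.sum_congr rfl
    intro i _
    simp only [hq']; ring
  have hhh : h' ^ 2 = q' ⬝ᵥ q' := by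
    rw [hqq', hqa, haa, ← hb, hqD, ← H.hh]
    have e1 : h' ^ 2 = -(X * b) ^ 2 * u ^ 2 := by
      rw [hh']; linear_combination ((X * b * u) ^ 2) * hI
    rw [e1, hu, hz, hη, hξ]
    field_simp
    ring
  refine ⟨q', h', ⟨hVV, hhh, hVq', H.hσ0, hh'0, hX0, ?_, ?_⟩, ?_, ?_, ?_⟩
  · intro i
    have e1 : fE σ h' V q' i / X - algebraMap ℂ _ (ν i) =
        e i + f i + a i * ((1 - u) * u⁻¹) - (η * c i * (b⁻¹ * u⁻¹)) -
          ξ * ξ * (D i * (b⁻¹ * u⁻¹)) := by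
      unfold fE
      have h2a : 2 * a i = νL i + e i + f i := by simp only [ha]; field_simp
      have h3 : algebraMap ℂ _ (ν i) = 2 * a i - e i - f i := by rw [h2a]; simp only [hνL]; ring
      rw [h3, hVa i]
      simp only [hq']
      rw [hqc i, hh', hη, hξ, ← hIdef]
      have := H.hσ0
      have h4 : I * (I * X * b * u) = -(X * b * u) := by linear_combination (X * b * u) * hI
      rw [h4]
      field_simp
      ring
    rw [e1]
    have h1u : 0 < va ((1 - u) * u⁻¹) := by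
      refine P_mul_N ?_ (by rw [hui])
      have : (1 - u) = -(u - 1) := by ring
      rw [this, AddValuation.map_neg]; exact hu1
    have hbu : 0 ≤ va (b⁻¹ * u⁻¹) := N_mul (by rw [hbi]) (by rw [hui])
    exact P_sub (P_sub (P_add (P_add (he' i) (hf' i)) (N_mul_P (haN i) h1u))
      (P_mul_N (P_mul_N hηP (hcN i)) hbu)) (P_mul_N (P_mul_N hξP hξP.le) (N_mul (hDN i) hbu))
  · intro i
    have e1 : fF σ h' V q' i / X =
        (η * c i * (b⁻¹ * u⁻¹)) + ξ * ξ * (D i * (b⁻¹ * u⁻¹)) - a i * ((1 - u) * u⁻¹) := by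
      unfold fF
      rw [hVa i]
      simp only [hq']
      rw [hqc i, hh', hη, hξ, ← hIdef]
      have := H.hσ0
      have h4 : I * (I * X * b * u) = -(X * b * u) := by linear_combination (X * b * u) * hI
      rw [h4]
      field_simp
      ring
    rw [e1]
    have h1u : 0 < va ((1 - u) * u⁻¹) := by
      refine P_mul_N ?_ (by rw [hui])
      have : (1 - u) = -(u - 1) := by ring
      rw [this, AddValuation.map_neg]; exact hu1
    have hbu : 0 ≤ va (b⁻¹ * u⁻¹) := N_mul (by rw [hbi]) (by rw [hui])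
    exact P_sub (P_add (P_mul_N (P_mul_N hηP (hcN i)) hbu)
      (P_mul_N (P_mul_N hξP hξP.le) (N_mul (hDN i) hbu))) (N_mul_P (haN i) h1u)
  · refine ind_shift_prev δ V q q' τ H.hD hVq' ?_ hi
    funext i
    unfold shq
    rw [hqq i]
    change q i + D i - (D ⬝ᵥ V) / (V ⬝ᵥ V) * V i - D i + (D ⬝ᵥ V) / (V ⬝ᵥ V) * V i = q i
    ring
  · funext i
    unfold shq
    rw [hqq i]
    change q i + D i - (D ⬝ᵥ V) / (V ⬝ᵥ V) * V i - D i + (D ⬝ᵥ V) / (V ⬝ᵥ V) * V i = q i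
    ring
  · have hob : od b = 0 := by
      rw [va_eq hb0] at hbv; exact_mod_cast hbv
    have hou : od u = 0 := by
      rw [va_eq hu0] at huv; exact_mod_cast huv
    rw [hh', od_mul (mul_ne_zero (mul_ne_zero hI0 hX0) hb0) hu0,
      od_mul (mul_ne_zero hI0 hX0) hb0, od_mul hI0 hX0, hIdef, od_C Complex.I_ne_zero, hob, hou]
    simp

end

end H450Sp
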