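import Mathlib
import Pool.Agent.H450R2.Sp.Stage

/-! Independent monomials in a Hahn series field; null vectors. -/

set_option autoImplicit false
set_option linter.unusedSectionVars false
set_option maxHeartbeats 1000000

namespace H450Sp

open IntermediateField H450Iv

noncomputable section

/-- value group -/
abbrev GG (m : ℕ) := Lex (Fin m → ℤ)

/-- Hahn series field -/
abbrev LL (m : ℕ) := HahnSeries (GG m) ℂ

/-- exponents -/
def ex {m : ℕ} (j : Fin m) : GG m := toLex (Pi.single j (1 : ℤ))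

/-- monomials -/
def mono {m : ℕ} (j : Fin m) : LL m := HahnSeries.single (ex j) (1 : ℂ)

theorem ex_pos {m : ℕ} (j : Fin m) : 0 < ex j := by
  refine ⟨j, fun i hi => ?_, ?_⟩
  · change (0 : ℤ) = (Pi.single j (1 : ℤ) : Fin m → ℤ) i
    rw [Pi.single_eq_of_ne hi.ne]
  · change (0 : ℤ) < (Pi.single j (1 : ℤ) : Fin m → ℤ) j
    rw [Pi.single_eq_same]; norm_num

theorem mono_ne {m : ℕ} (j : Fin m) : mono j ≠ 0 := by
  unfold mono
  exact HahnSeries.single_ne_zero one_ne_zero

theorem va_mono {m : ℕ} (j : Fin m) : va (mono j) = ((ex j : GG m) : WithTop (GG m)) := by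
  rw [va, HahnSeries.addVal_apply, mono, HahnSeries.orderTop_single one_ne_zero]

theorem od_mono {m : ℕ} (j : Fin m) : od (mono j) = ex j := by
  have h := va_mono j
  rw [va_eq (mono_ne j)] at h
  exact_mod_cast h

theorem va_mono_pos {m : ℕ} (j : Fin m) : 0 < va (mono j) := by
  rw [va_mono]; exact_mod_cast ex_pos j

theorem prod_single {m : ℕ} (s : Finset (Fin m)) (a : Fin m → GG m) :
    ∏ j ∈ s, (HahnSeries.single (a j) (1 : ℂ) : LL m) = HahnSeries.single (∑ j ∈ s, a j) 1 := by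
  classical
  induction s using Finset.induction_on with
  | empty => simp
  | insert b s hb ih =>
    rw [Finset.prod_insert hb, Finset.sum_insert hb, ih, HahnSeries.single_mul_single, one_mul]

theorem mono_prod {m : ℕ} (n : Fin m →₀ ℕ) (c : ℂ) :
    algebraMap ℂ (LL m) c * ∏ j, (mono j) ^ (n j) =
      HahnSeries.single (toLex (fun j => ((n j : ℕ) : ℤ))) c := by
  have h1 : ∀ j, (mono j : LL m) ^ (n j) = HahnSeries.single (n j • ex j) 1 := by
    intro j
    rw [mono, HahnSeries.single_pow, one_pow]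
  rw [Finset.prod_congr rfl (fun j _ => h1 j), prod_single]
  have h2 : (∑ j, n j • ex j : GG m) = toLex (fun j => ((n j : ℕ) : ℤ)) := by
    have h3 : ∀ s : Finset (Fin m), ofLex (∑ j ∈ s, n j • ex j : GG m) =
        ∑ j ∈ s, n j • (Pi.single j (1 : ℤ) : Fin m → ℤ) := by
      intro s
      classical
      induction s using Finset.induction_on with
      | empty => rfl
      | insert b s hb ih => rw [Finset.sum_insert hb, Finset.sum_insert hb, ← ih]; rfl
    apply ofLex.injective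
    rw [h3]
    funext i
    rw [Finset.sum_apply, Finset.sum_eq_single i]
    · simp
    · intro b _ hbi
      simp [Pi.single_eq_of_ne (Ne.symm hbi)]
    · intro h; exact absurd (Finset.mem_univ _) h
  rw [h2]
  have h : algebraMap ℂ (LL m) c = HahnSeries.C c := rfl
  rw [h, HahnSeries.C_apply, HahnSeries.single_mul_single, mul_one, zero_add]

theorem ind_mono (m : ℕ) : AlgebraicIndependent ℂ (mono : Fin m → LL m) := by
  rw [algebraicIndependent_iff]
  intro p hp
  by_contra hne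
  obtain ⟨n, hn⟩ := MvPolynomial.ne_zero_iff.1 hne
  apply hn
  have h1 : (MvPolynomial.aeval (mono : Fin m → LL m) p).coeff
      (toLex (fun j => ((n j : ℕ) : ℤ))) = 0 := by
    rw [hp]; rfl
  rw [← h1, MvPolynomial.aeval_def, MvPolynomial.eval₂_eq', HahnSeries.coeff_sum,
    Finset.sum_eq_single n]
  · rw [mono_prod, HahnSeries.coeff_single_same]
  · intro n' _ hn'
    rw [mono_prod, HahnSeries.coeff_single_of_ne]
    intro h
    apply hn'
    have h2 := toLex.injective h
    ext j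
    have h3 := congrFun h2 j
    have h4 : ((n j : ℕ) : ℤ) = ((n' j : ℕ) : ℤ) := h3
    exact_mod_cast h4.symm
  · intro hn'
    rw [MvPolynomial.notMem_support_iff.1 hn', map_zero, zero_mul]
    rfl

/-- the exponent is not divisible by two -/
theorem ex_odd {m : ℕ} (j : Fin m) (g : GG m) (h : 2 • g = ex j) : False := by
  have h1 : (ofLex (2 • g) : Fin m → ℤ) j = 1 := by
    rw [h]; exact Pi.single_eq_same j 1
  have h2 : (ofLex (2 • g) : Fin m → ℤ) j = (ofLex g : Fin m → ℤ) j + (ofLex g : Fin m → ℤ) j := by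
    rw [two_nsmul]; rfl
  omega

/-- `D (r² - (r+t)²)` is not a square when `D` is -/
theorem nonsq {m : ℕ} (j : Fin m) (r : ℂ) (hr : r ≠ 0) (u D s : LL m) (hs : s ≠ 0)
    (hD : D = s ^ 2)
    (hu : u ^ 2 = D * (algebraMap ℂ (LL m) r ^ 2 - (algebraMap ℂ (LL m) r + mono j) ^ 2)) :
    False := by
  have h1 : (u / s) ^ 2 = -(mono j * (algebraMap ℂ (LL m) (2 * r) + mono j)) := by
    rw [div_pow, hu, hD, map_mul]
    have : algebraMap ℂ (LL m) 2 = 2 := map_ofNat _ 2
    rw [this]
    field_simp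
    ring
  have h2r : (2 * r : ℂ) ≠ 0 := by simp [hr]
  have h3 := (unit_of (Γ := GG m) h2r (va_mono_pos j)).2
  have h5 : 2 • va (u / s) = va (mono j) := by
    rw [← AddValuation.map_pow, h1, AddValuation.map_neg, AddValuation.map_mul, h3, add_zero]
  have hu0 : va (u / s) ≠ ⊤ := by
    intro h
    rw [h, va_mono, two_nsmul, top_add] at h5
    exact WithTop.top_ne_coe h5
  obtain ⟨g, hg⟩ := WithTop.ne_top_iff_exists.1 hu0
  rw [← hg, va_mono] at h5
  have h6 : (2 • g : GG m) = ex j := by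
    exact_mod_cast h5
  exact ex_odd j g h6

section null
variable {M : Type} [Field M] [Algebra ℂ M] {k : ℕ}

/-- null vectors near `(1, i, 0)` -/
def Np (β : Fin k → M) : Fin (k + 2) → M :=
  Fin.cons (1 - β ⬝ᵥ β) (Fin.cons (algebraMap ℂ M Complex.I * (1 + β ⬝ᵥ β)) (fun i => 2 * β i))

/-- null vectors near `(1, -i, 0)` -/
def Nm (β : Fin k → M) : Fin (k + 2) → M :=
  Fin.cons (1 - β ⬝ᵥ β) (Fin.cons (-algebraMap ℂ M Complex.I * (1 + β ⬝ᵥ β)) (fun i => 2 * β i))

theorem dot_cons (a b a' b' : M) (x y : Fin k → M) :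
    (Fin.cons a (Fin.cons b x) : Fin (k + 2) → M) ⬝ᵥ (Fin.cons a' (Fin.cons b' y)) =
      a * a' + b * b' + x ⬝ᵥ y := by
  unfold dotProduct
  rw [Fin.sum_univ_succ, Fin.sum_univ_succ]
  simp only [Fin.cons_zero, Fin.cons_succ]
  ring

theorem dot_two (x y : Fin k → M) : (fun i => 2 * x i) ⬝ᵥ (fun i => 2 * y i) = 4 * (x ⬝ᵥ y) := by
  unfold dotProduct
  rw [Finset.mul_sum]
  apply Finset.sum_congr rfl
  intro i _
  ring

theorem Np_null (β : Fin k → M) : Np β ⬝ᵥ Np β = 0 := by
  have hI := I_sq (M := M)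
  unfold Np
  rw [dot_cons, dot_two]
  linear_combination ((1 + β ⬝ᵥ β) ^ 2) * hI

theorem Nm_null (β : Fin k → M) : Nm β ⬝ᵥ Nm β = 0 := by
  have hI := I_sq (M := M)
  unfold Nm
  rw [dot_cons, dot_two]
  linear_combination ((1 + β ⬝ᵥ β) ^ 2) * hI

theorem Np_Nm (β γ : Fin k → M) :
    Np β ⬝ᵥ Nm γ = 2 + 2 * ((β ⬝ᵥ β) * (γ ⬝ᵥ γ)) + 4 * (β ⬝ᵥ γ) := by
  have hI := I_sq (M := M)
  unfold Np Nm
  rw [dot_cons, dot_two]
  linear_combination (-(1 + β ⬝ᵥ β) * (1 + γ ⬝ᵥ γ)) * hI

end null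

/-- the polynomial expressing that `δ` is orthogonal to the null vector -/
def Pd {k : ℕ} (δ : Fin (k + 2) → ℝ) : MvPolynomial (Fin k) ℂ :=
  MvPolynomial.C (δ 0 : ℂ) * (1 - ∑ i, MvPolynomial.X i ^ 2) +
    MvPolynomial.C (Complex.I * (δ 1 : ℂ)) * (1 + ∑ i, MvPolynomial.X i ^ 2) +
    ∑ i : Fin k, MvPolynomial.C (2 * (δ i.succ.succ : ℂ)) * MvPolynomial.X i

theorem Pd_eval {k : ℕ} (δ : Fin (k + 2) → ℝ) (β : Fin k → ℂ) :
    MvPolynomial.eval β (Pd δ) = ∑ i, (δ i : ℂ) * Np β i := by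
  unfold Pd Np dotProduct
  rw [Fin.sum_univ_succ, Fin.sum_univ_succ]
  simp only [map_add, map_sub, map_mul, map_one, map_sum, map_pow, MvPolynomial.eval_C,
    MvPolynomial.eval_X, Fin.cons_zero, Fin.cons_succ, Algebra.algebraMap_self, RingHom.id_apply]
  have h1 : (Fin.succ (0 : Fin (k + 1))) = 1 := rfl
  rw [h1]
  have h2 : ∑ i : Fin k, β i ^ 2 = ∑ i : Fin k, β i * β i :=
    Finset.sum_congr rfl fun i _ => by ring
  have h3 : ∑ i : Fin k, 2 * (δ i.succ.succ : ℂ) * β i =
      ∑ i : Fin k, (δ i.succ.succ : ℂ) * (2 * β i) := Finset.sum_congr rfl fun i _ => by ring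
  rw [h2, h3]
  ring

theorem Pd_ne {k : ℕ} (δ : Fin (k + 2) → ℝ) (hδ : δ ≠ 0) : Pd δ ≠ 0 := by
  intro h0
  apply hδ
  have hev : ∀ β : Fin k → ℂ, MvPolynomial.eval β (Pd δ) = 0 := by
    intro β; rw [h0, map_zero]
  have h1 := hev 0
  unfold Pd at h1
  simp only [map_add, map_sub, map_mul, map_one, map_sum, map_pow, MvPolynomial.eval_C,
    MvPolynomial.eval_X, Pi.zero_apply] at h1
  simp at h1
  have h00 : δ 0 = 0 := by
    have := congrArg Complex.re h1
    simpa using this
  have h01 : δ 1 = 0 := by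
    have := congrArg Complex.im h1
    simpa using this
  funext i
  refine Fin.cases ?_ (fun i => ?_) i
  · exact h00
  · refine Fin.cases ?_ (fun i => ?_) i
    · exact h01
    · have h2 := hev (Pi.single i 1)
      unfold Pd at h2
      rw [h00, h01] at h2
      simp only [map_add, map_sub, map_mul, map_one, map_sum, map_pow, MvPolynomial.eval_C,
        MvPolynomial.eval_X] at h2
      have h3 : ∑ x : Fin k, 2 * (δ x.succ.succ : ℂ) * (Pi.single i 1 : Fin k → ℂ) x =
          2 * (δ i.succ.succ : ℂ) := by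
        rw [Finset.sum_eq_single i]
        · simp
        · intro j _ hji
          rw [Pi.single_eq_of_ne hji, mul_zero]
        · intro h; exact absurd (Finset.mem_univ _) h
      rw [h3] at h2
      simpa using h2

/-- the shifts of a program -/
def shs {ι : Type} : List (Step ι) → List (ι → ℝ)
  | [] => []
  | Step.hit _ _ _ :: l => shs l
  | Step.shift δ :: l => δ :: shs l

theorem shs_ne {ι : Type} [Fintype ι] (l : List (Step ι)) (hl : WF l) : ∀ δ ∈ shs l, δ ≠ 0 := by
  induction l with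
  | nil => intro δ hδ; simp [shs] at hδ
  | cons s l ih =>
    cases s with
    | hit r n κ => exact ih hl.1
    | shift δ' =>
      intro δ hδ
      rcases List.mem_cons.1 hδ with rfl | hδ
      · exact hl.2.1
      · exact ih hl.1 δ hδ

/-- a null direction not orthogonal to the shifts -/
theorem exists_null {k : ℕ} (S : List (Fin (k + 2) → ℝ)) (hS : ∀ δ ∈ S, δ ≠ 0) :
    ∃ β : Fin k → ℂ, ∀ δ ∈ S, ∑ i, (δ i : ℂ) * Np β i ≠ 0 := by
  have h1 : (S.map Pd).prod ≠ 0 := by
    apply List.prod_ne_zero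
    intro h
    obtain ⟨δ, hδ, h2⟩ := List.mem_map.1 h
    exact Pd_ne δ (hS δ hδ) h2
  have h2 : ∃ β : Fin k → ℂ, MvPolynomial.eval β (S.map Pd).prod ≠ 0 := by
    by_contra hcon
    push Not at hcon
    apply h1
    apply MvPolynomial.funext
    intro β
    rw [hcon β, map_zero]
  obtain ⟨β, hβ⟩ := h2
  refine ⟨β, fun δ hδ h0 => hβ ?_⟩
  rw [map_list_prod]
  apply List.prod_eq_zero
  rw [List.map_map, List.mem_map]
  exact ⟨δ, hδ, by rw [Function.comp_apply, Pd_eval]; exact h0⟩

end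

end H450Sp
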