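import Mathlib
import Pool.Agent.H450R2.Sp.Mono

/-! Special runs and the maximality of the tower. -/

set_option autoImplicit false
set_option linter.unusedSectionVars false
set_option maxHeartbeats 1000000

namespace H450Sp

open IntermediateField H450Iv

noncomputable section

section stages
variable {Γ : Type} [AddCommGroup Γ] [LinearOrder Γ] [IsOrderedAddMonoid Γ]
variable {ι : Type} [Fintype ι]

/-- Stage B -/
theorem stageB (ν : ι → ℂ) (l : List (Step ι)) : WF l →
    (∀ δ ∈ shs l, ∑ i, (δ i : ℂ) * ν i ≠ 0) →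
    ∀ (V q : ι → HahnSeries Γ ℂ) (σ h X τ : HahnSeries Γ ℂ), Fr ν V q σ h X →
    Ind2 V (fun i => q i + τ * V i) → od X ≤ od h → od h < 0 → (headShift l → od X < od h) →
    ∃ (V0 x0 : ι → HahnSeries Γ ℂ) (K : IntermediateField ℂ (HahnSeries Γ ℂ)),
      Ind2 V0 x0 ∧ Run V0 x0 l K V q := by
  induction l with
  | nil =>
    intro _ _ V q σ h X τ H hi _ _ _
    refine ⟨V, fun i => q i + τ * V i, adjoin ℂ (Set.range (Sum.elim V (fun i => q i + τ * V i))),
      hi, ?_⟩
    have := Run.nil (V0 := V) (x0 := fun i => q i + τ * V i)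
    rw [perp_rec V q τ H.hD H.hVq] at this
    exact this
  | cons s l ih =>
    intro hl hν V q σ h X τ H hi hXh hh hs
    cases s with
    | hit r n κ =>
      obtain ⟨hl', hr, hn, hκ, hrt⟩ := hl
      obtain ⟨w, hw, ho⟩ := root_choice r hr h H.hh0 hh
      obtain ⟨V', q', X', w', H', hi', hw', hV, hq, hoX⟩ := H.unhit hi r hr n κ hκ w hw
        (by rw [ho]; exact (neg_pos.2 hh).le)
      have hlt : od X' < od h := by
        rw [hoX, ho]
        have h1 : 0 < (2 * n) • (-od h) := by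
          apply nsmul_pos (neg_pos.2 hh)
          omega
        calc od X - (2 * n) • (-od h) < od X := sub_lt_self _ h1
          _ ≤ od h := hXh
      obtain ⟨V0, x0, K, hi0, hrun⟩ := ih hl' hν V' q' σ h X' τ H' hi' hlt.le hh (fun _ => hlt)
      refine ⟨V0, x0, ext1 K w', hi0, ?_⟩
      have := Run.hit l K V' q' r n κ w' hrun hw'
      rw [hV, hq] at this
      exact this
    | shift δ =>
      obtain ⟨hl', hδ, hns⟩ := hl
      have hlt := hs trivial
      obtain ⟨q', h', H', hi', hq, hoh⟩ := H.unshift hi δ (hν δ (by simp [shs]))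
        (lt_trans hlt hh) hlt
      obtain ⟨V0, x0, K, hi0, hrun⟩ := ih hl' (fun δ' hδ' => hν δ' (by simp [shs, hδ'])) V q' σ h'
        X τ H' hi' (by rw [hoh]) (by rw [hoh]; exact lt_trans hlt hh) (fun hh' => absurd hh' hns)
      refine ⟨V0, x0, K, hi0, ?_⟩
      have := Run.shift l K V q' δ hrun
      rw [hq] at this
      exact this

/-- Stage A -/
theorem stageA (ν : ι → ℂ) (t : HahnSeries Γ ℂ) (ht0 : t ≠ 0) (htp : 0 < od t)
    (r : ℝ) (hr : 0 < r) (l : List (Step ι)) : WF l → r ∉ trail l →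
    (∀ δ ∈ shs l, ∑ i, (δ i : ℂ) * ν i ≠ 0) →
    ∀ (V q : ι → HahnSeries Γ ℂ) (σ X τ : HahnSeries Γ ℂ),
    Fr ν V q σ (algebraMap ℂ _ (r : ℂ) + t) X →
    Ind2 V (fun i => q i + τ * V i) → od X < 0 →
    ∃ (V0 x0 : ι → HahnSeries Γ ℂ) (K : IntermediateField ℂ (HahnSeries Γ ℂ)),
      Ind2 V0 x0 ∧ Run V0 x0 l K V q := by
  have hrc : (r : ℂ) ≠ 0 := by exact_mod_cast hr.ne'
  have hod : od (algebraMap ℂ _ (r : ℂ) + t) = 0 := by
    have := od_add (x := algebraMap ℂ (HahnSeries Γ ℂ) (r : ℂ)) (y := t) ((map_ne_zero _).2 hrc)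
      (Or.inr (by rw [od_C hrc]; exact htp))
    rw [this.2, od_C hrc]
  induction l with
  | nil =>
    intro _ _ _ V q σ X τ H hi _
    refine ⟨V, fun i => q i + τ * V i, adjoin ℂ (Set.range (Sum.elim V (fun i => q i + τ * V i))),
      hi, ?_⟩
    have := Run.nil (V0 := V) (x0 := fun i => q i + τ * V i)
    rw [perp_rec V q τ H.hD H.hVq] at this
    exact this
  | cons s l ih =>
    intro hl hrt hν V q σ X τ H hi hX
    cases s with
    | hit r' n κ =>
      obtain ⟨hl', hr', hn, hκ, hrt'⟩ := hl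
      have hne : r' ≠ r := by
        rintro rfl
        exact hrt (by simp [trail])
      obtain ⟨w, hw, hg⟩ := root_const t ht0 htp r r' hr hr' hne
      obtain ⟨V', q', X', w', H', hi', hw', hV, hq, hoX⟩ := H.unhit hi r' hr' n κ hκ w hw
        (by rw [hg])
      rw [hg, smul_zero, sub_zero] at hoX
      obtain ⟨V0, x0, K, hi0, hrun⟩ := ih hl' (by
        intro hh; exact hrt (by simp [trail, hh])) hν V' q' σ X' τ H' hi' (by rw [hoX]; exact hX)
      refine ⟨V0, x0, ext1 K w', hi0, ?_⟩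
      have := Run.hit l K V' q' r' n κ w' hrun hw'
      rw [hV, hq] at this
      exact this
    | shift δ =>
      obtain ⟨hl', hδ, hns⟩ := hl
      obtain ⟨q', h', H', hi', hq, hoh⟩ := H.unshift hi δ (hν δ (by simp [shs])) hX
        (by rw [hod]; exact hX)
      obtain ⟨V0, x0, K, hi0, hrun⟩ := stageB ν l hl' (fun δ' hδ' => hν δ' (by simp [shs, hδ']))
        V q' σ h' X τ H' hi' (by rw [hoh]) (by rw [hoh]; exact hX) (fun hh' => absurd hh' hns)
      refine ⟨V0, x0, K, hi0, ?_⟩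
      have := Run.shift l K V q' δ hrun
      rw [hq] at this
      exact this

/-- independence via closed subfields -/
theorem ind_of_closed {σ : Type} [Finite σ] {L : Type} [Field L] [Algebra ℂ L] (x y : σ → L)
    (hx : AlgebraicIndependent ℂ x)
    (h : ∀ A : IntermediateField ℂ L, (∀ z, IsAlgebraic A z → z ∈ A) → (∀ j, y j ∈ A) →
      ∀ j, x j ∈ A) : AlgebraicIndependent ℂ y := by
  set F := adjoin ℂ (Set.range y) with hF
  set A : IntermediateField ℂ L := (algebraicClosure F L).restrictScalars ℂ with hAdef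
  have hFA : ∀ x ∈ F, x ∈ A := fun x hx => (algebraicClosure F L).algebraMap_mem ⟨x, hx⟩
  have hcl : ∀ x, IsAlgebraic A x → x ∈ A := by
    intro x hx
    have h1 : IsAlgebraic (algebraicClosure F L) x := hx
    have h2 : IsAlgebraic F x := by
      have : Algebra.IsAlgebraic F (algebraicClosure F L) := algebraicClosure.isAlgebraic F L
      exact h1.restrictScalars F
    exact mem_algebraicClosure_iff.2 h2
  have h1 := h A hcl (fun j => hFA _ (subset_adjoin ℂ _ ⟨j, rfl⟩))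
  exact ind_of_alg _ _ hx fun i => mem_algebraicClosure_iff.1 (h1 i)

end stages

/-- index of the value group -/
abbrev mm (k : ℕ) : ℕ := (k + 2) + (k + 2)

/-- the independent variables -/
def vr {k : ℕ} (j : Fin (k + 2) ⊕ Fin (k + 2)) : LL (mm k) := mono (finSumFinEquiv j)

theorem ind_vr (k : ℕ) : AlgebraicIndependent ℂ (vr : Fin (k + 2) ⊕ Fin (k + 2) → LL (mm k)) :=
  (ind_mono (mm k)).comp _ finSumFinEquiv.injective

theorem vr_ne {k : ℕ} (j : Fin (k + 2) ⊕ Fin (k + 2)) : vr j ≠ 0 := mono_ne _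

theorem vr_pos {k : ℕ} (j : Fin (k + 2) ⊕ Fin (k + 2)) : 0 < va (vr j) := va_mono_pos _

/-- the special end state -/
theorem special_end {k : ℕ} (β0 : Fin k → ℂ) (r : ℝ) (hr : 0 < r) :
    ∃ (V q : Fin (k + 2) → LL (mm k)) (σ X τ : LL (mm k)),
      Fr (Np β0) V q σ (algebraMap ℂ _ (r : ℂ) + vr (Sum.inl 1)) X ∧
      Ind2 V (fun i => q i + τ * V i) ∧ od X < 0 := by
  have hI := I_sq (M := LL (mm k))
  have hI0 := I_ne (M := LL (mm k))
  have h20 := two_ne (M := LL (mm k))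
  set I := algebraMap ℂ (LL (mm k)) Complex.I with hIdef
  set v0 : LL (mm k) := vr (Sum.inl 0) with hv0
  set t : LL (mm k) := vr (Sum.inl 1) with ht
  set σ : LL (mm k) := vr (Sum.inr 0) with hσ
  set τ : LL (mm k) := vr (Sum.inr 1) with hτ
  set β : Fin k → LL (mm k) := fun i => algebraMap ℂ _ (β0 i) + vr (Sum.inl i.succ.succ) with hβ
  set γ : Fin k → LL (mm k) := fun i => vr (Sum.inr i.succ.succ) with hγ
  have hv00 : v0 ≠ 0 := vr_ne _
  have hσ0 : σ ≠ 0 := vr_ne _
  have hrc : (r : ℂ) ≠ 0 := by exact_mod_cast hr.ne'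
  set h : LL (mm k) := algebraMap ℂ _ (r : ℂ) + t with hh
  obtain ⟨hh0, hhv⟩ := unit_of (Γ := GG (mm k)) hrc (vr_pos (k := k) (Sum.inl 1))
  have hh0' : h ≠ 0 := hh0
  set X : LL (mm k) := v0⁻¹ with hX
  have hX0 : X ≠ 0 := inv_ne_zero hv00
  set NN := Np β ⬝ᵥ Nm γ with hNN
  have hγP : ∀ i, 0 < va (γ i) := fun i => vr_pos _
  have hβN : ∀ i, 0 ≤ va (β i) := fun i => N_add (N_C _) (vr_pos _).le
  have hβd : ∀ i, 0 < va (β i - algebraMap ℂ _ (β0 i)) := by
    intro i
    have : β i - algebraMap ℂ _ (β0 i) = vr (Sum.inl i.succ.succ) := by simp only [hβ]; ring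
    rw [this]; exact vr_pos _
  have h4 : 0 ≤ va (4 : LL (mm k)) := by
    have : (4 : LL (mm k)) = algebraMap ℂ _ 4 := (map_ofNat _ 4).symm
    rw [this]; exact N_C _
  have hbb : 0 ≤ va (β ⬝ᵥ β) := N_sum fun i _ => N_mul (hβN i) (hβN i)
  have hcc : 0 < va (γ ⬝ᵥ γ) := P_sum fun i _ => P_mul_N (hγP i) (hγP i).le
  have hbc : 0 < va (β ⬝ᵥ γ) := P_sum fun i _ => N_mul_P (hβN i) (hγP i)
  have hNNe : NN = algebraMap ℂ _ 2 + (2 * ((β ⬝ᵥ β) * (γ ⬝ᵥ γ)) + 4 * (β ⬝ᵥ γ)) := by
    rw [hNN, Np_Nm, map_ofNat]; ring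
  obtain ⟨hNN0, hNNv⟩ := unit_of (Γ := GG (mm k)) (c := 2) two_ne_zero
    (e := 2 * ((β ⬝ᵥ β) * (γ ⬝ᵥ γ)) + 4 * (β ⬝ᵥ γ))
    (P_add (N_mul_P N_2 (N_mul_P hbb hcc)) (N_mul_P h4 hbc))
  rw [← hNNe] at hNN0 hNNv
  set Y : LL (mm k) := 2 * (X * NN)⁻¹ with hY
  have hY0 : Y ≠ 0 := mul_ne_zero h20 (inv_ne_zero (mul_ne_zero hX0 hNN0))
  set E : Fin (k + 2) → LL (mm k) := fun i => X * Np β i with hE
  set F : Fin (k + 2) → LL (mm k) := fun i => Y * Nm γ i with hF
  have dsm : ∀ (a b : LL (mm k)) (x y : Fin (k + 2) → LL (mm k)),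
      (fun i => a * x i) ⬝ᵥ (fun i => b * y i) = a * b * (x ⬝ᵥ y) := by
    intro a b x y
    unfold dotProduct
    rw [Finset.mul_sum]
    exact Finset.sum_congr rfl fun i _ => by ring
  have hEE : E ⬝ᵥ E = 0 := by rw [hE, dsm, Np_null, mul_zero]
  have hFF : F ⬝ᵥ F = 0 := by rw [hF, dsm, Nm_null, mul_zero]
  have hEF : E ⬝ᵥ F = 2 := by
    rw [hE, hF, dsm, ← hNN, hY]
    field_simp
  set V : Fin (k + 2) → LL (mm k) := fun i => σ / 2 * (1 * E i + 1 * F i) with hV
  set q : Fin (k + 2) → LL (mm k) := fun i => I * h / 2 * (1 * E i + (-1) * F i) with hq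
  have hFE : F ⬝ᵥ E = 2 := by rw [dotProduct_comm]; exact hEF
  have h2i : (2 : LL (mm k)) * 2⁻¹ = 1 := mul_inv_cancel₀ h20
  have hVV : V ⬝ᵥ V = σ ^ 2 := by
    rw [hV, dot_lin2, hEE, hFF, hEF, hFE, div_eq_mul_inv]
    linear_combination (σ ^ 2 * (2 * 2⁻¹ + 1)) * h2i
  have hqq : q ⬝ᵥ q = h ^ 2 := by
    rw [hq, dot_lin2, hEE, hFF, hEF, hFE, div_eq_mul_inv]
    linear_combination (h ^ 2 * (2 * 2⁻¹ + 1)) * h2i - (h ^ 2 * (2 * 2⁻¹) ^ 2) * hI
  have hVq : V ⬝ᵥ q = 0 := by
    have : V ⬝ᵥ q = σ / 2 * (I * h / 2) * (E ⬝ᵥ E - E ⬝ᵥ F + F ⬝ᵥ E - F ⬝ᵥ F) := by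
      unfold dotProduct
      simp only [← Finset.sum_add_distrib, ← Finset.sum_sub_distrib, Finset.mul_sum]
      apply Finset.sum_congr rfl
      intro i _
      simp only [hV, hq]; ring
    rw [this, hEE, hFF, hEF, hFE]; ring
  have hfE : ∀ i, fE σ h V q i = E i := by
    intro i
    unfold fE
    simp only [hV, hq]
    rw [← hIdef]
    field_simp; ring
  have hfF : ∀ i, fF σ h V q i = F i := by
    intro i
    unfold fF
    simp only [hV, hq]
    rw [← hIdef]
    field_simp; ring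
  have hbd : 0 < va (β ⬝ᵥ β - algebraMap ℂ _ (β0 ⬝ᵥ β0)) := by
    have : β ⬝ᵥ β - algebraMap ℂ _ (β0 ⬝ᵥ β0) =
        ∑ i, (β i - algebraMap ℂ _ (β0 i)) * (β i + algebraMap ℂ _ (β0 i)) := by
      unfold dotProduct
      rw [map_sum, ← Finset.sum_sub_distrib]
      apply Finset.sum_congr rfl
      intro i _
      rw [map_mul]; ring
    rw [this]
    exact P_sum fun i _ => P_mul_N (hβd i) (N_add (hβN i) (N_C _))
  have hXo : od X < 0 := by
    rw [hX, od_inv hv00]
    have := vr_pos (k := k) (Sum.inl 0)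
    rw [va_eq hv00] at this
    rw [neg_lt_zero]
    exact_mod_cast this
  have hXi : 0 < va X⁻¹ := by rw [hX, inv_inv]; exact vr_pos _
  refine ⟨V, q, σ, X, τ, ⟨hVV.symm, hqq.symm, hVq, hσ0, hh0, hX0, ?_, ?_⟩, ?_, hXo⟩
  · intro i
    rw [hfE i]
    have e1 : E i / X = Np β i := by simp only [hE]; field_simp
    rw [e1]
    refine Fin.cases ?_ (fun i => ?_) i
    · have : Np β 0 - algebraMap ℂ (LL (mm k)) (Np β0 0) =
          -(β ⬝ᵥ β - algebraMap ℂ _ (β0 ⬝ᵥ β0)) := by
        simp only [Np, Fin.cons_zero, map_sub, map_one]; ring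
      rw [this, AddValuation.map_neg]; exact hbd
    · refine Fin.cases ?_ (fun i => ?_) i
      · have : Np β (Fin.succ 0) - algebraMap ℂ (LL (mm k)) (Np β0 (Fin.succ 0)) =
            I * (β ⬝ᵥ β - algebraMap ℂ _ (β0 ⬝ᵥ β0)) := by
          simp only [Np, Fin.cons_succ, Fin.cons_zero, map_add, map_one, map_mul,
            Algebra.algebraMap_self, RingHom.id_apply]
          rw [← hIdef]; ring
        rw [this]; exact N_mul_P (N_C _) hbd
      · have : Np β (Fin.succ (Fin.succ i)) - algebraMap ℂ (LL (mm k))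
            (Np β0 (Fin.succ (Fin.succ i))) = 2 * (β i - algebraMap ℂ _ (β0 i)) := by
          simp only [Np, Fin.cons_succ, map_mul, map_ofNat]; ring
        rw [this]; exact N_mul_P N_2 (hβd i)
  · intro i
    rw [hfF i]
    have e1 : F i / X = 2 * (X⁻¹ * X⁻¹) * (NN⁻¹ * Nm γ i) := by
      simp only [hF, hY]; field_simp
    rw [e1]
    refine P_mul_N (N_mul_P N_2 (P_mul_N hXi hXi.le)) (N_mul ?_ ?_)
    · rw [va_inv_zero hNN0 hNNv]
    · refine Fin.cases ?_ (fun i => ?_) i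
      · simp only [Nm, Fin.cons_zero]; exact N_sub N_one hcc.le
      · refine Fin.cases ?_ (fun i => ?_) i
        · simp only [Nm, Fin.cons_succ, Fin.cons_zero]
          refine N_mul ?_ (N_add N_one hcc.le)
          rw [AddValuation.map_neg]; exact N_C _
        · simp only [Nm, Fin.cons_succ]; exact N_mul N_2 (hγP i).le
  · unfold Ind2
    refine ind_of_closed _ _ (ind_vr k) ?_
    intro A hcl hA
    have hVA : ∀ i, V i ∈ A := fun i => hA (Sum.inl i)
    have hxA : ∀ i, q i + τ * V i ∈ A := fun i => hA (Sum.inr i)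
    have hsq : ∀ x : LL (mm k), x ^ 2 ∈ A → x ∈ A := fun x hx => hcl x (isAlg_of_sq hx rfl)
    have hσA : σ ∈ A := by
      apply hsq; rw [← hVV]; exact dot_mem A V V hVA hVA
    have hτA : τ ∈ A := by
      have h1 : (fun i => q i + τ * V i) ⬝ᵥ V = τ * σ ^ 2 := by
        have h2 : (fun i => q i + τ * V i) ⬝ᵥ V = V ⬝ᵥ q + τ * (V ⬝ᵥ V) := by
          unfold dotProduct
          rw [Finset.mul_sum, ← Finset.sum_add_distrib]
          apply Finset.sum_congr rfl
          intro i _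
          ring
        rw [h2, hVq, hVV, zero_add]
      have h2 : τ = ((fun i => q i + τ * V i) ⬝ᵥ V) / σ ^ 2 := by
        rw [h1]; field_simp
      rw [h2]
      exact div_mem (dot_mem A _ V hxA hVA) (pow_mem hσA 2)
    have hqA : ∀ i, q i ∈ A := by
      intro i
      have : q i = (q i + τ * V i) - τ * V i := by ring
      rw [this]; exact sub_mem (hxA i) (mul_mem hτA (hVA i))
    have hhA : h ∈ A := by
      apply hsq; rw [← hqq]; exact dot_mem A q q hqA hqA
    have hcA : ∀ c : ℂ, algebraMap ℂ (LL (mm k)) c ∈ A := fun c =>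
      IntermediateField.algebraMap_mem _ _
    have htA : t ∈ A := by
      have : t = h - algebraMap ℂ _ (r : ℂ) := by rw [hh]; ring
      rw [this]; exact sub_mem hhA (hcA _)
    have h2A : (2 : LL (mm k)) ∈ A := by
      have : (2 : LL (mm k)) = algebraMap ℂ _ 2 := (map_ofNat _ 2).symm
      rw [this]; exact hcA _
    have hEA : ∀ i, E i ∈ A := by
      intro i
      rw [← hfE i]
      exact add_mem (div_mem (hVA i) hσA) (div_mem (hqA i) (mul_mem (hcA _) hhA))
    have hFA : ∀ i, F i ∈ A := by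
      intro i
      rw [← hfF i]
      exact sub_mem (div_mem (hVA i) hσA) (div_mem (hqA i) (mul_mem (hcA _) hhA))
    have hXA : X ∈ A := by
      have : X = (E 0 - I * E (Fin.succ 0)) / 2 := by
        simp only [hE, Np, Fin.cons_zero, Fin.cons_succ]
        field_simp
        linear_combination (1 + β ⬝ᵥ β) * hI
      rw [this]
      exact div_mem (sub_mem (hEA _) (mul_mem (hcA _) (hEA _))) h2A
    have hYA : Y ∈ A := by
      have : Y = (F 0 + I * F (Fin.succ 0)) / 2 := by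
        simp only [hF, Nm, Fin.cons_zero, Fin.cons_succ]
        rw [← hIdef]
        field_simp
        linear_combination (1 + γ ⬝ᵥ γ) * hI
      rw [this]
      exact div_mem (add_mem (hFA _) (mul_mem (hcA _) (hFA _))) h2A
    intro j
    rcases j with i | i
    · refine Fin.cases ?_ (fun i => ?_) i
      · change v0 ∈ A
        have : v0 = X⁻¹ := by rw [hX, inv_inv]
        rw [this]; exact inv_mem hXA
      · refine Fin.cases ?_ (fun i => ?_) i
        · exact htA
        · have : vr (Sum.inl i.succ.succ) = E i.succ.succ / (2 * X) -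
              algebraMap ℂ (LL (mm k)) (β0 i) := by
            simp only [hE, Np, Fin.cons_succ, hβ]
            field_simp; ring
          rw [this]
          exact sub_mem (div_mem (hEA _) (mul_mem h2A hXA)) (hcA _)
    · refine Fin.cases ?_ (fun i => ?_) i
      · exact hσA
      · refine Fin.cases ?_ (fun i => ?_) i
        · exact hτA
        · have : vr (Sum.inr i.succ.succ) = F i.succ.succ / (2 * Y) := by
            simp only [hF, Nm, Fin.cons_succ, hγ]
            field_simp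
          rw [this]
          exact div_mem (hFA _) (mul_mem h2A hYA)

/-- the special runs -/
theorem special {k : ℕ} (r : ℝ) (hr : 0 < r) (l : List (Step (Fin (k + 2)))) (hl : WF l)
    (hrt : r ∉ trail l) :
    ∃ (V0 x0 V q : Fin (k + 2) → LL (mm k)) (σ : LL (mm k))
      (K : IntermediateField ℂ (LL (mm k))), Ind2 V0 x0 ∧
      Run V0 x0 l K V q ∧ σ ≠ 0 ∧ V ⬝ᵥ V = σ ^ 2 ∧
      q ⬝ᵥ q = (algebraMap ℂ (LL (mm k)) (r : ℂ) + vr (Sum.inl 1)) ^ 2 := by
  obtain ⟨β0, hβ0⟩ := exists_null (shs l) (shs_ne l hl)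
  obtain ⟨V, q, σ, X, τ, H, hi, hX⟩ := special_end β0 r hr
  have ht0 : (vr (Sum.inl 1) : LL (mm k)) ≠ 0 := vr_ne _
  have htp : 0 < od (vr (Sum.inl 1) : LL (mm k)) := by
    have := vr_pos (k := k) (Sum.inl 1)
    rw [va_eq ht0] at this
    exact_mod_cast this
  obtain ⟨V0, x0, K, hi0, hrun⟩ := stageA (Np β0) _ ht0 htp r hr l hl hrt hβ0 V q σ X τ H hi hX
  exact ⟨V0, x0, V, q, σ, K, hi0, hrun, H.hσ0, H.hσ.symm, H.hh.symm⟩

end

end H450Sp
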