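import Mathlib
import Pool.Agent.H450R2.Sp.Tower

/-! Any two runs of a program are conjugate; the tower is maximal; consequences. -/

set_option autoImplicit false
set_option linter.unusedSectionVars false
set_option maxHeartbeats 1000000

namespace H450Sp

open IntermediateField H450Iv

noncomputable section

/-- base homomorphism -/
theorem base_hom2 {σ M L : Type} [Field M] [Algebra ℂ M] [Field L] [Algebra ℂ L]
    (x : σ → M) (h : AlgebraicIndependent ℂ x) (x' : σ → L) (h' : AlgebraicIndependent ℂ x') :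
    ∃ ψ : (adjoin ℂ (Set.range x)) →ₐ[ℂ] L,
      ∀ j (hj : x j ∈ adjoin ℂ (Set.range x)), ψ ⟨x j, hj⟩ = x' j := by
  let e1 := AlgebraicIndependent.aevalEquivField h
  let e2 := AlgebraicIndependent.aevalEquivField h'
  let ψ : (adjoin ℂ (Set.range x)) →ₐ[ℂ] L :=
    (adjoin ℂ (Set.range x')).val.comp (e2.toAlgHom.comp e1.symm.toAlgHom)
  refine ⟨ψ, fun j hj => ?_⟩
  have h1 : e1 (algebraMap (MvPolynomial σ ℂ) (FractionRing (MvPolynomial σ ℂ))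
      (MvPolynomial.X j)) = ⟨x j, hj⟩ := by
    apply Subtype.ext
    refine (AlgebraicIndependent.aevalEquivField_algebraMap_apply_coe h _).trans ?_
    exact MvPolynomial.aeval_X _ _
  have h2 : e1.symm ⟨x j, hj⟩ = algebraMap (MvPolynomial σ ℂ)
      (FractionRing (MvPolynomial σ ℂ)) (MvPolynomial.X j) := by
    rw [← h1, AlgEquiv.symm_apply_apply]
  change ((e2 (e1.symm ⟨x j, hj⟩) : adjoin ℂ (Set.range x')) : L) = _
  rw [h2]
  refine (AlgebraicIndependent.aevalEquivField_algebraMap_apply_coe h' _).trans ?_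
  exact MvPolynomial.aeval_X _ _

theorem w_notin {k : ℕ} {M : Type} [Field M] [Algebra ℂ M] (r : ℝ) (hr : 0 < r)
    (K : IntermediateField ℂ M) (V q : Fin (k + 2) → M) (hV : ∀ i, V i ∈ K) (hq : ∀ i, q i ∈ K)
    (V' q' : Fin (k + 2) → LL (mm k)) (σ : LL (mm k)) (hσ0 : σ ≠ 0) (hVV : V' ⬝ᵥ V' = σ ^ 2)
    (hqq : q' ⬝ᵥ q' = (algebraMap ℂ (LL (mm k)) (r : ℂ) + vr (Sum.inl 1)) ^ 2)
    (ψ : K →ₐ[ℂ] LL (mm k)) (hψV : ∀ i, ψ ⟨V i, hV i⟩ = V' i) (hψq : ∀ i, ψ ⟨q i, hq i⟩ = q' i)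
    (w : M) (hw : w ^ 2 = (V ⬝ᵥ V) * (algebraMap ℂ M ((r : ℂ) ^ 2) - q ⬝ᵥ q)) : w ∉ K := by
  intro hwK
  have hrc : (r : ℂ) ≠ 0 := by exact_mod_cast hr.ne'
  set VK : Fin (k + 2) → K := fun i => ⟨V i, hV i⟩ with hVK
  set qK : Fin (k + 2) → K := fun i => ⟨q i, hq i⟩ with hqK
  have hVc : ((VK ⬝ᵥ VK : K) : M) = V ⬝ᵥ V := dot_map K.val VK VK
  have hqc : ((qK ⬝ᵥ qK : K) : M) = q ⬝ᵥ q := dot_map K.val qK qK
  have e1 : (⟨w, hwK⟩ : K) ^ 2 = (VK ⬝ᵥ VK) * (algebraMap ℂ K ((r : ℂ) ^ 2) - qK ⬝ᵥ qK) := by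
    apply Subtype.ext
    rw [MulMemClass.coe_mul, AddSubgroupClass.coe_sub, hVc, hqc]
    exact hw
  have e2 := congrArg ψ e1
  rw [map_pow ψ, map_mul, map_sub, AlgHom.commutes, dot_map, dot_map] at e2
  have e3 : (fun i => ψ (VK i)) = V' := funext hψV
  have e4 : (fun i => ψ (qK i)) = q' := funext hψq
  rw [e3, e4, hqq, map_pow] at e2
  exact nonsq (finSumFinEquiv (Sum.inl 1)) (r : ℂ) hrc _ _ σ hσ0 hVV e2

/-- any two runs of the same program are conjugate -/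
theorem transfer {k : ℕ} (l : List (Step (Fin (k + 2)))) : WF l →
    ∀ {M : Type} [Field M] [Algebra ℂ M] {L : Type} [Field L] [Algebra ℂ L]
    (V0 x0 : Fin (k + 2) → M) (K : IntermediateField ℂ M) (V q : Fin (k + 2) → M)
    (_ : Ind2 V0 x0) (hrun : Run V0 x0 l K V q)
    (V0' x0' : Fin (k + 2) → L) (K' : IntermediateField ℂ L) (V' q' : Fin (k + 2) → L)
    (_ : Ind2 V0' x0') (_ : Run V0' x0' l K' V' q'),
    ∃ ψ : K →ₐ[ℂ] L, (∀ i, ψ ⟨V i, (run_mem hrun).1 i⟩ = V' i) ∧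
      (∀ i, ψ ⟨q i, (run_mem hrun).2 i⟩ = q' i) := by
  induction l with
  | nil =>
    intro _ M _ _ L _ _ V0 x0 K V q h0 hrun V0' x0' K' V' q' h0' hrun'
    have hrun2 := hrun
    cases hrun
    cases hrun'
    obtain ⟨ψ, hψ⟩ := base_hom2 (Sum.elim V0 x0) h0 (Sum.elim V0' x0') h0'
    have hV : ∀ i, V0 i ∈ adjoin ℂ (Set.range (Sum.elim V0 x0)) := fun i =>
      subset_adjoin ℂ _ ⟨Sum.inl i, rfl⟩
    have hx : ∀ i, x0 i ∈ adjoin ℂ (Set.range (Sum.elim V0 x0)) := fun i =>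
      subset_adjoin ℂ _ ⟨Sum.inr i, rfl⟩
    refine ⟨ψ, fun i => hψ (Sum.inl i) (hV i), fun i => ?_⟩
    have e1 : (⟨perp V0 x0 i, (run_mem hrun2).2 i⟩ : adjoin ℂ (Set.range (Sum.elim V0 x0))) =
        perp (fun i => ⟨V0 i, hV i⟩) (fun i => ⟨x0 i, hx i⟩) i := by
      apply Subtype.ext
      exact (perp_map (adjoin ℂ (Set.range (Sum.elim V0 x0))).val
        (fun i => ⟨V0 i, hV i⟩) (fun i => ⟨x0 i, hx i⟩) i).symm
    rw [e1, perp_map]
    congr 1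
    · funext j; exact hψ (Sum.inl j) (hV j)
    · funext j; exact hψ (Sum.inr j) (hx j)
  | cons s l ih =>
    intro hl M _ _ L _ _ V0 x0 K V q h0 hrun V0' x0' K' V' q' h0' hrun'
    cases s with
    | hit r n κ =>
      obtain ⟨hl', hr, hn, hκ, hrt⟩ := hl
      have hrun2 := hrun
      cases hrun with
      | hit _ K1 V1 q1 _ _ _ w hr1 hw =>
      cases hrun' with
      | hit _ K1' V1' q1' _ _ _ w' hr1' hw' =>
      obtain ⟨ψ1, hV1, hq1⟩ := ih hl' V0 x0 K1 V1 q1 h0 hr1 V0' x0' K1' V1' q1' h0' hr1'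
      have hm := run_mem hr1
      have hwK : w ∉ K1 := by
        obtain ⟨Y0, y0, Y, y, σ, Ks, hi, hrs, hσ0, hYY, hyy⟩ := special (k := k) r hr l hl' hrt
        obtain ⟨ψ0, hψV, hψq⟩ := ih hl' V0 x0 K1 V1 q1 h0 hr1 Y0 y0 Ks Y y hi hrs
        exact w_notin r hr K1 V1 q1 hm.1 hm.2 Y y σ hσ0 hYY hyy ψ0 hψV hψq w hw
      have hf : (V1 ⬝ᵥ V1) * (algebraMap ℂ M ((r : ℂ) ^ 2) - q1 ⬝ᵥ q1) ∈ K1 :=
        mul_mem (dot_mem K1 _ _ hm.1 hm.1)
          (sub_mem (IntermediateField.algebraMap_mem _ _) (dot_mem K1 _ _ hm.2 hm.2))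
      set VK : Fin (k + 2) → K1 := fun i => ⟨V1 i, hm.1 i⟩ with hVK
      set qK : Fin (k + 2) → K1 := fun i => ⟨q1 i, hm.2 i⟩ with hqK
      have hVc : ((VK ⬝ᵥ VK : K1) : M) = V1 ⬝ᵥ V1 := dot_map K1.val VK VK
      have hqc : ((qK ⬝ᵥ qK : K1) : M) = q1 ⬝ᵥ q1 := dot_map K1.val qK qK
      obtain ⟨ψ2, hψ2, hψw⟩ := extend_hom K1 ψ1 w _ hf hw hwK w' (by
        rw [hw']
        have e1 : (⟨(V1 ⬝ᵥ V1) * (algebraMap ℂ M ((r : ℂ) ^ 2) - q1 ⬝ᵥ q1), hf⟩ : K1) =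
            (VK ⬝ᵥ VK) * (algebraMap ℂ K1 ((r : ℂ) ^ 2) - qK ⬝ᵥ qK) := by
          apply Subtype.ext
          rw [MulMemClass.coe_mul, AddSubgroupClass.coe_sub, hVc, hqc]
          rfl
        rw [e1, map_mul, map_sub, AlgHom.commutes, dot_map, dot_map]
        have e3 : (fun i => ψ1 (VK i)) = V1' := funext hV1
        have e4 : (fun i => ψ1 (qK i)) = q1' := funext hq1
        rw [e3, e4])
      have e5 : (fun i => ψ2 (⟨V1 i, le_ext1 K1 w (hm.1 i)⟩ : ext1 K1 w)) = V1' := by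
        funext j; rw [hψ2 _ (hm.1 j)]; exact hV1 j
      have e6 : (fun i => ψ2 (⟨q1 i, le_ext1 K1 w (hm.2 i)⟩ : ext1 K1 w)) = q1' := by
        funext j; rw [hψ2 _ (hm.2 j)]; exact hq1 j
      refine ⟨ψ2, fun i => ?_, fun i => ?_⟩
      · have e1 : (⟨hitV r n κ w V1 q1 i, (run_mem hrun2).1 i⟩ : ext1 K1 w) =
            hitV r n κ (⟨w, mem_ext1 K1 w⟩ : ext1 K1 w) (fun i => ⟨V1 i, le_ext1 K1 w (hm.1 i)⟩)
              (fun i => ⟨q1 i, le_ext1 K1 w (hm.2 i)⟩) i := by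
          apply Subtype.ext
          exact (hitV_map (ext1 K1 w).val r n κ ⟨w, mem_ext1 K1 w⟩
            (fun i => ⟨V1 i, le_ext1 K1 w (hm.1 i)⟩)
            (fun i => ⟨q1 i, le_ext1 K1 w (hm.2 i)⟩) i).symm
        rw [e1, hitV_map, hψw, e5, e6]
      · have e1 : (⟨hitq r n κ w V1 q1 i, (run_mem hrun2).2 i⟩ : ext1 K1 w) =
            hitq r n κ (⟨w, mem_ext1 K1 w⟩ : ext1 K1 w) (fun i => ⟨V1 i, le_ext1 K1 w (hm.1 i)⟩)
              (fun i => ⟨q1 i, le_ext1 K1 w (hm.2 i)⟩) i := by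
          apply Subtype.ext
          exact (hitq_map (ext1 K1 w).val r n κ ⟨w, mem_ext1 K1 w⟩
            (fun i => ⟨V1 i, le_ext1 K1 w (hm.1 i)⟩)
            (fun i => ⟨q1 i, le_ext1 K1 w (hm.2 i)⟩) i).symm
        rw [e1, hitq_map, hψw, e5, e6]
    | shift δ =>
      obtain ⟨hl', hδ, hns⟩ := hl
      have hrun2 := hrun
      cases hrun with
      | shift _ _ _ q1 _ hr1 =>
      cases hrun' with
      | shift _ _ _ q1' _ hr1' =>
      obtain ⟨ψ1, hV1, hq1⟩ := ih hl' V0 x0 K V q1 h0 hr1 V0' x0' K' V' q1' h0' hr1'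
      have hm := run_mem hr1
      refine ⟨ψ1, hV1, fun i => ?_⟩
      have e1 : (⟨shq δ V q1 i, (run_mem hrun2).2 i⟩ : K) =
          shq δ (fun i => ⟨V i, hm.1 i⟩) (fun i => ⟨q1 i, hm.2 i⟩) i := by
        apply Subtype.ext
        exact (shq_map K.val δ (fun i => ⟨V i, hm.1 i⟩) (fun i => ⟨q1 i, hm.2 i⟩) i).symm
      rw [e1, shq_map]
      have e3 : (fun i => ψ1 (⟨V i, hm.1 i⟩ : K)) = V' := funext hV1
      have e4 : (fun i => ψ1 (⟨q1 i, hm.2 i⟩ : K)) = q1' := funext hq1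
      rw [e3, e4]

section final
variable {k : ℕ} {M : Type} [Field M] [Algebra ℂ M]

theorem w_not_mem2 (l : List (Step (Fin (k + 2)))) (hl : WF l)
    (V0 x0 : Fin (k + 2) → M) (h0 : Ind2 V0 x0) (K : IntermediateField ℂ M)
    (V q : Fin (k + 2) → M) (hrun : Run V0 x0 l K V q) (r : ℝ) (hr : 0 < r) (hrt : r ∉ trail l)
    (w : M) (hw : w ^ 2 = (V ⬝ᵥ V) * (algebraMap ℂ M ((r : ℂ) ^ 2) - q ⬝ᵥ q)) : w ∉ K := by
  obtain ⟨Y0, y0, Y, y, σ, Ks, hi, hrs, hσ0, hYY, hyy⟩ := special (k := k) r hr l hl hrt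
  obtain ⟨ψ0, hψV, hψq⟩ := transfer l hl V0 x0 K V q h0 hrun Y0 y0 Ks Y y hi hrs
  have hm := run_mem hrun
  exact w_notin r hr K V q hm.1 hm.2 Y y σ hσ0 hYY hyy ψ0 hψV hψq w hw

theorem exists_radius (l : List ℝ) : ∃ r : ℝ, 0 < r ∧ r ∉ l := by
  obtain ⟨N, hN⟩ : ∃ N : ℝ, ∀ x ∈ l, x ≤ N := by
    induction l with
    | nil => exact ⟨0, by simp⟩
    | cons a l ih =>
      obtain ⟨N, hN⟩ := ih
      refine ⟨max a N, fun x hx => ?_⟩
      rcases List.mem_cons.1 hx with rfl | hx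
      · exact le_max_left _ _
      · exact (hN x hx).trans (le_max_right _ _)
  refine ⟨max N 0 + 1, by positivity, fun h => ?_⟩
  have := hN _ h
  have h2 := le_max_left N 0
  linarith

/-- `q · q` is transcendental -/
theorem H_transc (l : List (Step (Fin (k + 2)))) (hl : WF l)
    (V0 x0 : Fin (k + 2) → M) (h0 : Ind2 V0 x0) (K : IntermediateField ℂ M)
    (V q : Fin (k + 2) → M) (hrun : Run V0 x0 l K V q) : ¬ IsAlgebraic ℂ (q ⬝ᵥ q) := by
  obtain ⟨r, hr, hrt⟩ := exists_radius (trail l)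
  obtain ⟨Y0, y0, Y, y, σ, Ks, hi, hrs, hσ0, hYY, hyy⟩ := special (k := k) r hr l hl hrt
  obtain ⟨ψ0, hψV, hψq⟩ := transfer l hl V0 x0 K V q h0 hrun Y0 y0 Ks Y y hi hrs
  have hm := run_mem hrun
  intro halg
  set qK : Fin (k + 2) → K := fun i => ⟨q i, hm.2 i⟩ with hqK
  have hqc : ((qK ⬝ᵥ qK : K) : M) = q ⬝ᵥ q := dot_map K.val qK qK
  have h1 : IsAlgebraic ℂ (qK ⬝ᵥ qK) := by
    rw [← hqc] at halg
    exact (isAlgebraic_algebraMap_iff (R := ℂ) (A := M) (FaithfulSMul.algebraMap_injective K M)).1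
      halg
  have h2 : IsAlgebraic ℂ (ψ0 (qK ⬝ᵥ qK)) := h1.algHom ψ0
  rw [dot_map] at h2
  have e4 : (fun i => ψ0 (qK i)) = y := funext hψq
  rw [e4, hyy] at h2
  have h3 : IsAlgebraic ℂ (algebraMap ℂ (LL (mm k)) (r : ℂ) + vr (Sum.inl 1)) :=
    IsAlgebraic.of_pow (by norm_num : 0 < 2) h2
  have h4 : IsAlgebraic ℂ (vr (Sum.inl 1) : LL (mm k)) := by
    have := h3.sub (isAlgebraic_algebraMap (r : ℂ))
    rwa [add_sub_cancel_left] at this
  exact (ind_vr k).transcendental (Sum.inl 1) h4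

theorem root_unity_alg2 (g : M) (n : ℕ) (hn : n ≠ 0) (h : g ^ n = 1) : IsAlgebraic ℂ g := by
  refine ⟨Polynomial.X ^ n - Polynomial.C 1, Polynomial.X_pow_sub_C_ne_zero (by omega) _, ?_⟩
  simp [h]

/-- the velocity after the last hit is not defined over the previous field -/
theorem hit_not_mem2 (l : List (Step (Fin (k + 2)))) (r : ℝ) (n : ℕ) (κ : ℂ)
    (hl : WF (Step.hit r n κ :: l))
    (V0 x0 : Fin (k + 2) → M) (h0 : Ind2 V0 x0) (K : IntermediateField ℂ M)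
    (V q : Fin (k + 2) → M) (hrun : Run V0 x0 l K V q) (σ h : M) (hσ : σ ^ 2 = V ⬝ᵥ V)
    (hh : h ^ 2 = q ⬝ᵥ q) (w : M)
    (hw : w ^ 2 = (V ⬝ᵥ V) * (algebraMap ℂ M ((r : ℂ) ^ 2) - q ⬝ᵥ q)) :
    ¬ ∀ i, hitV r n κ w V q i ∈ K := by
  obtain ⟨hl', hr, hn, hκ, hrt⟩ := hl
  intro hmem
  have hwK := w_not_mem2 l hl' V0 x0 h0 K V q hrun r hr hrt w hw
  have hHt := H_transc l hl' V0 x0 h0 K V q hrun
  have hm := run_mem hrun
  have hD := (run_inv hrun hl' h0).1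
  have h20 := two_ne (M := M)
  have hκ0 : algebraMap ℂ M κ ≠ 0 := by
    refine (map_ne_zero _).2 ?_
    rintro rfl; norm_num at hκ
  have hf : (V ⬝ᵥ V) * (algebraMap ℂ M ((r : ℂ) ^ 2) - q ⬝ᵥ q) ∈ K :=
    mul_mem (dot_mem K _ _ hm.1 hm.1)
      (sub_mem (IntermediateField.algebraMap_mem _ _) (dot_mem K _ _ hm.2 hm.2))
  obtain ⟨ψ2, hψ2, hψw⟩ := extend_hom K K.val w _ hf hw hwK (-w) (by
    rw [neg_sq, hw]; rfl)
  have hV2 : (fun i => ψ2 (⟨V i, le_ext1 K w (hm.1 i)⟩ : ext1 K w)) = V := by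
    funext j; rw [hψ2 _ (hm.1 j)]; rfl
  have hq2 : (fun i => ψ2 (⟨q i, le_ext1 K w (hm.2 i)⟩ : ext1 K w)) = q := by
    funext j; rw [hψ2 _ (hm.2 j)]; rfl
  have key : ∀ i, hitV r n κ w V q i = hitV r n κ (-w) V q i := by
    intro i
    have h1 : ψ2 ⟨hitV r n κ w V q i, le_ext1 K w (hmem i)⟩ = hitV r n κ w V q i := by
      rw [hψ2 _ (hmem i)]; rfl
    have e1 : (⟨hitV r n κ w V q i, le_ext1 K w (hmem i)⟩ : ext1 K w) =
        hitV r n κ (⟨w, mem_ext1 K w⟩ : ext1 K w) (fun i => ⟨V i, le_ext1 K w (hm.1 i)⟩)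
          (fun i => ⟨q i, le_ext1 K w (hm.2 i)⟩) i := by
      apply Subtype.ext
      exact (hitV_map (ext1 K w).val r n κ ⟨w, mem_ext1 K w⟩
        (fun i => ⟨V i, le_ext1 K w (hm.1 i)⟩)
        (fun i => ⟨q i, le_ext1 K w (hm.2 i)⟩) i).symm
    rw [e1, hitV_map, hψw, hV2, hq2] at h1
    exact h1.symm
  have hneg : (pp r n (-w) V q).1 = (pp r n w V q).1 ∧
      (pp r n (-w) V q).2 = -(pp r n w V q).2 := by
    unfold pp
    have : cb r (-w) = -cb r w := by unfold cb; ring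
    rw [this]
    exact pr_neg _ _ _ n
  have hBq : ∀ i, (pp r n w V q).2 * q i = 0 := by
    intro i
    have h1 := key i
    unfold hitV at h1
    rw [hneg.1, hneg.2] at h1
    have h2 := mul_left_cancel₀ hκ0 h1
    have h3 : 2 * ((pp r n w V q).2 * q i) = 0 := by linear_combination h2
    rcases mul_eq_zero.1 h3 with h4 | h4
    · exact absurd h4 h20
    · exact h4
  have hB : (pp r n w V q).2 = 0 := by
    by_contra hB
    apply hHt
    have : q ⬝ᵥ q = 0 := by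
      unfold dotProduct
      apply Finset.sum_eq_zero
      intro i _
      have := hBq i
      rcases mul_eq_zero.1 this with h | h
      · exact absurd h hB
      · rw [h, mul_zero]
    rw [this]; exact isAlgebraic_zero
  have hσ0 : σ ≠ 0 := by
    rintro rfl
    apply hD; rw [← hσ]; norm_num
  obtain ⟨e1, e2⟩ := pp_eig r hr n w σ h V q hσ hh hσ0 hw
  rw [hB, mul_zero, add_zero] at e1
  rw [hB, mul_zero, sub_zero] at e2
  have hw2 := gsq r hr w σ h V q hσ hh hσ0 hw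
  have hgn := gg_ne r hr _ _ hw2
  have h5 : (gg r (w / σ) h) ^ (4 * n) = 1 := by
    have e3 : 4 * n = 2 * n + 2 * n := by ring
    rw [e3, pow_add]
    nth_rewrite 1 [← e1]
    rw [e2, ← mul_pow, inv_mul_cancel₀ hgn, one_pow]
  have h6 := root_unity_alg2 (gg r (w / σ) h) (4 * n) (by omega) h5
  have hgm := gg_mul r hr _ _ hw2
  have h7 : h = (gg r (w / σ) h - (gg r (w / σ) h)⁻¹) *
      algebraMap ℂ M ((r : ℂ) / (2 * Complex.I)) := by
    have e1 : (gg r (w / σ) h)⁻¹ = (w / σ - algebraMap ℂ M Complex.I * h) *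
        algebraMap ℂ M ((r : ℂ)⁻¹) := inv_eq_of_mul_eq_one_right hgm
    have hrc : (r : ℂ) ≠ 0 := by exact_mod_cast hr.ne'
    have hI0 := Complex.I_ne_zero
    have e2 : gg r (w / σ) h - (gg r (w / σ) h)⁻¹ =
        h * algebraMap ℂ M (2 * Complex.I * (r : ℂ)⁻¹) := by
      rw [e1, map_mul, map_mul, map_ofNat]
      unfold gg
      ring
    rw [e2, mul_assoc, ← map_mul]
    have e3 : 2 * Complex.I * (r : ℂ)⁻¹ * ((r : ℂ) / (2 * Complex.I)) = 1 := by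
      field_simp
    rw [e3, map_one, mul_one]
  apply hHt
  rw [← hh]
  apply IsAlgebraic.pow
  rw [h7]
  exact (h6.sub h6.inv).mul (isAlgebraic_algebraMap _)

theorem base_le2 {V0 x0 : Fin (k + 2) → M} {l : List (Step (Fin (k + 2)))}
    {K : IntermediateField ℂ M} {V q : Fin (k + 2) → M}
    (h : Run V0 x0 l K V q) : adjoin ℂ (Set.range (Sum.elim V0 x0)) ≤ K := by
  induction h with
  | nil => exact le_rfl
  | hit l K V q r n κ w h hw ih => exact le_trans ih (le_ext1 K w)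
  | shift l K V q δ h ih => exact ih

end final

end

end H450Sp
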