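import Mathlib
import Pool.Agent.H450R2.Iv.Comb
import Pool.Agent.H450R2.Sp.Final

/-! Flushing a block of concentric hits. -/

set_option autoImplicit false
set_option linter.unusedSectionVars false
set_option maxHeartbeats 1000000

namespace H450Sp

open IntermediateField

noncomputable section

section
variable {k : ℕ} {M : Type} [Field M] [Algebra ℂ M]

theorem frame_eq (σ h : M) (hσ0 : σ ≠ 0) (hh0 : h ≠ 0) (V q V' q' : Fin (k + 2) → M)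
    (hE : ∀ i, fE σ h V q i = fE σ h V' q' i) (hF : ∀ i, fF σ h V q i = fF σ h V' q' i) :
    V = V' ∧ q = q' := by
  constructor
  · funext i
    rw [(frame_V σ h V q hσ0 i).resolve_right two_ne,
      (frame_V σ h V' q' hσ0 i).resolve_right two_ne, hE, hF]
  · funext i
    rw [frame_q σ h V q hh0 i, frame_q σ h V' q' hh0 i, hE, hF]

/-- a hit with an integer exponent -/
theorem hit_exp (a : ℝ) (ha : 0 < a) (e : ℤ) (he : e ≠ 0) (W σ h : M) (V q : Fin (k + 2) → M)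
    (κ : ℂ) (hσ : σ ^ 2 = V ⬝ᵥ V) (hh : h ^ 2 = q ⬝ᵥ q) (hσ0 : σ ≠ 0) (hh0 : h ≠ 0)
    (hW : W ^ 2 = algebraMap ℂ M ((a : ℂ) ^ 2) - h ^ 2) :
    ∃ (n : ℕ) (w : M), n ≠ 0 ∧
      w ^ 2 = (V ⬝ᵥ V) * (algebraMap ℂ M ((a : ℂ) ^ 2) - q ⬝ᵥ q) ∧
      (∀ i, fE σ h (hitV a n κ w V q) (hitq a n κ w V q) i =
        algebraMap ℂ M κ * (H450Iv.gg a W h) ^ (2 * e) * fE σ h V q i) ∧
      (∀ i, fF σ h (hitV a n κ w V q) (hitq a n κ w V q) i =
        algebraMap ℂ M κ * ((H450Iv.gg a W h) ^ (2 * e))⁻¹ * fF σ h V q i) := by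
  have hgn := H450Iv.gg_ne a ha W h hW
  obtain ⟨n, rfl | rfl⟩ := e.eq_nat_or_neg
  · refine ⟨n, σ * W, by intro h0; apply he; rw [h0]; rfl, ?_, ?_, ?_⟩
    · rw [mul_pow, hW, hσ, hh]
    · intro i
      have hw : (σ * W) ^ 2 = (V ⬝ᵥ V) * (algebraMap ℂ M ((a : ℂ) ^ 2) - q ⬝ᵥ q) := by
        rw [mul_pow, hW, hσ, hh]
      have := (hit_frame a ha n κ (σ * W) σ h V q hσ hh hσ0 hh0 hw i).1
      rw [this, mul_div_cancel_left₀ _ hσ0]
      congr 2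
      rw [← zpow_natCast]
      push_cast; rfl
    · intro i
      have hw : (σ * W) ^ 2 = (V ⬝ᵥ V) * (algebraMap ℂ M ((a : ℂ) ^ 2) - q ⬝ᵥ q) := by
        rw [mul_pow, hW, hσ, hh]
      have := (hit_frame a ha n κ (σ * W) σ h V q hσ hh hσ0 hh0 hw i).2
      rw [this, mul_div_cancel_left₀ _ hσ0, inv_pow]
      congr 3
      rw [← zpow_natCast]
      push_cast; rfl
  · have hneg := gg_neg a ha W h hW
    have hev : Even (2 * n) := even_two_mul n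
    have hw : (σ * (-W)) ^ 2 = (V ⬝ᵥ V) * (algebraMap ℂ M ((a : ℂ) ^ 2) - q ⬝ᵥ q) := by
      rw [mul_pow, neg_sq, hW, hσ, hh]
    refine ⟨n, σ * (-W), by intro h0; apply he; rw [h0]; rfl, hw, ?_, ?_⟩
    · intro i
      have := (hit_frame a ha n κ (σ * (-W)) σ h V q hσ hh hσ0 hh0 hw i).1
      rw [this, mul_div_cancel_left₀ _ hσ0, hneg, hev.neg_pow, inv_pow]
      congr 2
      rw [mul_neg, zpow_neg]
      congr 1
      rw [← zpow_natCast]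
      push_cast; rfl
    · intro i
      have := (hit_frame a ha n κ (σ * (-W)) σ h V q hσ hh hσ0 hh0 hw i).2
      rw [this, mul_div_cancel_left₀ _ hσ0, hneg, inv_neg, inv_inv, hev.neg_pow]
      congr 2
      rw [mul_neg, zpow_neg, inv_inv, ← zpow_natCast]
      push_cast; rfl

/-- adding the hits of a block -/
theorem add_hits2 (V0 x0 : Fin (k + 2) → M) (h0 : Ind2 V0 x0) (l : List (Step (Fin (k + 2))))
    (hl : WF l) (htr : trail l = [])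
    (K : IntermediateField ℂ M) (Vb qb : Fin (k + 2) → M) (hrun : Run V0 x0 l K Vb qb)
    (σ h : M) (hσ : σ ^ 2 = Vb ⬝ᵥ Vb) (hh : h ^ 2 = qb ⬝ᵥ qb) (hσ0 : σ ≠ 0) (hh0 : h ≠ 0)
    (W : ℝ → M) (e : ℝ → ℤ) (F : Finset ℝ)
    (hF : ∀ r ∈ F, 0 < r ∧ (W r) ^ 2 = algebraMap ℂ M ((r : ℂ) ^ 2) - h ^ 2) :
    ∃ (l1 : List (Step (Fin (k + 2)))) (K1 : IntermediateField ℂ M) (V1 q1 : Fin (k + 2) → M),
      WF l1 ∧ (∀ r ∈ trail l1, r ∈ F) ∧ Run V0 x0 l1 K1 V1 q1 ∧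
      σ ^ 2 = V1 ⬝ᵥ V1 ∧ h ^ 2 = q1 ⬝ᵥ q1 ∧
      (∀ i, fE σ h V1 q1 i = (∏ r ∈ F, (H450Iv.gg r (W r) h) ^ (2 * e r)) * fE σ h Vb qb i) ∧
      (∀ i, fF σ h V1 q1 i = (∏ r ∈ F, (H450Iv.gg r (W r) h) ^ (2 * e r))⁻¹ * fF σ h Vb qb i) := by
  classical
  induction F using Finset.induction_on with
  | empty =>
    refine ⟨l, K, Vb, qb, hl, ?_, hrun, hσ, hh, ?_, ?_⟩
    · rw [htr]; simp
    · intro i; simp
    · intro i; simp
  | insert a F haF ih =>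
    obtain ⟨l1, K1, V1, q1, hl1, htr1, hr1, hσ1, hh1, hE1, hF1⟩ :=
      ih (fun r hr => hF r (Finset.mem_insert_of_mem hr))
    by_cases hea : e a = 0
    · refine ⟨l1, K1, V1, q1, hl1, fun r hr => Finset.mem_insert_of_mem (htr1 r hr), hr1, hσ1, hh1,
        ?_, ?_⟩
      · intro i; rw [Finset.prod_insert haF, hea, hE1 i]; simp
      · intro i; rw [Finset.prod_insert haF, hea, hF1 i]; simp
    · have ha := hF a (Finset.mem_insert_self _ _)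
      obtain ⟨n, w, hn, hw, hEw, hFw⟩ := hit_exp a ha.1 (e a) hea (W a) σ h V1 q1 1 hσ1 hh1 hσ0 hh0
        ha.2
      have hinv := run_inv hr1 hl1 h0
      have hin := hit_inv a ha.1 n 1 (one_pow 2) w V1 q1 hinv.1 hinv.2 hw
      refine ⟨Step.hit a n 1 :: l1, H450Iv.ext1 K1 w, _, _,
        ⟨hl1, ha.1, hn, one_pow 2, fun h => haF (htr1 a h)⟩, ?_,
        Run.hit l1 K1 V1 q1 a n 1 w hr1 hw, by rw [hin.1]; exact hσ1, by rw [hin.2.2]; exact hh1,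
        ?_, ?_⟩
      · intro r hr
        rcases List.mem_cons.1 hr with rfl | hr
        · exact Finset.mem_insert_self _ _
        · exact Finset.mem_insert_of_mem (htr1 r hr)
      · intro i
        rw [hEw i, hE1 i, map_one, one_mul, Finset.prod_insert haF]
        ring
      · intro i
        rw [hFw i, hF1 i, map_one, one_mul, Finset.prod_insert haF, mul_inv]
        ring

/-- flushing a block -/
theorem flush2 (V0 x0 : Fin (k + 2) → M) (h0 : Ind2 V0 x0) (l : List (Step (Fin (k + 2))))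
    (hl : WF l) (htr : trail l = [])
    (K : IntermediateField ℂ M) (Vb qb : Fin (k + 2) → M) (hrun : Run V0 x0 l K Vb qb)
    (σ h : M) (hσ : σ ^ 2 = Vb ⬝ᵥ Vb) (hh : h ^ 2 = qb ⬝ᵥ qb) (hσ0 : σ ≠ 0) (hh0 : h ≠ 0)
    (W : ℝ → M) (B : List (ℝ × ℤ)) (hB : B ≠ []) (hch : H450Iv.Ch B)
    (hs : ∀ b ∈ B, 0 < b.1 ∧ (b.2 = 1 ∨ b.2 = -1))
    (hW : ∀ b ∈ B, (W b.1) ^ 2 = algebraMap ℂ M ((b.1 : ℂ) ^ 2) - h ^ 2)
    (κ : ℂ) (hκ : κ ^ 2 = 1) :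
    ∃ (r : ℝ) (n : ℕ) (l3 : List (Step (Fin (k + 2)))) (K3 : IntermediateField ℂ M)
      (V3 q3 : Fin (k + 2) → M) (w : M),
      WF (Step.hit r n κ :: l3) ∧ Run V0 x0 l3 K3 V3 q3 ∧
      σ ^ 2 = V3 ⬝ᵥ V3 ∧ h ^ 2 = q3 ⬝ᵥ q3 ∧
      w ^ 2 = (V3 ⬝ᵥ V3) * (algebraMap ℂ M ((r : ℂ) ^ 2) - q3 ⬝ᵥ q3) ∧
      (∀ i, fE σ h (hitV r n κ w V3 q3) (hitq r n κ w V3 q3) i = algebraMap ℂ M κ *
        (B.map (fun b => (H450Iv.gg b.1 (W b.1) h) ^ (2 * b.2))).prod * fE σ h Vb qb i) ∧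
      (∀ i, fF σ h (hitV r n κ w V3 q3) (hitq r n κ w V3 q3) i = algebraMap ℂ M κ *
        ((B.map (fun b => (H450Iv.gg b.1 (W b.1) h) ^ (2 * b.2))).prod)⁻¹ * fF σ h Vb qb i) := by
  classical
  obtain ⟨b, hb, hnet⟩ := H450Iv.exists_net B hB hch (fun b hb => (hs b hb).2)
  set F := (B.map Prod.fst).toFinset with hF
  have hFm : ∀ b ∈ B, b.1 ∈ F := by
    intro b hb
    rw [hF, List.mem_toFinset]
    exact List.mem_map_of_mem hb
  have hFW : ∀ r ∈ F, 0 < r ∧ (W r) ^ 2 = algebraMap ℂ M ((r : ℂ) ^ 2) - h ^ 2 := by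
    intro r hr
    rw [hF, List.mem_toFinset, List.mem_map] at hr
    obtain ⟨b, hb, rfl⟩ := hr
    exact ⟨(hs b hb).1, hW b hb⟩
  have hgrp := H450Iv.prod_group (fun r => H450Iv.gg r (W r) h) B F hFm
    (fun r hr => H450Iv.gg_ne r (hFW r hr).1 _ _ (hFW r hr).2)
  obtain ⟨l1, K1, V1, q1, hl1, htr1, hr1, hσ1, hh1, hE1, hF1⟩ := add_hits2 V0 x0 h0 l hl htr K Vb qb
    hrun σ h hσ hh hσ0 hh0 W (H450Iv.net B) (F.erase b.1)
    (fun r hr => hFW r (Finset.mem_of_mem_erase hr))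
  obtain ⟨n, w, hn, hw, hEw, hFw⟩ := hit_exp b.1 (hs b hb).1 (H450Iv.net B b.1) hnet (W b.1) σ h V1
    q1 κ hσ1 hh1 hσ0 hh0 (hW b hb)
  refine ⟨b.1, n, l1, K1, V1, q1, w, ⟨hl1, (hs b hb).1, hn, hκ, ?_⟩, hr1, hσ1, hh1, hw, ?_, ?_⟩
  · intro h
    exact (Finset.notMem_erase b.1 F) (htr1 _ h)
  · intro i
    rw [hEw i, hE1 i, hgrp, ← Finset.mul_prod_erase F _ (hFm b hb)]
    ring
  · intro i
    rw [hFw i, hF1 i, hgrp, ← Finset.mul_prod_erase F _ (hFm b hb), mul_inv]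
    ring

end

end

end H450Sp
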