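import Mathlib
import Pool.Agent.H450R2.Sp.Flush

/-! The field of germs along an ultrafilter on an arbitrary set; real germs. -/

set_option autoImplicit false
set_option linter.unusedSectionVars false

namespace H450Sp

open Filter

variable {Q : Type}

/-- germs of complex functions along an ultrafilter -/
def GM (U : Ultrafilter Q) : Type := (U : Filter Q).Germ ℂ

noncomputable section

instance (U : Ultrafilter Q) : Field (GM U) := inferInstanceAs (Field ((U : Filter Q).Germ ℂ))

/-- germ of a function -/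
def mk (U : Ultrafilter Q) : (Q → ℂ) →+* GM U := Germ.coeRingHom (U : Filter Q)

instance (U : Ultrafilter Q) : Algebra ℂ (GM U) :=
  ((mk U).comp (Pi.constRingHom Q ℂ)).toAlgebra

variable {U : Ultrafilter Q}

theorem algMap_eq (c : ℂ) : algebraMap ℂ (GM U) c = mk U (fun _ => c) := rfl

theorem mk_eq {f g : Q → ℂ} : mk U f = mk U g ↔ ∀ᶠ q in (U : Filter Q), f q = g q :=
  Germ.coe_eq

theorem mk_inv (f : Q → ℂ) : mk U (fun q => (f q)⁻¹) = (mk U f)⁻¹ := rfl

theorem mk_mul (f g : Q → ℂ) : mk U (fun q => f q * g q) = mk U f * mk U g := rfl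

theorem mk_add (f g : Q → ℂ) : mk U (fun q => f q + g q) = mk U f + mk U g := rfl

theorem mk_sub (f g : Q → ℂ) : mk U (fun q => f q - g q) = mk U f - mk U g := rfl

theorem aeval_mk {σ : Type} (f : σ → Q → ℂ) (P : MvPolynomial σ ℂ) :
    MvPolynomial.aeval (fun j => mk U (f j)) P =
      mk U (fun q => MvPolynomial.eval (fun j => f j q) P) := by
  induction P using MvPolynomial.induction_on with
  | C a => simp only [MvPolynomial.algHom_C, MvPolynomial.eval_C]; rfl
  | add f g hf hg =>
    rw [map_add, hf, hg]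
    simp only [map_add]
    rw [mk_add]
  | mul_X f i hf =>
    rw [map_mul, hf, MvPolynomial.aeval_X]
    simp only [map_mul, MvPolynomial.eval_X]
    rw [mk_mul]

theorem ind_mk {σ : Type} (f : σ → Q → ℂ)
    (h : ∀ P : MvPolynomial σ ℂ, P ≠ 0 →
      ∀ᶠ q in (U : Filter Q), MvPolynomial.eval (fun j => f j q) P ≠ 0) :
    AlgebraicIndependent ℂ (fun j => mk U (f j)) := by
  rw [algebraicIndependent_iff]
  intro P hP
  by_contra hne
  rw [aeval_mk] at hP
  have h0 : mk U (fun q => MvPolynomial.eval (fun j => f j q) P) = mk U (fun _ => 0) := by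
    rw [hP]; exact (map_zero (mk U)).symm
  rw [mk_eq] at h0
  obtain ⟨q, hq1, hq2⟩ := ((h P hne).and h0).exists
  exact hq1 hq2

/-- germ of a real function -/
def rk (U : Ultrafilter Q) (f : Q → ℝ) : GM U := mk U (fun q => (f q : ℂ))

theorem rk_eq {f g : Q → ℝ} : rk U f = rk U g ↔ ∀ᶠ q in (U : Filter Q), f q = g q := by
  unfold rk
  rw [mk_eq]
  simp only [Complex.ofReal_inj]

theorem rk_add (f g : Q → ℝ) : rk U (fun q => f q + g q) = rk U f + rk U g := by
  unfold rk; rw [← mk_add]; simp only [Complex.ofReal_add]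

theorem rk_sub (f g : Q → ℝ) : rk U (fun q => f q - g q) = rk U f - rk U g := by
  unfold rk; rw [← mk_sub]; simp only [Complex.ofReal_sub]

theorem rk_mul (f g : Q → ℝ) : rk U (fun q => f q * g q) = rk U f * rk U g := by
  unfold rk; rw [← mk_mul]; simp only [Complex.ofReal_mul]

theorem rk_inv (f : Q → ℝ) : rk U (fun q => (f q)⁻¹) = (rk U f)⁻¹ := by
  unfold rk; rw [← mk_inv]; simp only [Complex.ofReal_inv]

theorem rk_div (f g : Q → ℝ) : rk U (fun q => f q / g q) = rk U f / rk U g := by
  simp only [div_eq_mul_inv]; rw [rk_mul, rk_inv]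

theorem rk_neg (f : Q → ℝ) : rk U (fun q => - f q) = - rk U f := by
  have : (fun q => - f q) = fun q => (fun _ => 0) q - f q := by funext q; ring
  rw [this, rk_sub]
  have h0 : rk U (fun _ => (0 : ℝ)) = 0 := by
    unfold rk; simp only [Complex.ofReal_zero]; exact map_zero (mk U)
  rw [h0, zero_sub]

theorem rk_const (c : ℝ) : rk U (fun _ => c) = algebraMap ℂ (GM U) (c : ℂ) := rfl

theorem rk_sq (f : Q → ℝ) : (rk U f) ^ 2 = rk U (fun q => f q ^ 2) := by
  rw [pow_two, ← rk_mul]; simp only [pow_two]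

theorem rk_sum {ι : Type} (s : Finset ι) (f : ι → Q → ℝ) :
    rk U (fun q => ∑ i ∈ s, f i q) = ∑ i ∈ s, rk U (f i) := by
  classical
  induction s using Finset.induction_on with
  | empty =>
    simp only [Finset.sum_empty]
    unfold rk; simp only [Complex.ofReal_zero]; exact map_zero (mk U)
  | insert a s ha ih =>
    simp only [Finset.sum_insert ha]
    rw [rk_add, ih]

/-- vector germ -/
def vk {ι : Type} (U : Ultrafilter Q) (x : Q → ι → ℝ) : ι → GM U := fun i => rk U (fun q => x q i)

theorem vk_dot {ι : Type} [Fintype ι] (x y : Q → ι → ℝ) :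
    vk U x ⬝ᵥ vk U y = rk U (fun q => x q ⬝ᵥ y q) := by
  unfold dotProduct vk
  rw [rk_sum]
  exact Finset.sum_congr rfl fun i _ => (rk_mul _ _).symm

theorem cv_eq {ι : Type} (δ : ι → ℝ) : (cv δ : ι → GM U) = vk U (fun _ => δ) := rfl

end

end H450Sp
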