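import Mathlib
import Pool.Agent.H450R2.Sp.Germ

/-! Pointwise geometry of sphere reflections. -/

set_option autoImplicit false
set_option linter.unusedSectionVars false
set_option maxHeartbeats 1000000

namespace H450Sp

noncomputable section

variable {ι : Type} [Fintype ι]

/-- difference -/
def df (x c : ι → ℝ) : ι → ℝ := fun i => x i - c i

/-- moving along a line -/
def mv (x : ι → ℝ) (t : ℝ) (v : ι → ℝ) : ι → ℝ := fun i => x i + t * v i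

/-- perpendicular part of `x - c` -/
def mom (c x v : ι → ℝ) : ι → ℝ := fun i => df x c i - (df x c ⬝ᵥ v) / (v ⬝ᵥ v) * v i

/-- reflection of the velocity at the point `y` of the sphere `(c, R)` -/
def srefl (c : ι → ℝ) (R : ℝ) (y v : ι → ℝ) : ι → ℝ :=
  fun i => v i - 2 * (df y c ⬝ᵥ v) / R ^ 2 * df y c i

theorem dot_sub_smul (x y z : ι → ℝ) (a : ℝ) :
    (fun i => x i - a * y i) ⬝ᵥ z = x ⬝ᵥ z - a * (y ⬝ᵥ z) := by
  unfold dotProduct
  rw [Finset.mul_sum, ← Finset.sum_sub_distrib]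
  exact Finset.sum_congr rfl fun i _ => by ring

theorem dot_sub_smul' (x y z : ι → ℝ) (a : ℝ) :
    z ⬝ᵥ (fun i => x i - a * y i) = z ⬝ᵥ x - a * (z ⬝ᵥ y) := by
  unfold dotProduct
  rw [Finset.mul_sum, ← Finset.sum_sub_distrib]
  exact Finset.sum_congr rfl fun i _ => by ring

theorem df_mv (x c v : ι → ℝ) (t : ℝ) : df (mv x t v) c = fun i => df x c i - (-t) * v i := by
  funext i; unfold df mv; ring

theorem df_mv_dot (x c v : ι → ℝ) (t : ℝ) :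
    df (mv x t v) c ⬝ᵥ v = df x c ⬝ᵥ v + t * (v ⬝ᵥ v) := by
  rw [df_mv, dot_sub_smul]; ring

theorem mom_mv (c x v : ι → ℝ) (t : ℝ) (hv : 0 < v ⬝ᵥ v) : mom c (mv x t v) v = mom c x v := by
  funext i
  unfold mom
  rw [df_mv_dot]
  have : df (mv x t v) c i = df x c i + t * v i := by unfold df mv; ring
  rw [this]
  field_simp
  ring

theorem mom_dot (c x v : ι → ℝ) (hv : 0 < v ⬝ᵥ v) : mom c x v ⬝ᵥ v = 0 := by
  unfold mom
  rw [dot_sub_smul]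
  field_simp
  ring

/-- Pythagoras -/
theorem mom_sq (c x v : ι → ℝ) (hv : 0 < v ⬝ᵥ v) :
    mom c x v ⬝ᵥ mom c x v = df x c ⬝ᵥ df x c - (df x c ⬝ᵥ v) ^ 2 / (v ⬝ᵥ v) := by
  have h1 : mom c x v ⬝ᵥ mom c x v = mom c x v ⬝ᵥ df x c := by
    conv_lhs => rw [show mom c x v = fun i => df x c i - (df x c ⬝ᵥ v) / (v ⬝ᵥ v) * v i from rfl]
    rw [dot_sub_smul']
    have := mom_dot c x v hv
    unfold mom at this
    rw [this, mul_zero, sub_zero]
    rfl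
  rw [h1]
  unfold mom
  rw [dot_sub_smul, dotProduct_comm v (df x c)]
  ring

theorem srefl_speed (c : ι → ℝ) (R : ℝ) (hR : 0 < R) (y v : ι → ℝ)
    (hy : df y c ⬝ᵥ df y c = R ^ 2) : srefl c R y v ⬝ᵥ srefl c R y v = v ⬝ᵥ v := by
  unfold srefl
  rw [dot_sub_smul, dot_sub_smul', dot_sub_smul', hy, dotProduct_comm v (df y c)]
  field_simp
  ring

theorem srefl_dot (c : ι → ℝ) (R : ℝ) (hR : 0 < R) (y v : ι → ℝ)
    (hy : df y c ⬝ᵥ df y c = R ^ 2) : df y c ⬝ᵥ srefl c R y v = -(df y c ⬝ᵥ v) := by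
  unfold srefl
  rw [dot_sub_smul', hy]
  field_simp
  ring

/-- formula for the new velocity -/
theorem srefl_formula (c : ι → ℝ) (R : ℝ) (hR : 0 < R) (y v : ι → ℝ) (hv : 0 < v ⬝ᵥ v)
    (hy : df y c ⬝ᵥ df y c = R ^ 2) (i : ι) :
    srefl c R y v i = -((1 - 2 * (mom c y v ⬝ᵥ mom c y v) * (R ^ 2)⁻¹) * v i +
      2 * (df y c ⬝ᵥ v) * (R ^ 2)⁻¹ * mom c y v i) := by
  rw [mom_sq c y v hv, hy]
  unfold srefl mom
  field_simp
  ring

/-- formula for the new moment -/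
theorem smom_formula (c : ι → ℝ) (R : ℝ) (hR : 0 < R) (y v : ι → ℝ) (hv : 0 < v ⬝ᵥ v)
    (hy : df y c ⬝ᵥ df y c = R ^ 2) (i : ι) :
    mom c y (srefl c R y v) i =
      -((1 - 2 * (mom c y v ⬝ᵥ mom c y v) * (R ^ 2)⁻¹) * mom c y v i -
        (mom c y v ⬝ᵥ mom c y v) / (v ⬝ᵥ v) * (2 * (df y c ⬝ᵥ v) * (R ^ 2)⁻¹) * v i) := by
  have e1 : mom c y (srefl c R y v) i = df y c i + (df y c ⬝ᵥ v) / (v ⬝ᵥ v) *
      (v i - 2 * (df y c ⬝ᵥ v) / R ^ 2 * df y c i) := by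
    conv_lhs => unfold mom
    rw [srefl_dot c R hR y v hy, srefl_speed c R hR y v hy]
    unfold srefl
    ring
  rw [e1, mom_sq c y v hv, hy]
  unfold mom
  field_simp
  ring

/-- `a² = D (R² - H)` -/
theorem hit_sq (c : ι → ℝ) (R : ℝ) (y v : ι → ℝ) (hv : 0 < v ⬝ᵥ v)
    (hy : df y c ⬝ᵥ df y c = R ^ 2) :
    (df y c ⬝ᵥ v) ^ 2 = (v ⬝ᵥ v) * (R ^ 2 - mom c y v ⬝ᵥ mom c y v) := by
  rw [mom_sq c y v hv, hy]
  field_simp
  ring

theorem mom_srefl_sq (c : ι → ℝ) (R : ℝ) (hR : 0 < R) (y v : ι → ℝ) (hv : 0 < v ⬝ᵥ v)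
    (hy : df y c ⬝ᵥ df y c = R ^ 2) :
    mom c y (srefl c R y v) ⬝ᵥ mom c y (srefl c R y v) = mom c y v ⬝ᵥ mom c y v := by
  have hv' : 0 < srefl c R y v ⬝ᵥ srefl c R y v := by rw [srefl_speed c R hR y v hy]; exact hv
  rw [mom_sq c y _ hv', mom_sq c y v hv, srefl_dot c R hR y v hy, srefl_speed c R hR y v hy]
  ring

/-- transition rule -/
theorem trans_rule (c : ι → ℝ) (x v : ι → ℝ) (hv : 0 < v ⬝ᵥ v) (R R' : ℝ) (hR : 0 < R)
    (hR' : 0 < R') (s s' : ℤ) (hs : s = 1 ∨ s = -1) (hs' : s' = 1 ∨ s' = -1)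
    (hx : df x c ⬝ᵥ df x c = R ^ 2)
    (hxs : (s : ℝ) * (df x c ⬝ᵥ v) < 0) (t : ℝ) (ht : 0 < t)
    (hy : df (mv x t v) c ⬝ᵥ df (mv x t v) c = R' ^ 2)
    (hys : 0 < (s' : ℝ) * (df (mv x t v) c ⬝ᵥ v)) :
    H450Iv.Tr (R', s') (R, s) := by
  have h1 : df (mv x t v) c ⬝ᵥ df (mv x t v) c =
      df x c ⬝ᵥ df x c + 2 * t * (df x c ⬝ᵥ v) + t ^ 2 * (v ⬝ᵥ v) := by
    rw [df_mv, dot_sub_smul, dot_sub_smul', dot_sub_smul', dotProduct_comm v (df x c)]; ring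
  rw [hy, hx] at h1
  rw [df_mv_dot] at hys
  set a := df x c ⬝ᵥ v with ha
  set D := v ⬝ᵥ v with hD
  have htD : 0 < t * D := mul_pos ht hv
  unfold H450Iv.Tr
  constructor
  · intro hs1
    simp only at hs1
    rw [hs1] at hxs
    have ha0 : 0 < a := by push_cast at hxs; linarith
    have hs'1 : s' = 1 := by
      rcases hs' with h | h
      · exact h
      · rw [h] at hys; push_cast at hys; nlinarith
    refine ⟨hs'1, ?_⟩
    simp only
    have : R ^ 2 < R' ^ 2 := by nlinarith [mul_pos ht ha0, mul_pos ht htD]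
    nlinarith
  · intro hs1
    simp only at hs1
    rw [hs1] at hys
    have ha0 : a + t * D < 0 := by push_cast at hys; linarith
    have hs'1 : s = 1 := by
      rcases hs with h | h
      · exact h
      · rw [h] at hxs; push_cast at hxs; nlinarith
    refine ⟨hs'1, ?_⟩
    simp only
    have : R' ^ 2 < R ^ 2 := by nlinarith [mul_pos ht htD, mul_neg_of_pos_of_neg ht ha0]
    nlinarith

/-- change of centre -/
theorem mom_change (c c' x v : ι → ℝ) (i : ι) :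
    mom c' x v i = mom c x v i - df c' c i + (df c' c ⬝ᵥ v) / (v ⬝ᵥ v) * v i := by
  have h1 : df x c' = fun i => df x c i - 1 * df c' c i := by funext i; unfold df; ring
  unfold mom
  rw [h1, dot_sub_smul]
  ring

/-- unfolded orbits: hits are `(c, R, s)` -/
def Orb : List ((ι → ℝ) × ℝ × ℤ) → (ι → ℝ) → (ι → ℝ) → (ι → ℝ) → Prop
  | [], _, v, v' => v' = v
  | h :: H, x, v, v' => ∃ t : ℝ, 0 < t ∧ df (mv x t v) h.1 ⬝ᵥ df (mv x t v) h.1 = h.2.1 ^ 2 ∧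
      0 < (h.2.2 : ℝ) * (df (mv x t v) h.1 ⬝ᵥ v) ∧
      Orb H (mv x t v) (srefl h.1 h.2.1 (mv x t v) v) v'

end

end H450Sp
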