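import Mathlib
import Pool.Agent.H450R2.Sp.Block

/-! The state of the construction along an orbit of germs. -/

set_option autoImplicit false
set_option linter.unusedSectionVars false
set_option maxHeartbeats 1000000

namespace H450Sp

open IntermediateField

noncomputable section

variable {Q : Type} (U : Ultrafilter Q) {k : ℕ}

/-- speed -/
def sg (v : Q → Fin (k + 2) → ℝ) : GM U := rk U (fun q => Real.sqrt (v q ⬝ᵥ v q))

/-- distance -/
def hg (c : Fin (k + 2) → ℝ) (x v : Q → Fin (k + 2) → ℝ) : GM U :=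
  rk U (fun q => Real.sqrt (mom c (x q) (v q) ⬝ᵥ mom c (x q) (v q)))

/-- moment -/
def qg (c : Fin (k + 2) → ℝ) (x v : Q → Fin (k + 2) → ℝ) : Fin (k + 2) → GM U :=
  vk U (fun q => mom c (x q) (v q))

/-- germ of the root -/
def Wg (c : Fin (k + 2) → ℝ) (x v : Q → Fin (k + 2) → ℝ) (r : ℝ) : GM U :=
  rk U (fun q => Real.sqrt (r ^ 2 - mom c (x q) (v q) ⬝ᵥ mom c (x q) (v q)))

variable {U}

theorem dot_self_nonneg {ι : Type} [Fintype ι] (x : ι → ℝ) : 0 ≤ x ⬝ᵥ x :=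
  Finset.sum_nonneg fun i _ => mul_self_nonneg (x i)

theorem sg_sq (v : Q → Fin (k + 2) → ℝ) : (sg U v) ^ 2 = vk U v ⬝ᵥ vk U v := by
  unfold sg
  rw [vk_dot, rk_sq]
  congr 1
  funext q
  exact Real.sq_sqrt (dot_self_nonneg _)

theorem hg_sq (c : Fin (k + 2) → ℝ) (x v : Q → Fin (k + 2) → ℝ) :
    (hg U c x v) ^ 2 = qg U c x v ⬝ᵥ qg U c x v := by
  unfold hg qg
  rw [vk_dot, rk_sq]
  congr 1
  funext q
  exact Real.sq_sqrt (dot_self_nonneg _)

theorem Wg_sq (c : Fin (k + 2) → ℝ) (x v : Q → Fin (k + 2) → ℝ) (r : ℝ)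
    (h : ∀ᶠ q in (U : Filter Q), 0 ≤ r ^ 2 - mom c (x q) (v q) ⬝ᵥ mom c (x q) (v q)) :
    (Wg U c x v r) ^ 2 = algebraMap ℂ (GM U) ((r : ℂ) ^ 2) - (hg U c x v) ^ 2 := by
  rw [hg_sq]
  unfold Wg qg
  rw [vk_dot, rk_sq]
  have : algebraMap ℂ (GM U) ((r : ℂ) ^ 2) = rk U (fun _ => r ^ 2) := by
    rw [rk_const]; push_cast; rfl
  rw [this, ← rk_sub, rk_eq]
  filter_upwards [h] with q hq
  exact Real.sq_sqrt hq

theorem sg_ne (v : Q → Fin (k + 2) → ℝ) (hv : ∀ᶠ q in (U : Filter Q), 0 < v q ⬝ᵥ v q) :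
    sg U v ≠ 0 := by
  intro h0
  have h1 := sg_sq (U := U) v
  rw [h0, vk_dot] at h1
  have h2 : rk U (fun _ => (0 : ℝ)) = 0 := by
    unfold rk; simp only [Complex.ofReal_zero]; exact map_zero (mk U)
  have h3 : rk U (fun q => v q ⬝ᵥ v q) = rk U (fun _ => (0 : ℝ)) := by
    rw [h2, ← h1]; norm_num
  rw [rk_eq] at h3
  obtain ⟨q, hq1, hq2⟩ := (h3.and hv).exists
  rw [hq1] at hq2
  exact lt_irrefl _ hq2

/-- state -/
structure St (V0 x0 : Fin (k + 2) → GM U) (x v : Q → Fin (k + 2) → ℝ) (c : Fin (k + 2) → ℝ)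
    (B : List (ℝ × ℤ)) : Prop where
  build ::
  hv : ∀ᶠ q in (U : Filter Q), 0 < v q ⬝ᵥ v q
  run : ∃ (l : List (Step (Fin (k + 2)))) (K : IntermediateField ℂ (GM U))
    (Vb qb : Fin (k + 2) → GM U) (κ : ℂ),
    WF l ∧ trail l = [] ∧ κ ^ 2 = 1 ∧ Run V0 x0 l K Vb qb ∧
    (sg U v) ^ 2 = Vb ⬝ᵥ Vb ∧ (hg U c x v) ^ 2 = qb ⬝ᵥ qb ∧
    (∀ i, fE (sg U v) (hg U c x v) (vk U v) (qg U c x v) i = algebraMap ℂ (GM U) κ *
      (B.map (fun b => (H450Iv.gg b.1 (Wg U c x v b.1) (hg U c x v)) ^ (2 * b.2))).prod *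
        fE (sg U v) (hg U c x v) Vb qb i) ∧
    (∀ i, fF (sg U v) (hg U c x v) (vk U v) (qg U c x v) i = algebraMap ℂ (GM U) κ *
      ((B.map (fun b => (H450Iv.gg b.1 (Wg U c x v b.1) (hg U c x v)) ^ (2 * b.2))).prod)⁻¹ *
        fF (sg U v) (hg U c x v) Vb qb i)
  pos : ∀ b ∈ B, 0 < b.1 ∧ (b.2 = 1 ∨ b.2 = -1)
  hW : ∀ b ∈ B, (Wg U c x v b.1) ^ 2 = algebraMap ℂ (GM U) ((b.1 : ℂ) ^ 2) - (hg U c x v) ^ 2
  ch : H450Iv.Ch B
  last : ∀ b0 B', B = b0 :: B' → ∀ᶠ q in (U : Filter Q),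
    df (x q) c ⬝ᵥ df (x q) c = b0.1 ^ 2 ∧ (b0.2 : ℝ) * (df (x q) c ⬝ᵥ v q) < 0

theorem hitV_one {M : Type} [Field M] [Algebra ℂ M] (r : ℝ) (κ : ℂ) (w : M)
    (V q : Fin (k + 2) → M) (i : Fin (k + 2)) : hitV r 1 κ w V q i =
      algebraMap ℂ M κ * (ca r (q ⬝ᵥ q) * V i + cb r w * q i) := by
  unfold hitV pp
  simp [pr]

theorem hitq_one {M : Type} [Field M] [Algebra ℂ M] (r : ℝ) (κ : ℂ) (w : M)
    (V q : Fin (k + 2) → M) (i : Fin (k + 2)) : hitq r 1 κ w V q i =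
      algebraMap ℂ M κ * (ca r (q ⬝ᵥ q) * q i - (q ⬝ᵥ q) / (V ⬝ᵥ V) * cb r w * V i) := by
  unfold hitq pp
  simp [pr]

theorem St.h_ne {V0 x0 : Fin (k + 2) → GM U} (h0 : Ind2 V0 x0) {x v : Q → Fin (k + 2) → ℝ}
    {c : Fin (k + 2) → ℝ} {B : List (ℝ × ℤ)} (h : St V0 x0 x v c B) : hg U c x v ≠ 0 := by
  obtain ⟨l, K, Vb, qb, κ, hl, htr, hκ, hrun, hs, hh, hE, hF⟩ := h.run
  intro hz
  apply H_transc l hl V0 x0 h0 K Vb qb hrun
  rw [← hh, hz]
  have : (0 : GM U) ^ 2 = 0 := by norm_num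
  rw [this]
  exact isAlgebraic_zero

theorem rk_two : (2 : GM U) = rk U (fun _ => (2 : ℝ)) := by
  rw [rk_const]; push_cast; exact (map_ofNat _ 2).symm

theorem rk_one' : (1 : GM U) = rk U (fun _ => (1 : ℝ)) := by
  rw [rk_const, Complex.ofReal_one]; exact (map_one (algebraMap ℂ (GM U))).symm

theorem rk_Ri (R : ℝ) : algebraMap ℂ (GM U) ((R : ℂ) ^ 2)⁻¹ = rk U (fun _ => (R ^ 2)⁻¹) := by
  rw [rk_const]; push_cast; rfl

/-- a physical hit, on germs -/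
theorem germ_hit (c : Fin (k + 2) → ℝ) (R : ℝ) (hR : 0 < R) (y v : Q → Fin (k + 2) → ℝ)
    (hv : ∀ᶠ q in (U : Filter Q), 0 < v q ⬝ᵥ v q)
    (hy : ∀ᶠ q in (U : Filter Q), df (y q) c ⬝ᵥ df (y q) c = R ^ 2) :
    vk U (fun q => srefl c R (y q) (v q)) =
      hitV R 1 (-1) (rk U (fun q => df (y q) c ⬝ᵥ v q)) (vk U v) (qg U c y v) ∧
    qg U c y (fun q => srefl c R (y q) (v q)) =
      hitq R 1 (-1) (rk U (fun q => df (y q) c ⬝ᵥ v q)) (vk U v) (qg U c y v) := by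
  have hm1 : algebraMap ℂ (GM U) (-1) = -1 := by rw [map_neg, map_one]
  constructor
  · funext i
    rw [hitV_one, hm1]
    unfold ca cb qg vk
    have hd := vk_dot (U := U) (fun q => mom c (y q) (v q)) (fun q => mom c (y q) (v q))
    unfold vk at hd
    rw [hd, rk_Ri, rk_two, rk_one', ← rk_mul, ← rk_mul, ← rk_sub, ← rk_mul, ← rk_mul, ← rk_mul,
      ← rk_mul, ← rk_add, ← rk_neg, ← rk_mul, rk_eq]
    filter_upwards [hv, hy] with q hq1 hq2
    rw [srefl_formula c R hR (y q) (v q) hq1 hq2 i]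
    ring
  · funext i
    rw [hitq_one, hm1]
    unfold ca cb qg
    rw [vk_dot, vk_dot]
    unfold vk
    rw [rk_Ri, rk_two, rk_one', ← rk_mul, ← rk_mul, ← rk_sub, ← rk_mul, ← rk_div, ← rk_mul,
      ← rk_mul, ← rk_mul, ← rk_mul, ← rk_sub, ← rk_neg, ← rk_mul, rk_eq]
    filter_upwards [hv, hy] with q hq1 hq2
    rw [smom_formula c R hR (y q) (v q) hq1 hq2 i]
    ring

theorem St.step {V0 x0 : Fin (k + 2) → GM U} (h0 : Ind2 V0 x0) {x v : Q → Fin (k + 2) → ℝ}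
    {c : Fin (k + 2) → ℝ} {B : List (ℝ × ℤ)}
    (h : St V0 x0 x v c B) (R : ℝ) (hR : 0 < R) (s : ℤ) (hs : s = 1 ∨ s = -1) (t : Q → ℝ)
    (ht : ∀ᶠ q in (U : Filter Q), 0 < t q ∧
      df (mv (x q) (t q) (v q)) c ⬝ᵥ df (mv (x q) (t q) (v q)) c = R ^ 2 ∧
      0 < (s : ℝ) * (df (mv (x q) (t q) (v q)) c ⬝ᵥ v q)) :
    St V0 x0 (fun q => mv (x q) (t q) (v q))
      (fun q => srefl c R (mv (x q) (t q) (v q)) (v q)) c ((R, s) :: B) := by
  have hhn := h.h_ne h0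
  have hsn := sg_ne (U := U) v h.hv
  obtain ⟨l, K, Vb, qb, κ, hl, htr, hκ, hrun, hsb, hhb, hE, hF⟩ := h.run
  set y : Q → Fin (k + 2) → ℝ := fun q => mv (x q) (t q) (v q) with hy
  set v' : Q → Fin (k + 2) → ℝ := fun q => srefl c R (y q) (v q) with hv'
  have hmy : ∀ᶠ q in (U : Filter Q), mom c (y q) (v q) = mom c (x q) (v q) := by
    filter_upwards [h.hv] with q hq
    exact mom_mv c (x q) (v q) (t q) hq
  have hmy2 : ∀ᶠ q in (U : Filter Q), mom c (y q) (v' q) ⬝ᵥ mom c (y q) (v' q) =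
      mom c (x q) (v q) ⬝ᵥ mom c (x q) (v q) := by
    filter_upwards [h.hv, ht, hmy] with q hq htq hmq
    rw [mom_srefl_sq c R hR (y q) (v q) hq htq.2.1, hmq]
  have hsg : sg U v' = sg U v := by
    unfold sg
    rw [rk_eq]
    filter_upwards [ht] with q htq
    rw [srefl_speed c R hR (y q) (v q) htq.2.1]
  have hhg : hg U c y v' = hg U c x v := by
    unfold hg
    rw [rk_eq]
    filter_upwards [hmy2] with q hq
    rw [hq]
  have hWg : ∀ r, Wg U c y v' r = Wg U c x v r := by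
    intro r
    unfold Wg
    rw [rk_eq]
    filter_upwards [hmy2] with q hq
    rw [hq]
  have hqg : qg U c y v = qg U c x v := by
    funext i
    unfold qg vk
    rw [rk_eq]
    filter_upwards [hmy] with q hq
    rw [hq]
  obtain ⟨hgV, hgq⟩ := germ_hit c R hR y v h.hv (ht.mono fun q hq => hq.2.1)
  rw [hqg] at hgV hgq
  set a : GM U := rk U (fun q => df (y q) c ⬝ᵥ v q) with ha
  have ha2 : a ^ 2 = (vk U v ⬝ᵥ vk U v) * (algebraMap ℂ (GM U) ((R : ℂ) ^ 2) -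
      qg U c x v ⬝ᵥ qg U c x v) := by
    have e1 : algebraMap ℂ (GM U) ((R : ℂ) ^ 2) = rk U (fun _ => R ^ 2) := by
      rw [rk_const]; push_cast; rfl
    rw [e1]
    unfold qg
    rw [vk_dot, vk_dot, ← rk_sub, ← rk_mul, ha, rk_sq, rk_eq]
    filter_upwards [h.hv, ht, hmy] with q hq htq hmq
    rw [hit_sq c R (y q) (v q) hq htq.2.1, hmq]
  have haW : a / sg U v = algebraMap ℂ (GM U) (s : ℂ) * Wg U c x v R := by
    rw [div_eq_iff hsn]
    have e1 : algebraMap ℂ (GM U) (s : ℂ) = rk U (fun _ => (s : ℝ)) := by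
      rw [rk_const]; push_cast; rfl
    rw [e1]
    unfold Wg sg
    rw [← rk_mul, ← rk_mul, ha, rk_eq]
    filter_upwards [h.hv, ht, hmy] with q hq htq hmq
    have h1 := hit_sq c R (y q) (v q) hq htq.2.1
    rw [hmq] at h1
    have h2 : 0 ≤ R ^ 2 - mom c (x q) (v q) ⬝ᵥ mom c (x q) (v q) := by
      by_contra hcon
      push Not at hcon
      have := mul_neg_of_pos_of_neg hq hcon
      rw [← h1] at this
      exact absurd (sq_nonneg _) (not_le.2 this)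
    have h3 : Real.sqrt (R ^ 2 - mom c (x q) (v q) ⬝ᵥ mom c (x q) (v q)) *
        Real.sqrt (v q ⬝ᵥ v q) = |df (y q) c ⬝ᵥ v q| := by
      rw [← Real.sqrt_mul h2, mul_comm, ← h1, Real.sqrt_sq_eq_abs]
    rw [mul_assoc, h3]
    have h4 := htq.2.2
    change 0 < (s : ℝ) * (df (y q) c ⬝ᵥ v q) at h4
    rcases hs with rfl | rfl
    · have : 0 < df (y q) c ⬝ᵥ v q := by simpa using h4
      rw [abs_of_pos this]; simp
    · have : df (y q) c ⬝ᵥ v q < 0 := by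
        have : 0 < (-1 : ℝ) * (df (y q) c ⬝ᵥ v q) := by simpa using h4
        linarith
      rw [abs_of_neg this]; simp
  have hWsq : (Wg U c x v R) ^ 2 = algebraMap ℂ (GM U) ((R : ℂ) ^ 2) - (hg U c x v) ^ 2 := by
    apply Wg_sq
    filter_upwards [h.hv, ht, hmy] with q hq htq hmq
    have h1 := hit_sq c R (y q) (v q) hq htq.2.1
    rw [hmq] at h1
    by_contra hcon
    push Not at hcon
    have := mul_neg_of_pos_of_neg hq hcon
    rw [← h1] at this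
    exact absurd (sq_nonneg _) (not_le.2 this)
  have hggs : (H450Iv.gg R (a / sg U v) (hg U c x v)) ^ (2 * 1) =
      (H450Iv.gg R (Wg U c x v R) (hg U c x v)) ^ (2 * s) ∧
      ((H450Iv.gg R (a / sg U v) (hg U c x v))⁻¹) ^ (2 * 1) =
      ((H450Iv.gg R (Wg U c x v R) (hg U c x v)) ^ (2 * s))⁻¹ := by
    rw [haW]
    rcases hs with rfl | rfl
    · have : algebraMap ℂ (GM U) ((1 : ℤ) : ℂ) = 1 := by simp
      rw [this, one_mul]
      constructor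
      · norm_cast
      · rw [inv_pow]; norm_cast
    · have : algebraMap ℂ (GM U) ((-1 : ℤ) : ℂ) = -1 := by simp
      rw [this, neg_one_mul, gg_neg R hR _ _ hWsq]
      have e2 : (2 * (-1) : ℤ) = -((2 : ℕ) : ℤ) := by norm_num
      constructor
      · rw [e2, zpow_neg, zpow_natCast]
        ring
      · rw [e2, zpow_neg, zpow_natCast, inv_neg, inv_inv, inv_inv]
        ring
  have hfr := fun i => hit_frame R hR 1 (-1) a (sg U v) (hg U c x v) (vk U v) (qg U c x v)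
    (sg_sq v) (hg_sq c x v) hsn hhn ha2 i
  have hm1 : algebraMap ℂ (GM U) (-1) = -1 := by rw [map_neg, map_one]
  refine ⟨?_, ?_, ?_, ?_, ?_, ?_⟩
  · filter_upwards [h.hv, ht] with q hq htq
    rw [srefl_speed c R hR (y q) (v q) htq.2.1]; exact hq
  · refine ⟨l, K, Vb, qb, -κ, hl, htr, by rw [neg_sq]; exact hκ, hrun, ?_, ?_, ?_, ?_⟩
    · rw [hsg]; exact hsb
    · rw [hhg]; exact hhb
    · intro i
      rw [hsg, hhg, hgV, hgq, (hfr i).1, hggs.1, hE i]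
      simp only [hWg, List.map_cons, List.prod_cons]
      rw [hm1, map_neg]
      ring
    · intro i
      rw [hsg, hhg, hgV, hgq, (hfr i).2, hggs.2, hF i]
      simp only [hWg, List.map_cons, List.prod_cons]
      rw [hm1, map_neg, mul_inv]
      ring
  · intro b hb
    rcases List.mem_cons.1 hb with rfl | hb
    · exact ⟨hR, hs⟩
    · exact h.pos b hb
  · intro b hb
    rw [hWg, hhg]
    rcases List.mem_cons.1 hb with rfl | hb
    · exact hWsq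
    · exact h.hW b hb
  · cases B with
    | nil => trivial
    | cons b0 B' =>
      refine ⟨?_, h.ch⟩
      obtain ⟨q, hq, htq, hlq⟩ := (h.hv.and (ht.and (h.last b0 B' rfl))).exists
      have hb0 := h.pos b0 (by simp)
      exact trans_rule c (x q) (v q) hq b0.1 R hb0.1 hR b0.2 s hb0.2 hs hlq.1 hlq.2 (t q) htq.1
        htq.2.1 htq.2.2
  · intro b0 B' hB
    rw [List.cons.injEq] at hB
    rw [← hB.1]
    filter_upwards [ht] with q htq
    refine ⟨htq.2.1, ?_⟩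
    rw [srefl_dot c R hR _ _ htq.2.1]
    have := htq.2.2
    linarith

theorem St.flush {V0 x0 : Fin (k + 2) → GM U} (h0 : Ind2 V0 x0) {x v : Q → Fin (k + 2) → ℝ}
    {c : Fin (k + 2) → ℝ} {B : List (ℝ × ℤ)} (h : St V0 x0 x v c B) (hB : B ≠ []) :
    ∃ (r : ℝ) (n : ℕ) (κ : ℂ) (l3 : List (Step (Fin (k + 2))))
      (K3 : IntermediateField ℂ (GM U)) (V3 q3 : Fin (k + 2) → GM U) (w : GM U),
      WF (Step.hit r n κ :: l3) ∧ Run V0 x0 l3 K3 V3 q3 ∧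
      (sg U v) ^ 2 = V3 ⬝ᵥ V3 ∧ (hg U c x v) ^ 2 = q3 ⬝ᵥ q3 ∧
      w ^ 2 = (V3 ⬝ᵥ V3) * (algebraMap ℂ (GM U) ((r : ℂ) ^ 2) - q3 ⬝ᵥ q3) ∧
      vk U v = hitV r n κ w V3 q3 ∧ qg U c x v = hitq r n κ w V3 q3 := by
  have hhn := h.h_ne h0
  have hsn := sg_ne (U := U) v h.hv
  obtain ⟨l, K, Vb, qb, κ, hl, htr, hκ, hrun, hsb, hhb, hE, hF⟩ := h.run
  obtain ⟨r, n, l3, K3, V3, q3, w, h1, h2, h3, h4, h5, h6, h7⟩ := flush2 V0 x0 h0 l hl htr K Vb qb
    hrun (sg U v) (hg U c x v) hsb hhb hsn hhn (Wg U c x v) B hB h.ch h.pos h.hW κ hκ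
  have := frame_eq (sg U v) (hg U c x v) hsn hhn (vk U v) (qg U c x v)
    (hitV r n κ w V3 q3) (hitq r n κ w V3 q3)
    (fun i => by rw [hE i, h6 i]) (fun i => by rw [hF i, h7 i])
  exact ⟨r, n, κ, l3, K3, V3, q3, w, h1, h2, h3, h4, h5, this.1, this.2⟩

theorem St.newcentre {V0 x0 : Fin (k + 2) → GM U} (h0 : Ind2 V0 x0) {x v : Q → Fin (k + 2) → ℝ}
    {c : Fin (k + 2) → ℝ} {B : List (ℝ × ℤ)} (h : St V0 x0 x v c B) (hB : B ≠ [])
    (c' : Fin (k + 2) → ℝ) (hc : c' ≠ c) : St V0 x0 x v c' [] := by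
  obtain ⟨r, n, κ, l3, K3, V3, q3, w, h1, h2, h3, h4, h5, h6, h7⟩ := h.flush h0 hB
  have hrun := Run.hit l3 K3 V3 q3 r n κ w h2 h5
  rw [← h6, ← h7] at hrun
  have hrun2 := Run.shift _ _ _ _ (df c' c) hrun
  have hq : shq (df c' c) (vk U v) (qg U c x v) = qg U c' x v := by
    funext i
    unfold shq
    rw [cv_eq, vk_dot, vk_dot]
    unfold qg vk
    rw [← rk_div, ← rk_mul, ← rk_sub, ← rk_add, rk_eq]
    exact Filter.Eventually.of_forall fun q => (mom_change c c' (x q) (v q) i).symm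
  rw [hq] at hrun2
  have hcc : df c' c ≠ 0 := by
    intro h
    apply hc
    funext i
    have := congrFun h i
    unfold df at this
    simp only [Pi.zero_apply] at this
    linarith
  refine ⟨h.hv, ?_, by simp, by simp, trivial, by simp⟩
  have hwf : WF (Step.shift (df c' c) :: Step.hit r n κ :: l3) :=
    ⟨h1, hcc, fun hh => hh⟩
  exact ⟨_, _, vk U v, qg U c' x v, 1, hwf, rfl, one_pow 2, hrun2, sg_sq v, hg_sq c' x v,
    fun i => by simp, fun i => by simp⟩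

theorem St.final {V0 x0 : Fin (k + 2) → GM U} (h0 : Ind2 V0 x0) {x v : Q → Fin (k + 2) → ℝ}
    {c : Fin (k + 2) → ℝ} {B : List (ℝ × ℤ)} (h : St V0 x0 x v c B) (hB : B ≠ []) :
    ¬ ∀ i, vk U v i ∈ adjoin ℂ (Set.range (Sum.elim V0 x0)) := by
  obtain ⟨r, n, κ, l3, K3, V3, q3, w, h1, h2, h3, h4, h5, h6, h7⟩ := h.flush h0 hB
  intro hmem
  apply hit_not_mem2 l3 r n κ h1 V0 x0 h0 K3 V3 q3 h2 (sg U v) (hg U c x v) h3 h4 w h5
  intro i
  rw [← h6]
  exact base_le2 h2 (hmem i)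

theorem choose_t (c' : Fin (k + 2) → ℝ) (R : ℝ) (s : ℤ) (H : List ((Fin (k + 2) → ℝ) × ℝ × ℤ))
    (x v v' : Q → Fin (k + 2) → ℝ)
    (hv' : ∀ᶠ q in (U : Filter Q), Orb ((c', R, s) :: H) (x q) (v q) (v' q)) :
    ∃ t : Q → ℝ, ∀ᶠ q in (U : Filter Q), (0 < t q ∧
      df (mv (x q) (t q) (v q)) c' ⬝ᵥ df (mv (x q) (t q) (v q)) c' = R ^ 2 ∧
      0 < (s : ℝ) * (df (mv (x q) (t q) (v q)) c' ⬝ᵥ v q)) ∧
      Orb H (mv (x q) (t q) (v q)) (srefl c' R (mv (x q) (t q) (v q)) (v q)) (v' q) := by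
  classical
  refine ⟨fun q => if hq : Orb ((c', R, s) :: H) (x q) (v q) (v' q) then hq.choose else 0, ?_⟩
  filter_upwards [hv'] with q hq
  simp only [dif_pos hq]
  have := hq.choose_spec
  exact ⟨⟨this.1, this.2.1, this.2.2.1⟩, this.2.2.2⟩

theorem main_germ {V0 x0 : Fin (k + 2) → GM U} (h0 : Ind2 V0 x0)
    (H : List ((Fin (k + 2) → ℝ) × ℝ × ℤ))
    (hH : ∀ h ∈ H, 0 < h.2.1 ∧ (h.2.2 = 1 ∨ h.2.2 = -1)) :
    ∀ (x v : Q → Fin (k + 2) → ℝ) (c : Fin (k + 2) → ℝ) (B : List (ℝ × ℤ)),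
    St V0 x0 x v c B → B ≠ [] →
    ∀ v' : Q → Fin (k + 2) → ℝ, (∀ᶠ q in (U : Filter Q), Orb H (x q) (v q) (v' q)) →
      ¬ ∀ i, vk U v' i ∈ adjoin ℂ (Set.range (Sum.elim V0 x0)) := by
  induction H with
  | nil =>
    intro x v c B hst hB v' hv'
    have : vk U v' = vk U v := by
      funext i
      unfold vk
      rw [rk_eq]
      filter_upwards [hv'] with q hq
      rw [show v' q = v q from hq]
    rw [this]
    exact hst.final h0 hB
  | cons hh H ih =>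
    obtain ⟨c', R, s⟩ := hh
    intro x v c B hst hB v' hv'
    have hRs := hH (c', R, s) (by simp)
    obtain ⟨t, ht⟩ := choose_t c' R s H x v v' hv'
    have key : ∃ B1, St V0 x0 x v c' B1 := by
      by_cases hc : c' = c
      · exact ⟨B, hc ▸ hst⟩
      · exact ⟨[], hst.newcentre h0 hB c' hc⟩
    obtain ⟨B1, hst1⟩ := key
    have hst2 := hst1.step h0 R hRs.1 s hRs.2 t (ht.mono fun q hq => hq.1)
    exact ih (fun h hh => hH h (List.mem_cons_of_mem _ hh)) _ _ c' _ hst2 (by simp) v'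
      (ht.mono fun q hq => hq.2)

/-- Main theorem on germs: an orbit with at least one spherical hit does not return by an
isometry -/
theorem main_germ0 (x v : Q → Fin (k + 2) → ℝ) (hv : ∀ᶠ q in (U : Filter Q), 0 < v q ⬝ᵥ v q)
    (c : Fin (k + 2) → ℝ) (R : ℝ) (s : ℤ) (H : List ((Fin (k + 2) → ℝ) × ℝ × ℤ))
    (hH : ∀ h ∈ (c, R, s) :: H, 0 < h.2.1 ∧ (h.2.2 = 1 ∨ h.2.2 = -1))
    (x1 : Q → Fin (k + 2) → ℝ) (τ : Q → ℝ) (hx1 : ∀ q, x q = mv (x1 q) (τ q) (v q))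
    (h0 : Ind2 (vk U v) (vk U (fun q => df (x1 q) c))) (v' : Q → Fin (k + 2) → ℝ)
    (hv' : ∀ᶠ q in (U : Filter Q), Orb ((c, R, s) :: H) (x q) (v q) (v' q)) :
    ¬ ∀ i, vk U v' i ∈ adjoin ℂ (Set.range (Sum.elim (vk U v) (vk U (fun q => df (x1 q) c)))) := by
  have hst : St (vk U v) (vk U (fun q => df (x1 q) c)) x v c [] := by
    refine ⟨hv, ?_, by simp, by simp, trivial, by simp⟩
    have hrun := Run.nil (V0 := vk U v) (x0 := vk U (fun q => df (x1 q) c))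
    have hq : perp (vk U v) (vk U (fun q => df (x1 q) c)) = qg U c x v := by
      funext i
      unfold perp
      rw [vk_dot, vk_dot]
      unfold qg vk
      rw [← rk_div, ← rk_mul, ← rk_sub, rk_eq]
      filter_upwards [hv] with q hq
      rw [hx1 q, mom_mv c (x1 q) (v q) (τ q) hq]
      rfl
    rw [hq] at hrun
    exact ⟨[], _, vk U v, qg U c x v, 1, trivial, rfl, one_pow 2, hrun, sg_sq v, hg_sq c x v,
      fun i => by simp, fun i => by simp⟩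
  have hRs := hH (c, R, s) (by simp)
  obtain ⟨t, ht⟩ := choose_t c R s H x v v' hv'
  have hst2 := hst.step h0 R hRs.1 s hRs.2 t (ht.mono fun q hq => hq.1)
  exact main_germ h0 H (fun h hh => hH h (List.mem_cons_of_mem _ hh)) _ _ c _ hst2 (by simp) v'
    (ht.mono fun q hq => hq.2)

end

end H450Sp
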