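import Mathlib
import Pool.Agent.H450R2.Sp.State

/-! Unfolding along flat mirrors in any dimension. -/

set_option autoImplicit false
set_option linter.unusedSectionVars false

namespace H450Sp

noncomputable section

variable {ι : Type} [Fintype ι]

/-- mirrors: spheres and hyperplanes -/
inductive Mir (ι : Type) where
  | sph (c : ι → ℝ) (R : ℝ)
  | pl (ν : ι → ℝ) (d : ℝ)

/-- reflection of a direction in the hyperplane with normal `ν`, as a linear map -/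
def pref (ν : ι → ℝ) : (ι → ℝ) →ₗ[ℝ] (ι → ℝ) where
  toFun v := fun i => v i - 2 * (v ⬝ᵥ ν) / (ν ⬝ᵥ ν) * ν i
  map_add' x y := by
    funext i
    simp only [Pi.add_apply, add_dotProduct]
    ring
  map_smul' a x := by
    funext i
    simp only [Pi.smul_apply, smul_eq_mul, smul_dotProduct, RingHom.id_apply]
    ring

theorem pref_apply (ν v : ι → ℝ) (i : ι) :
    pref ν v i = v i - 2 * (v ⬝ᵥ ν) / (ν ⬝ᵥ ν) * ν i := rfl

theorem dot_self_zero {x : ι → ℝ} (h : x ⬝ᵥ x = 0) : x = 0 := by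
  funext i
  have := (Finset.sum_eq_zero_iff_of_nonneg (fun i _ => mul_self_nonneg (x i))).1 h i
    (Finset.mem_univ i)
  exact mul_self_eq_zero.1 this

theorem pref_inv (ν : ι → ℝ) : Function.Involutive (pref ν) := by
  intro v
  by_cases hν : ν ⬝ᵥ ν = 0
  · have h0 := dot_self_zero hν
    funext i
    rw [pref_apply, pref_apply, h0]
    simp
  · funext i
    rw [pref_apply, pref_apply]
    have h1 : pref ν v ⬝ᵥ ν = -(v ⬝ᵥ ν) := by
      change (fun i => v i - 2 * (v ⬝ᵥ ν) / (ν ⬝ᵥ ν) * ν i) ⬝ᵥ ν = _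
      rw [dot_sub_smul]
      field_simp
      ring
    rw [h1]
    ring

theorem pref_dot (ν x y : ι → ℝ) : pref ν x ⬝ᵥ pref ν y = x ⬝ᵥ y := by
  change (fun i => x i - 2 * (x ⬝ᵥ ν) / (ν ⬝ᵥ ν) * ν i) ⬝ᵥ
    (fun i => y i - 2 * (y ⬝ᵥ ν) / (ν ⬝ᵥ ν) * ν i) = _
  rw [dot_sub_smul, dot_sub_smul', dot_sub_smul', dotProduct_comm ν y]
  by_cases hν : ν ⬝ᵥ ν = 0
  · have h0 := dot_self_zero hν
    rw [h0]; simp
  · field_simp
    ring

/-- isometries `x ↦ L x + b` -/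
structure Iso (ι : Type) [Fintype ι] where
  L : (ι → ℝ) ≃ₗ[ℝ] (ι → ℝ)
  b : ι → ℝ
  iso : ∀ x y, L x ⬝ᵥ L y = x ⬝ᵥ y

/-- action -/
def Iso.ap (A : Iso ι) (x : ι → ℝ) : ι → ℝ := A.L x + A.b

/-- identity -/
def idI : Iso ι := ⟨LinearEquiv.refl ℝ _, 0, fun _ _ => rfl⟩

/-- orbits of a word -/
def POrb : List (Mir ι × ℤ) → (ι → ℝ) → (ι → ℝ) → (ι → ℝ) → (ι → ℝ) → Prop
  | [], P, V, P', V' => P' = P ∧ V' = V
  | (Mir.sph c R, s) :: w, P, V, P', V' => ∃ t : ℝ, 0 < t ∧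
      df (mv P t V) c ⬝ᵥ df (mv P t V) c = R ^ 2 ∧
      0 < (s : ℝ) * (df (mv P t V) c ⬝ᵥ V) ∧
      POrb w (mv P t V) (srefl c R (mv P t V) V) P' V'
  | (Mir.pl ν d, _) :: w, P, V, P', V' => ∃ t : ℝ, 0 < t ∧ mv P t V ⬝ᵥ ν = d ∧
      POrb w (mv P t V) (pref ν V) P' V'

/-- inverse image of a point -/
def Iso.pre (A : Iso ι) (c : ι → ℝ) : ι → ℝ := A.L.symm (c - A.b)

/-- composition with the reflection in a hyperplane -/
def Iso.comp (A : Iso ι) (ν : ι → ℝ) (d : ℝ) : Iso ι where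
  L := A.L.trans (LinearEquiv.ofInvolutive (pref ν) (pref_inv ν))
  b := pref ν A.b + (2 * d / (ν ⬝ᵥ ν)) • ν
  iso x y := by
    change pref ν (A.L x) ⬝ᵥ pref ν (A.L y) = _
    rw [pref_dot, A.iso]

/-- unfolded spherical hits -/
def unf : List (Mir ι × ℤ) → Iso ι → List ((ι → ℝ) × ℝ × ℤ)
  | [], _ => []
  | (Mir.sph c R, s) :: w, A => (A.pre c, R, s) :: unf w A
  | (Mir.pl ν d, _) :: w, A => unf w (A.comp ν d)

/-- final isometry -/
def fin : List (Mir ι × ℤ) → Iso ι → Iso ι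
  | [], A => A
  | (Mir.sph _ _, _) :: w, A => fin w A
  | (Mir.pl ν d, _) :: w, A => fin w (A.comp ν d)

/-- admissible mirrors -/
def Good : List (Mir ι × ℤ) → Prop
  | [] => True
  | (Mir.sph _ R, s) :: w => 0 < R ∧ (s = 1 ∨ s = -1) ∧ Good w
  | (Mir.pl ν _, _) :: w => ν ≠ 0 ∧ Good w

theorem lin_comp (A : Iso ι) (ν : ι → ℝ) (d : ℝ) (v : ι → ℝ) :
    (A.comp ν d).L v = pref ν (A.L v) := rfl

theorem ap_comp (A : Iso ι) (ν : ι → ℝ) (d : ℝ) (x : ι → ℝ)
    (h : A.ap x ⬝ᵥ ν = d) : (A.comp ν d).ap x = A.ap x := by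
  have h1 : (A.comp ν d).ap x = pref ν (A.ap x) + (2 * d / (ν ⬝ᵥ ν)) • ν := by
    unfold Iso.ap
    rw [lin_comp, map_add]
    change pref ν (A.L x) + (pref ν A.b + (2 * d / (ν ⬝ᵥ ν)) • ν) = _
    rw [add_assoc]
  rw [h1]
  funext i
  rw [Pi.add_apply, pref_apply, h, Pi.smul_apply, smul_eq_mul]
  ring

theorem mv_eq (x : ι → ℝ) (t : ℝ) (v : ι → ℝ) : mv x t v = x + t • v := by
  funext i; simp [mv]

theorem df_eq (x c : ι → ℝ) : df x c = x - c := by
  funext i; simp [df]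

theorem ap_move (A : Iso ι) (x v : ι → ℝ) (t : ℝ) : mv (A.ap x) t (A.L v) = A.ap (mv x t v) := by
  unfold Iso.ap
  rw [mv_eq, mv_eq, map_add, map_smul]
  abel

theorem ap_sub (A : Iso ι) (x c : ι → ℝ) : df (A.ap x) c = A.L (df x (A.pre c)) := by
  unfold Iso.ap Iso.pre
  rw [df_eq, df_eq, map_sub, LinearEquiv.apply_symm_apply]
  abel

theorem srefl_eq (c : ι → ℝ) (R : ℝ) (y v : ι → ℝ) :
    srefl c R y v = v - (2 * (df y c ⬝ᵥ v) / R ^ 2) • df y c := by
  funext i; simp [srefl]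

theorem refl_lin (A : Iso ι) (x c v : ι → ℝ) (R : ℝ) :
    srefl c R (A.ap x) (A.L v) = A.L (srefl (A.pre c) R x v) := by
  rw [srefl_eq, srefl_eq, ap_sub, A.iso, map_sub, map_smul]

theorem mv_mv (x v : ι → ℝ) (t t1 : ℝ) : mv (mv x t v) t1 v = mv x (t + t1) v := by
  funext i; unfold mv; ring

theorem Orb_shift (H : List ((ι → ℝ) × ℝ × ℤ)) (x v v' : ι → ℝ) (t : ℝ) (ht : 0 < t)
    (h : Orb H (mv x t v) v v') : Orb H x v v' := by
  cases H with
  | nil => exact h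
  | cons h0 H =>
    obtain ⟨t1, ht1, h1, h2, h3⟩ := h
    rw [mv_mv] at h1 h2 h3
    exact ⟨t + t1, by linarith, h1, h2, h3⟩

/-- unfolding an orbit -/
theorem unfold_orb (w : List (Mir ι × ℤ)) : ∀ (A : Iso ι),
    ∀ (x v P' V' : ι → ℝ), POrb w (A.ap x) (A.L v) P' V' →
    ∃ v', Orb (unf w A) x v v' ∧ V' = (fin w A).L v' := by
  induction w with
  | nil =>
    intro A x v P' V' h
    exact ⟨v, rfl, h.2⟩
  | cons h w ih =>
    obtain ⟨m, s⟩ := h
    intro A x v P' V' ho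
    cases m with
    | sph c R =>
      obtain ⟨t, ht, h1, h2, h3⟩ := ho
      rw [ap_move] at h1 h2 h3
      rw [ap_sub A, A.iso] at h1
      rw [ap_sub A, A.iso] at h2
      rw [refl_lin A] at h3
      obtain ⟨v', hv', hV'⟩ := ih A _ _ P' V' h3
      exact ⟨v', ⟨t, ht, h1, h2, hv'⟩, hV'⟩
    | pl ν d =>
      obtain ⟨t, ht, h1, h3⟩ := ho
      rw [ap_move] at h1 h3
      rw [← ap_comp A ν d _ h1, ← lin_comp A ν d] at h3
      obtain ⟨v', hv', hV'⟩ := ih _ _ _ P' V' h3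
      exact ⟨v', Orb_shift _ x v v' t ht hv', hV'⟩

/-- flat words -/
theorem flat_orb (w : List (Mir ι × ℤ)) : ∀ (A : Iso ι), unf w A = [] →
    ∀ (x v P' V' : ι → ℝ), POrb w (A.ap x) (A.L v) P' V' →
    ∃ T : ℝ, 0 ≤ T ∧ (w ≠ [] → 0 < T) ∧ P' = (fin w A).ap (mv x T v) ∧ V' = (fin w A).L v := by
  induction w with
  | nil =>
    intro A _ x v P' V' h
    refine ⟨0, le_rfl, fun h => absurd rfl h, ?_, h.2⟩
    have : mv x 0 v = x := by funext i; simp [mv]
    rw [this]; exact h.1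
  | cons h w ih =>
    obtain ⟨m, s⟩ := h
    intro A hu x v P' V' ho
    cases m with
    | sph c R => exact absurd hu (by simp [unf])
    | pl ν d =>
      obtain ⟨t, ht, h1, h3⟩ := ho
      rw [ap_move] at h1 h3
      rw [← ap_comp A ν d _ h1, ← lin_comp A ν d] at h3
      obtain ⟨T, hT, _, hP, hV⟩ := ih _ hu _ _ P' V' h3
      refine ⟨t + T, by linarith, fun _ => by linarith, ?_, hV⟩
      rw [hP, mv_mv]
      rfl

theorem unf_good (w : List (Mir ι × ℤ)) : ∀ (A : Iso ι), Good w →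
    ∀ h ∈ unf w A, 0 < h.2.1 ∧ (h.2.2 = 1 ∨ h.2.2 = -1) := by
  induction w with
  | nil => intro A _ h hh; simp [unf] at hh
  | cons h w ih =>
    obtain ⟨m, s⟩ := h
    intro A hg h hh
    cases m with
    | sph c R =>
      rcases List.mem_cons.1 hh with rfl | hh
      · exact ⟨hg.1, hg.2.1⟩
      · exact ih A hg.2.2 h hh
    | pl ν d => exact ih _ hg.2 h hh

/-- changing the speed -/
theorem POrb_scale (w : List (Mir ι × ℤ)) (hg : Good w) (b : ℝ) (hb : 0 < b) :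
    ∀ (P V P' V' : ι → ℝ), POrb w P V P' V' → POrb w P (b • V) P' (b • V') := by
  induction w with
  | nil =>
    intro P V P' V' h
    exact ⟨h.1, by rw [h.2]⟩
  | cons h w ih =>
    obtain ⟨m, s⟩ := h
    intro P V P' V' ho
    have hmv : ∀ t : ℝ, mv P (t / b) (b • V) = mv P t V := by
      intro t
      rw [mv_eq, mv_eq, smul_smul, div_mul_cancel₀ _ hb.ne']
    cases m with
    | sph c R =>
      obtain ⟨t, ht, h1, h2, h3⟩ := ho
      refine ⟨t / b, div_pos ht hb, ?_, ?_, ?_⟩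
      · rw [hmv]; exact h1
      · rw [hmv, dotProduct_smul, smul_eq_mul]
        have := mul_pos hb h2
        nlinarith
      · rw [hmv]
        have : srefl c R (mv P t V) (b • V) = b • srefl c R (mv P t V) V := by
          rw [srefl_eq, srefl_eq, dotProduct_smul, smul_eq_mul, smul_sub, smul_smul]
          congr 2
          ring
        rw [this]
        exact ih hg.2.2 _ _ _ _ h3
    | pl ν d =>
      obtain ⟨t, ht, h1, h3⟩ := ho
      refine ⟨t / b, div_pos ht hb, ?_, ?_⟩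
      · rw [hmv]; exact h1
      · rw [hmv, map_smul]
        exact ih hg.2 _ _ _ _ h3

end

end H450Sp
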