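import Mathlib
import Pool.Agent.H450R2.Sp.Unfold

/-! Germs of closed orbits do not exist. -/

set_option autoImplicit false
set_option linter.unusedSectionVars false
set_option maxHeartbeats 1000000

namespace H450Sp

open IntermediateField

noncomputable section

variable {Q : Type} {U : Ultrafilter Q} {k : ℕ}

theorem lin_apply {ι : Type} [Fintype ι] [DecidableEq ι] (f : (ι → ℝ) →ₗ[ℝ] (ι → ℝ))
    (v : ι → ℝ) (i : ι) : f v i = ∑ j, f (Pi.single j 1) i * v j := by
  have h1 : v = ∑ j, v j • (Pi.single j (1 : ℝ) : ι → ℝ) := by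
    funext i
    rw [Finset.sum_apply, Finset.sum_eq_single i]
    · simp
    · intro j _ hji; simp [Pi.single_eq_of_ne (Ne.symm hji)]
    · intro h; exact absurd (Finset.mem_univ _) h
  conv_lhs => rw [h1]
  rw [map_sum, Finset.sum_apply]
  apply Finset.sum_congr rfl
  intro j _
  rw [map_smul, Pi.smul_apply, smul_eq_mul, mul_comm]

theorem vk_lin {ι : Type} [Fintype ι] [DecidableEq ι] (f : (ι → ℝ) →ₗ[ℝ] (ι → ℝ))
    (v : Q → ι → ℝ) (i : ι) :
    vk U (fun q => f (v q)) i = ∑ j, algebraMap ℂ (GM U) (f (Pi.single j 1) i : ℂ) * vk U v j := by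
  have h1 : (fun q => f (v q) i) = fun q => ∑ j, f (Pi.single j 1) i * v q j := by
    funext q; exact lin_apply f (v q) i
  unfold vk
  rw [h1, rk_sum]
  apply Finset.sum_congr rfl
  intro j _
  rw [rk_mul, rk_const]

theorem word_germ (w : List (Mir (Fin (k + 2)) × ℤ)) (hw : Good w) (hne : w ≠ [])
    (x x1 v : Q → Fin (k + 2) → ℝ) (τ : Q → ℝ) (hx : ∀ q, x q = mv (x1 q) (τ q) (v q))
    (hind : Ind2 (vk U v) (vk U x1))
    (h : ∀ᶠ q in (U : Filter Q), POrb w (x q) (v q) (x q) (v q)) : False := by
  classical
  have hli : LinearIndependent ℂ (vk U v) :=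
    (AlgebraicIndependent.comp hind Sum.inl Sum.inl_injective).linearIndependent
  have hvpos : ∀ᶠ q in (U : Filter Q), 0 < v q ⬝ᵥ v q := by
    have h1 : vk U v ⬝ᵥ vk U v ≠ 0 := ind_D hind
    rw [vk_dot] at h1
    by_contra hcon
    apply h1
    have h2 : rk U (fun _ => (0 : ℝ)) = 0 := by
      unfold rk; simp only [Complex.ofReal_zero]; exact map_zero (mk U)
    rw [← h2, rk_eq]
    have hcon2 := Ultrafilter.eventually_not.2 hcon
    filter_upwards [hcon2] with q hq
    exact le_antisymm (not_lt.1 hq) (dot_self_nonneg _)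
  have hun : ∀ᶠ q in (U : Filter Q), POrb w (idI.ap (x q)) (idI.L (v q)) (x q) (v q) := by
    filter_upwards [h] with q hq
    have e1 : idI.ap (x q) = x q := by
      unfold Iso.ap idI; simp
    have e2 : idI.L (v q) = v q := rfl
    rw [e1, e2]; exact hq
  set A := fin w idI with hA
  rcases hcase : unf w (idI : Iso (Fin (k + 2))) with _ | ⟨⟨c, R, s⟩, H⟩
  · -- flat words
    have hflat : ∀ᶠ q in (U : Filter Q), ∃ T : ℝ, 0 < T ∧ x q = A.ap (mv (x q) T (v q)) ∧
        v q = A.L (v q) := by
      filter_upwards [hun] with q hq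
      obtain ⟨T, _, hT, hP, hV⟩ := flat_orb w idI hcase _ _ _ _ hq
      exact ⟨T, hT hne, hP, hV⟩
    -- the linear part is the identity
    have hM : ∀ i j, A.L (Pi.single j 1) i = (Pi.single j (1 : ℝ) : Fin (k + 2) → ℝ) i := by
      intro i
      have e1 : vk U v i = vk U (fun q => A.L (v q)) i := by
        unfold vk
        rw [rk_eq]
        filter_upwards [hflat] with q hq
        obtain ⟨T, _, _, hV⟩ := hq
        rw [← hV]
      rw [show (fun q => A.L (v q)) = fun q => (A.L : (Fin (k + 2) → ℝ) →ₗ[ℝ] (Fin (k + 2) → ℝ)) (v q)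
        from rfl, vk_lin] at e1
      have e2 : ∑ j, ((A.L (Pi.single j 1) i : ℂ) - ((Pi.single j (1 : ℝ) : Fin (k + 2) → ℝ) i : ℂ)) •
          vk U v j = 0 := by
        simp only [sub_smul]
        rw [Finset.sum_sub_distrib]
        have e3 : ∑ j, (((Pi.single j (1 : ℝ) : Fin (k + 2) → ℝ) i : ℝ) : ℂ) • vk U v j =
            vk U v i := by
          rw [Finset.sum_eq_single i]
          · simp
          · intro j _ hji; simp [Pi.single_eq_of_ne (Ne.symm hji)]
          · intro h; exact absurd (Finset.mem_univ _) h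
        rw [e3]
        conv_lhs => rhs; rw [e1]
        rw [sub_eq_zero]
        apply Finset.sum_congr rfl
        intro j _
        rw [Algebra.smul_def]
        rfl
      have e4 := Fintype.linearIndependent_iff.1 hli _ e2
      intro j
      have := e4 j
      have h5 : (A.L (Pi.single j 1) i : ℂ) = ((Pi.single j (1 : ℝ) : Fin (k + 2) → ℝ) i : ℂ) :=
        sub_eq_zero.1 this
      exact_mod_cast h5
    have hid : ∀ y, A.L y = y := by
      intro y
      funext i
      rw [show A.L y i = (A.L : (Fin (k + 2) → ℝ) →ₗ[ℝ] (Fin (k + 2) → ℝ)) y i from rfl, lin_apply]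
      rw [Finset.sum_eq_single i]
      · have := hM i i
        rw [Pi.single_eq_same] at this
        change A.L (Pi.single i 1) i * y i = y i
        rw [this, one_mul]
      · intro j _ hji
        have := hM i j
        rw [Pi.single_eq_of_ne (Ne.symm hji)] at this
        change A.L (Pi.single j 1) i * y j = 0
        rw [this, zero_mul]
      · intro h; exact absurd (Finset.mem_univ _) h
    have hb : ∀ᶠ q in (U : Filter Q), ∃ T : ℝ, 0 < T ∧ ∀ i, A.b i = -(T * v q i) := by
      filter_upwards [hflat] with q hq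
      obtain ⟨T, hT, hP, _⟩ := hq
      refine ⟨T, hT, fun i => ?_⟩
      have h1 := congrFun hP i
      unfold Iso.ap at h1
      rw [hid, Pi.add_apply] at h1
      unfold mv at h1
      linarith
    have hb0 : ∀ i, A.b i = 0 := by
      intro i
      obtain ⟨j, hji⟩ : ∃ j : Fin (k + 2), j ≠ i := exists_ne i
      have e1 : algebraMap ℂ (GM U) (A.b i : ℂ) * vk U v j -
          algebraMap ℂ (GM U) (A.b j : ℂ) * vk U v i = 0 := by
        rw [← rk_const, ← rk_const]
        unfold vk
        rw [← rk_mul, ← rk_mul, ← rk_sub]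
        have h2 : rk U (fun _ => (0 : ℝ)) = 0 := by
          unfold rk; simp only [Complex.ofReal_zero]; exact map_zero (mk U)
        rw [← h2, rk_eq]
        filter_upwards [hb] with q hq
        obtain ⟨T, _, hT⟩ := hq
        rw [hT i, hT j]; ring
      have e2 : ∑ m, ((if m = j then (A.b i : ℂ) else 0) - (if m = i then (A.b j : ℂ) else 0)) •
          vk U v m = 0 := by
        simp only [sub_smul, Finset.sum_sub_distrib, ite_smul, zero_smul, Finset.sum_ite_eq',
          Finset.mem_univ, if_true]
        rw [Algebra.smul_def, Algebra.smul_def]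
        exact e1
      have e3 := Fintype.linearIndependent_iff.1 hli _ e2 j
      rw [if_pos rfl, if_neg hji, sub_zero] at e3
      exact_mod_cast e3
    obtain ⟨q, hq, hq2⟩ := (hb.and hvpos).exists
    obtain ⟨T, hT, hTv⟩ := hq
    have : v q = 0 := by
      funext i
      have h1 := hTv i
      rw [hb0 i] at h1
      have h2 : T * v q i = 0 := by linarith
      rcases mul_eq_zero.1 h2 with h3 | h3
      · exact absurd h3 hT.ne'
      · exact h3
    rw [this] at hq2
    simp at hq2
  · -- words with spherical hits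
    have hgood := unf_good w (idI : Iso (Fin (k + 2))) hw
    rw [hcase] at hgood
    have hch : ∃ v' : Q → Fin (k + 2) → ℝ, ∀ᶠ q in (U : Filter Q),
        Orb ((c, R, s) :: H) (x q) (v q) (v' q) ∧ v q = A.L (v' q) := by
      have hex : ∀ q, POrb w (idI.ap (x q)) (idI.L (v q)) (x q) (v q) →
          ∃ v', Orb ((c, R, s) :: H) (x q) (v q) v' ∧ v q = A.L v' := by
        intro q hq
        obtain ⟨v', hv', hV'⟩ := unfold_orb w idI _ _ _ _ hq
        rw [hcase] at hv'
        exact ⟨v', hv', hV'⟩
      refine ⟨fun q => if hq : POrb w (idI.ap (x q)) (idI.L (v q)) (x q) (v q) then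
        (hex q hq).choose else 0, ?_⟩
      filter_upwards [hun] with q hq
      simp only [dif_pos hq]
      exact (hex q hq).choose_spec
    obtain ⟨v', hv'⟩ := hch
    have hind2 : Ind2 (vk U v) (vk U (fun q => df (x1 q) c)) := by
      refine ind_of_closed _ _ hind ?_
      intro B _ hB j
      rcases j with i | i
      · exact hB (Sum.inl i)
      · have e1 : vk U x1 i = vk U (fun q => df (x1 q) c) i + algebraMap ℂ (GM U) (c i : ℂ) := by
          rw [← rk_const]
          unfold vk
          rw [← rk_add, rk_eq]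
          exact Filter.Eventually.of_forall fun q => by unfold df; ring
        change vk U x1 i ∈ B
        rw [e1]
        exact add_mem (hB (Sum.inr i)) (IntermediateField.algebraMap_mem _ _)
    apply main_germ0 x v hvpos c R s H hgood x1 τ hx hind2 v' (hv'.mono fun q hq => hq.1)
    intro i
    have e1 : vk U v' i = vk U (fun q => A.L.symm (v q)) i := by
      unfold vk
      rw [rk_eq]
      filter_upwards [hv'] with q hq
      rw [hq.2, LinearEquiv.symm_apply_apply]
    rw [e1, show (fun q => A.L.symm (v q)) = fun q =>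
      (A.L.symm : (Fin (k + 2) → ℝ) →ₗ[ℝ] (Fin (k + 2) → ℝ)) (v q) from rfl, vk_lin]
    refine sum_mem fun j _ => mul_mem (IntermediateField.algebraMap_mem _ _) ?_
    exact subset_adjoin ℂ _ ⟨Sum.inl j, rfl⟩

end

end H450Sp
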