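import Mathlib
import Pool.Agent.H450R2.Sp.Null

/-! The set of lines (in an affine chart) carrying a closed orbit with a given word is null. -/

set_option autoImplicit false
set_option linter.unusedSectionVars false
set_option maxHeartbeats 1000000

namespace H450Sp

open MeasureTheory Filter

noncomputable section

/-- indices of the chart -/
abbrev S1 (k : ℕ) := Fin (k + 1) ⊕ Fin (k + 1)

/-- indices of the thickened chart -/
abbrev S2 (k : ℕ) := S1 k ⊕ Fin 2

/-- insertion of a coordinate -/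
def ins {k : ℕ} {R : Type} (j : Fin (k + 2)) (a : R) (f : Fin (k + 1) → R) : Fin (k + 2) → R :=
  Fin.insertNth (α := fun _ => R) j a f

theorem ins_same {k : ℕ} {R : Type} (j : Fin (k + 2)) (a : R) (f : Fin (k + 1) → R) :
    ins j a f j = a := by unfold ins; simp

theorem ins_above {k : ℕ} {R : Type} (j : Fin (k + 2)) (a : R) (f : Fin (k + 1) → R)
    (m : Fin (k + 1)) : ins j a f (j.succAbove m) = f m := by unfold ins; simp

theorem ins_map {k : ℕ} {R R' : Type} (j : Fin (k + 2)) (a : R) (f : Fin (k + 1) → R)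
    (φ : R → R') (i : Fin (k + 2)) : φ (ins j a f i) = ins j (φ a) (fun m => φ (f m)) i := by
  refine Fin.succAboveCases j ?_ (fun m => ?_) i
  · rw [ins_same, ins_same]
  · rw [ins_above, ins_above]

theorem eval_ins {k : ℕ} {σ : Type} (j : Fin (k + 2)) (a : MvPolynomial σ ℂ)
    (f : Fin (k + 1) → MvPolynomial σ ℂ) (y : σ → ℂ) (i : Fin (k + 2)) :
    MvPolynomial.eval y (ins j a f i) =
      ins j (MvPolynomial.eval y a) (fun m => MvPolynomial.eval y (f m)) i :=
  ins_map j a f (fun p => MvPolynomial.eval y p) i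

theorem ofReal_ins {k : ℕ} (j : Fin (k + 2)) (a : ℝ) (f : Fin (k + 1) → ℝ) (i : Fin (k + 2)) :
    ((ins j a f i : ℝ) : ℂ) = ins j (a : ℂ) (fun m => (f m : ℂ)) i :=
  ins_map j a f (fun x : ℝ => (x : ℂ)) i

/-- base point of the chart line -/
def xs {k : ℕ} (j : Fin (k + 2)) (y : S1 k → ℝ) : Fin (k + 2) → ℝ :=
  ins j 0 (fun m => y (Sum.inl m))

/-- direction of the chart line -/
def vs {k : ℕ} (j : Fin (k + 2)) (ε : ℝ) (y : S1 k → ℝ) : Fin (k + 2) → ℝ :=
  ins j ε (fun m => y (Sum.inr m))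

section poly
variable {k : ℕ} (j : Fin (k + 2)) (ε : ℝ)

/-- polynomial velocity -/
def VP (i : Fin (k + 2)) : MvPolynomial (S2 k) ℂ :=
  MvPolynomial.X (Sum.inr 1) * ins j (MvPolynomial.C (ε : ℂ))
    (fun m => MvPolynomial.X (Sum.inl (Sum.inr m))) i

/-- polynomial position -/
def XP (i : Fin (k + 2)) : MvPolynomial (S2 k) ℂ :=
  ins j 0 (fun m => MvPolynomial.X (Sum.inl (Sum.inl m))) i +
    MvPolynomial.X (Sum.inr 0) * VP j ε i

/-- substitution -/
def sub (P : MvPolynomial (Fin (k + 2) ⊕ Fin (k + 2)) ℂ) : MvPolynomial (S2 k) ℂ :=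
  MvPolynomial.aeval (Sum.elim (VP j ε) (XP j ε)) P

theorem eval_sub (P : MvPolynomial (Fin (k + 2) ⊕ Fin (k + 2)) ℂ) (z : S2 k → ℂ) :
    MvPolynomial.eval z (sub j ε P) = MvPolynomial.eval (Sum.elim
      (fun i => MvPolynomial.eval z (VP j ε i)) (fun i => MvPolynomial.eval z (XP j ε i))) P := by
  unfold sub
  induction P using MvPolynomial.induction_on with
  | C a => simp
  | add f g hf hg => rw [map_add, map_add, map_add, hf, hg]
  | mul_X f i hf =>
    rw [map_mul, map_mul, map_mul, hf, MvPolynomial.aeval_X, MvPolynomial.eval_X]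
    congr 1
    rcases i with i | i <;> rfl

theorem sub_ne (hε : ε ≠ 0) (P : MvPolynomial (Fin (k + 2) ⊕ Fin (k + 2)) ℂ) (hP : P ≠ 0) :
    sub j ε P ≠ 0 := by
  intro h0
  have hεc : (ε : ℂ) ≠ 0 := by exact_mod_cast hε
  have key : ∀ (z : Fin (k + 2) ⊕ Fin (k + 2) → ℂ), z (Sum.inl j) ≠ 0 →
      MvPolynomial.eval z P = 0 := by
    intro z hz
    set b : ℂ := z (Sum.inl j) / ε with hb
    have hb0 : b ≠ 0 := div_ne_zero hz hεc
    set a : ℂ := z (Sum.inr j) / z (Sum.inl j) with ha
    set y : S2 k → ℂ := Sum.elim (Sum.elim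
      (fun m => z (Sum.inr (j.succAbove m)) - a * z (Sum.inl (j.succAbove m)))
      (fun m => z (Sum.inl (j.succAbove m)) / b)) (fun m => if m = 0 then a else b) with hy
    have hV : ∀ i, MvPolynomial.eval y (VP j ε i) = z (Sum.inl i) := by
      intro i
      unfold VP
      rw [map_mul, MvPolynomial.eval_X, eval_ins]
      refine Fin.succAboveCases j ?_ (fun m => ?_) i
      · rw [ins_same, MvPolynomial.eval_C]
        simp only [hy, Sum.elim_inr, Fin.one_eq_zero_iff, if_false, hb]
        norm_num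
        field_simp
      · rw [ins_above, MvPolynomial.eval_X]
        simp only [hy, Sum.elim_inr, Sum.elim_inl]
        norm_num
        field_simp
    have hX : ∀ i, MvPolynomial.eval y (XP j ε i) = z (Sum.inr i) := by
      intro i
      unfold XP
      rw [map_add, map_mul, MvPolynomial.eval_X, hV, eval_ins]
      refine Fin.succAboveCases j ?_ (fun m => ?_) i
      · rw [ins_same, map_zero]
        simp only [hy, Sum.elim_inr, if_true, ha]
        field_simp
        ring
      · rw [ins_above, MvPolynomial.eval_X]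
        simp only [hy, Sum.elim_inr, Sum.elim_inl, if_true]
        ring
    have h1 := eval_sub j ε P y
    rw [h0, map_zero] at h1
    have h2 : Sum.elim (fun i => MvPolynomial.eval y (VP j ε i))
        (fun i => MvPolynomial.eval y (XP j ε i)) = z := by
      funext i
      rcases i with i | i
      · exact hV i
      · exact hX i
    rw [h2] at h1
    exact h1.symm
  have hmul : P * MvPolynomial.X (Sum.inl j) = 0 := by
    apply MvPolynomial.funext
    intro z
    rw [map_mul, map_zero, MvPolynomial.eval_X]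
    by_cases hz : z (Sum.inl j) = 0
    · rw [hz, mul_zero]
    · rw [key z hz, zero_mul]
  rcases mul_eq_zero.1 hmul with h | h
  · exact hP h
  · exact MvPolynomial.X_ne_zero _ h

end poly

/-- closed orbits with a given word, in the affine chart -/
def closedSet {k : ℕ} (w : List (Mir (Fin (k + 2)) × ℤ)) (j : Fin (k + 2)) (ε : ℝ) :
    Set (S1 k → ℝ) :=
  {y | ∃ t0 : ℝ, POrb w (mv (xs j y) t0 (vs j ε y)) (vs j ε y)
    (mv (xs j y) t0 (vs j ε y)) (vs j ε y)}

theorem word_null {k : ℕ} (w : List (Mir (Fin (k + 2)) × ℤ)) (hw : Good w) (hne : w ≠ [])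
    (j : Fin (k + 2)) (ε : ℝ) (hε : ε ≠ 0) : volume (closedSet w j ε) = 0 := by
  by_contra hvol
  set T : Set (Fin 2 → ℝ) := {z | 0 < z 1} with hT
  have hTopen : IsOpen T := isOpen_lt continuous_const (continuous_apply 1)
  have hTne : volume T ≠ 0 := by
    apply (hTopen.measure_pos volume ⟨fun _ => 1, by simp [hT]⟩).ne'
  set S : Set (S2 k → ℝ) := {z | (fun i => z (Sum.inl i)) ∈ closedSet w j ε ∧
    (fun i => z (Sum.inr i)) ∈ T} with hS
  have hvolS : volume S ≠ 0 := by
    have hpre : S = (MeasurableEquiv.sumPiEquivProdPi (fun _ : S2 k => ℝ)) ⁻¹'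
        (closedSet w j ε ×ˢ T) := by
      ext z; rfl
    rw [hpre, (volume_measurePreserving_sumPiEquivProdPi (fun _ : S2 k => ℝ)).measure_preimage_equiv,
      Measure.volume_eq_prod, Measure.prod_prod]
    exact mul_ne_zero hvol hTne
  have hfreq : ∃ᶠ z in ae (volume : Measure (S2 k → ℝ)), z ∈ S := frequently_ae_mem_iff.2 hvolS
  have hnb : (ae (volume : Measure (S2 k → ℝ)) ⊓ 𝓟 S).NeBot := frequently_mem_iff_neBot.1 hfreq
  set U : Ultrafilter (S2 k → ℝ) :=
    Ultrafilter.of (ae (volume : Measure (S2 k → ℝ)) ⊓ 𝓟 S) with hU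
  have hle : (U : Filter (S2 k → ℝ)) ≤ ae (volume : Measure (S2 k → ℝ)) ⊓ 𝓟 S :=
    Ultrafilter.of_le _
  have hUS : ∀ᶠ z in (U : Filter (S2 k → ℝ)), z ∈ S := by
    have : S ∈ (ae (volume : Measure (S2 k → ℝ)) ⊓ 𝓟 S) := mem_inf_of_right (mem_principal_self S)
    exact hle this
  have hUN : ∀ N : Set (S2 k → ℝ), volume N = 0 → ∀ᶠ z in (U : Filter (S2 k → ℝ)), z ∉ N := by
    intro N hN
    have h1 : ∀ᵐ z ∂(volume : Measure (S2 k → ℝ)), z ∉ N := measure_eq_zero_iff_ae_notMem.1 hN
    exact (hle.trans inf_le_left) h1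
  -- the functions
  set v : (S2 k → ℝ) → Fin (k + 2) → ℝ := fun z =>
    z (Sum.inr 1) • vs j ε (fun i => z (Sum.inl i)) with hv
  set x1 : (S2 k → ℝ) → Fin (k + 2) → ℝ := fun z =>
    mv (xs j (fun i => z (Sum.inl i))) (z (Sum.inr 0)) (v z) with hx1
  classical
  set t0 : (S2 k → ℝ) → ℝ := fun z =>
    if hz : (fun i => z (Sum.inl i)) ∈ closedSet w j ε then hz.choose else 0 with ht0
  set τ : (S2 k → ℝ) → ℝ := fun z => t0 z / z (Sum.inr 1) - z (Sum.inr 0) with hτ
  have hVe : ∀ (z : S2 k → ℝ) (i : Fin (k + 2)), ((v z i : ℝ) : ℂ) =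
      MvPolynomial.eval (fun i => (z i : ℂ)) (VP j ε i) := by
    intro z i
    unfold VP
    rw [map_mul, MvPolynomial.eval_X, eval_ins]
    simp only [hv, Pi.smul_apply, smul_eq_mul, Complex.ofReal_mul]
    congr 1
    unfold vs
    rw [ofReal_ins]
    simp only [MvPolynomial.eval_C, MvPolynomial.eval_X]
  have hXe : ∀ (z : S2 k → ℝ) (i : Fin (k + 2)), ((x1 z i : ℝ) : ℂ) =
      MvPolynomial.eval (fun i => (z i : ℂ)) (XP j ε i) := by
    intro z i
    unfold XP
    rw [map_add, map_mul, MvPolynomial.eval_X, eval_ins, ← hVe]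
    simp only [hx1, mv, Complex.ofReal_add, Complex.ofReal_mul]
    congr 1
    unfold xs
    rw [ofReal_ins]
    simp only [map_zero, MvPolynomial.eval_X, Complex.ofReal_zero]
  have hind : Ind2 (vk U v) (vk U x1) := by
    unfold Ind2
    have e1 : Sum.elim (vk U v) (vk U x1) = fun i => mk U (Sum.elim (fun i z => ((v z i : ℝ) : ℂ))
        (fun i z => ((x1 z i : ℝ) : ℂ)) i) := by
      funext i
      rcases i with i | i <;> rfl
    rw [e1]
    apply ind_mk
    intro P hP
    have h1 := hUN _ (poly_null (sub j ε P) (sub_ne j ε hε P hP))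
    filter_upwards [h1] with z hz
    intro h0
    apply hz
    change MvPolynomial.eval (fun i => (z i : ℂ)) (sub j ε P) = 0
    rw [eval_sub, ← h0]
    congr 2
    funext i
    rcases i with i | i
    · exact (hVe z i).symm
    · exact (hXe z i).symm
  refine word_germ w hw hne (fun z => mv (x1 z) (τ z) (v z)) x1 v τ (fun _ => rfl) hind ?_
  filter_upwards [hUS] with z hz
  obtain ⟨hz1, hz2⟩ := hz
  have hb : 0 < z (Sum.inr 1) := hz2
  have h1 : POrb w (mv (xs j fun i => z (Sum.inl i)) (t0 z) (vs j ε fun i => z (Sum.inl i)))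
      (vs j ε fun i => z (Sum.inl i))
      (mv (xs j fun i => z (Sum.inl i)) (t0 z) (vs j ε fun i => z (Sum.inl i)))
      (vs j ε fun i => z (Sum.inl i)) := by
    simp only [ht0, dif_pos hz1]
    exact hz1.choose_spec
  have h2 := POrb_scale w hw _ hb _ _ _ _ h1
  have h3 : mv (x1 z) (τ z) (v z) =
      mv (xs j fun i => z (Sum.inl i)) (t0 z) (vs j ε fun i => z (Sum.inl i)) := by
    rw [hx1, mv_mv]
    simp only [hτ, hv]
    rw [mv_eq, mv_eq, smul_smul]
    congr 2
    field_simp
    ring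
  rw [h3]
  exact h2

end

end H450Sp
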