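import Mathlib
import Pool.Agent.H450R2.Sp.Slice

/-! From null sets of lines to sets of Hausdorff measure zero in phase space. -/

set_option autoImplicit false
set_option linter.unusedSectionVars false
set_option maxHeartbeats 1000000

namespace H450Sp

open MeasureTheory Filter Topology

noncomputable section

/-- smooth images of null sets -/
theorem haus_image {σ Y : Type} [Fintype σ] [NormedAddCommGroup Y] [NormedSpace ℝ Y]
    [MeasurableSpace Y] [BorelSpace Y] (F : (σ → ℝ) → Y) (N : Set (σ → ℝ)) (hN : volume N = 0)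
    (hF : ∀ y ∈ N, ContDiffAt ℝ 1 F y) :
    Measure.hausdorffMeasure (Fintype.card σ : ℝ) (F '' N) = 0 := by
  have h1 : ∀ y ∈ N, ∃ K : NNReal, ∃ t ∈ 𝓝 y, LipschitzOnWith K F t := fun y hy =>
    (hF y hy).exists_lipschitzOnWith
  choose! K t ht hLip using h1
  obtain ⟨S, hSN, hSc, hcov⟩ := TopologicalSpace.countable_cover_nhdsWithin (f := t) (s := N)
    (fun y hy => mem_nhdsWithin_of_mem_nhds (ht y hy))
  have hsub : F '' N ⊆ ⋃ y ∈ S, F '' (t y ∩ N) := by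
    rintro _ ⟨z, hz, rfl⟩
    obtain ⟨y, hy, hzy⟩ := Set.mem_iUnion₂.1 (hcov hz)
    exact Set.mem_iUnion₂.2 ⟨y, hy, z, ⟨hzy, hz⟩, rfl⟩
  refine measure_mono_null hsub ((measure_biUnion_null_iff hSc).2 ?_)
  intro y hy
  have h2 := ((hLip y (hSN hy)).mono (Set.inter_subset_left (t := N))).hausdorffMeasure_image_le
    (d := (Fintype.card σ : ℝ)) (Nat.cast_nonneg _)
  have h3 : (Measure.hausdorffMeasure (Fintype.card σ : ℝ) : Measure (σ → ℝ)) (t y ∩ N) = 0 := by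
    rw [hausdorffMeasure_pi_real]
    exact measure_mono_null Set.inter_subset_right hN
  rw [h3, mul_zero] at h2
  exact le_antisymm h2 bot_le

variable {k : ℕ}

/-- being on a mirror -/
def OnM : Mir (Fin (k + 2)) → (Fin (k + 2) → ℝ) → Prop
  | Mir.sph c R, q => df q c ⬝ᵥ df q c = R ^ 2
  | Mir.pl ν d, q => q ⬝ᵥ ν = d

/-- transversality -/
def TrM : Mir (Fin (k + 2)) → (Fin (k + 2) → ℝ) → (Fin (k + 2) → ℝ) → Prop
  | Mir.sph c _, q, v => df q c ⬝ᵥ v ≠ 0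
  | Mir.pl ν _, _, v => v ⬝ᵥ ν ≠ 0

/-- parameter of the point of the line `x + t v` on the mirror -/
def tM : Mir (Fin (k + 2)) → ℝ → (Fin (k + 2) → ℝ) → (Fin (k + 2) → ℝ) → ℝ
  | Mir.sph c R, δ, x, v => (-(df x c ⬝ᵥ v) +
      δ * Real.sqrt ((df x c ⬝ᵥ v) ^ 2 - (v ⬝ᵥ v) * (df x c ⬝ᵥ df x c - R ^ 2))) / (v ⬝ᵥ v)
  | Mir.pl ν d, _, x, v => (d - x ⬝ᵥ ν) / (v ⬝ᵥ ν)

/-- regular lines -/
def RegM : Mir (Fin (k + 2)) → (Fin (k + 2) → ℝ) → (Fin (k + 2) → ℝ) → Prop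
  | Mir.sph c R, x, v => (df x c ⬝ᵥ v) ^ 2 - (v ⬝ᵥ v) * (df x c ⬝ᵥ df x c - R ^ 2) ≠ 0
  | Mir.pl ν _, _, v => v ⬝ᵥ ν ≠ 0

theorem tM_spec (M : Mir (Fin (k + 2))) (x v : Fin (k + 2) → ℝ) (hv : 0 < v ⬝ᵥ v) (t : ℝ)
    (hon : OnM M (mv x t v)) (htr : TrM M (mv x t v) v) :
    RegM M x v ∧ (tM M 1 x v = t ∨ tM M (-1) x v = t) := by
  cases M with
  | sph c R =>
    simp only [OnM, TrM] at hon htr
    have h1 : df (mv x t v) c ⬝ᵥ df (mv x t v) c =
        df x c ⬝ᵥ df x c + 2 * t * (df x c ⬝ᵥ v) + t ^ 2 * (v ⬝ᵥ v) := by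
      rw [df_mv, dot_sub_smul, dot_sub_smul', dot_sub_smul', dotProduct_comm v (df x c)]; ring
    rw [h1] at hon
    rw [df_mv_dot] at htr
    set β := df x c ⬝ᵥ v
    set α := v ⬝ᵥ v
    set γ := df x c ⬝ᵥ df x c
    have h2 : β ^ 2 - α * (γ - R ^ 2) = (β + t * α) ^ 2 := by
      linear_combination (-α) * hon
    refine ⟨?_, ?_⟩
    · change β ^ 2 - α * (γ - R ^ 2) ≠ 0
      rw [h2]; exact pow_ne_zero _ htr
    · have h3 : Real.sqrt (β ^ 2 - α * (γ - R ^ 2)) = |β + t * α| := by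
        rw [h2, Real.sqrt_sq_eq_abs]
      change (-β + 1 * Real.sqrt (β ^ 2 - α * (γ - R ^ 2))) / α = t ∨
        (-β + -1 * Real.sqrt (β ^ 2 - α * (γ - R ^ 2))) / α = t
      rw [h3]
      rcases abs_choice (β + t * α) with h | h
      · left; rw [h]; field_simp; ring
      · right; rw [h]; field_simp; ring
  | pl ν d =>
    simp only [OnM, TrM] at hon htr
    refine ⟨htr, Or.inl ?_⟩
    change (d - x ⬝ᵥ ν) / (v ⬝ᵥ ν) = t
    have h1 : mv x t v ⬝ᵥ ν = x ⬝ᵥ ν + t * (v ⬝ᵥ ν) := by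
      have : mv x t v = fun i => x i - (-t) * v i := by funext i; unfold mv; ring
      rw [this, dot_sub_smul]; ring
    rw [h1] at hon
    rw [div_eq_iff htr]; linarith

section smooth
variable {X : Type} [NormedAddCommGroup X] [NormedSpace ℝ X]

theorem cd_dot {a b : X → Fin (k + 2) → ℝ} {y : X} (ha : ContDiffAt ℝ 1 a y)
    (hb : ContDiffAt ℝ 1 b y) : ContDiffAt ℝ 1 (fun z => a z ⬝ᵥ b z) y := by
  unfold dotProduct
  refine ContDiffAt.sum fun i _ => ?_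
  exact (contDiffAt_pi.1 ha i).mul (contDiffAt_pi.1 hb i)

theorem cd_df {a : X → Fin (k + 2) → ℝ} {y : X} (c : Fin (k + 2) → ℝ) (ha : ContDiffAt ℝ 1 a y) :
    ContDiffAt ℝ 1 (fun z => df (a z) c) y := by
  refine contDiffAt_pi.2 fun i => ?_
  exact (contDiffAt_pi.1 ha i).sub contDiffAt_const

theorem cd_tM (M : Mir (Fin (k + 2))) (δ : ℝ) {a b : X → Fin (k + 2) → ℝ} {y : X}
    (ha : ContDiffAt ℝ 1 a y) (hb : ContDiffAt ℝ 1 b y) (hv : 0 < b y ⬝ᵥ b y)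
    (hreg : RegM M (a y) (b y)) : ContDiffAt ℝ 1 (fun z => tM M δ (a z) (b z)) y := by
  cases M with
  | sph c R =>
    have h1 := cd_dot (cd_df c ha) hb
    have h2 := cd_dot hb hb
    have h3 := cd_dot (cd_df c ha) (cd_df c ha)
    have h4 : ContDiffAt ℝ 1 (fun z => (df (a z) c ⬝ᵥ b z) ^ 2 - (b z ⬝ᵥ b z) *
        (df (a z) c ⬝ᵥ df (a z) c - R ^ 2)) y :=
      (h1.pow 2).sub (h2.mul (h3.sub contDiffAt_const))
    have h5 := h4.sqrt hreg
    exact ((h1.neg).add (contDiffAt_const.mul h5)).div h2 hv.ne'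
  | pl ν d =>
    have h1 := cd_dot ha (contDiffAt_const (c := ν))
    have h2 := cd_dot hb (contDiffAt_const (c := ν))
    exact (contDiffAt_const.sub h1).div h2 hreg

theorem cd_ins (j : Fin (k + 2)) (a : ℝ) (f : X → Fin (k + 1) → ℝ) (y : X)
    (hf : ContDiffAt ℝ 1 f y) : ContDiffAt ℝ 1 (fun z => ins j a (f z)) y := by
  refine contDiffAt_pi.2 fun i => ?_
  refine Fin.succAboveCases j ?_ (fun m => ?_) i
  · have : (fun z => ins j a (f z) j) = fun _ => a := by funext z; rw [ins_same]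
    rw [this]; exact contDiffAt_const
  · have : (fun z => ins j a (f z) (j.succAbove m)) = fun z => f z m := by
      funext z; rw [ins_above]
    rw [this]; exact contDiffAt_pi.1 hf m

end smooth

theorem cd_xs (j : Fin (k + 2)) (y : S1 k → ℝ) : ContDiffAt ℝ 1 (fun z => xs j z) y := by
  unfold xs
  refine cd_ins j 0 (fun z m => z (Sum.inl m)) y ?_
  exact contDiffAt_pi.2 fun m => (contDiff_apply ℝ ℝ (Sum.inl m : S1 k)).contDiffAt

theorem cd_vs (j : Fin (k + 2)) (ε : ℝ) (y : S1 k → ℝ) :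
    ContDiffAt ℝ 1 (fun z => vs j ε z) y := by
  unfold vs
  refine cd_ins j ε (fun z m => z (Sum.inr m)) y ?_
  exact contDiffAt_pi.2 fun m => (contDiff_apply ℝ ℝ (Sum.inr m : S1 k)).contDiffAt

end

end H450Sp
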