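import Mathlib
import Pool.Agent.H450R2.Sp.Haus

/-! The phase points of closed orbits with a given word have Hausdorff measure zero. -/

set_option autoImplicit false
set_option linter.unusedSectionVars false
set_option maxHeartbeats 1000000

namespace H450Sp

open MeasureTheory Filter Topology

noncomputable section

variable {k : ℕ}

/-- Euclidean space -/
abbrev EE (k : ℕ) := EuclideanSpace ℝ (Fin (k + 2))

/-- the chart of phase space -/
def FF (M : Mir (Fin (k + 2))) (j : Fin (k + 2)) (ε δ : ℝ) (y : S1 k → ℝ) : EE k × EE k :=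
  ((EuclideanSpace.equiv (Fin (k + 2)) ℝ).symm
      (mv (xs j y) (tM M δ (xs j y) (vs j ε y)) (vs j ε y)),
    (EuclideanSpace.equiv (Fin (k + 2)) ℝ).symm
      ((Real.sqrt (vs j ε y ⬝ᵥ vs j ε y))⁻¹ • vs j ε y))

theorem vs_pos (j : Fin (k + 2)) (ε : ℝ) (hε : ε ≠ 0) (y : S1 k → ℝ) :
    0 < vs j ε y ⬝ᵥ vs j ε y := by
  refine lt_of_le_of_ne (dot_self_nonneg _) (Ne.symm ?_)
  intro h0
  have := congrFun (dot_self_zero h0) j
  unfold vs at this
  rw [ins_same] at this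
  exact hε this

theorem FF_smooth (M : Mir (Fin (k + 2))) (j : Fin (k + 2)) (ε δ : ℝ) (hε : ε ≠ 0)
    (y : S1 k → ℝ) (hreg : RegM M (xs j y) (vs j ε y)) : ContDiffAt ℝ 1 (FF M j ε δ) y := by
  have hx := cd_xs j y
  have hv := cd_vs j ε y
  have hpos := vs_pos j ε hε y
  have ht := cd_tM M δ hx hv hpos hreg
  have h1 : ContDiffAt ℝ 1 (fun y => mv (xs j y) (tM M δ (xs j y) (vs j ε y)) (vs j ε y)) y := by
    refine contDiffAt_pi.2 fun i => ?_
    exact (contDiffAt_pi.1 hx i).add (ht.mul (contDiffAt_pi.1 hv i))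
  have h2 : ContDiffAt ℝ 1 (fun y => (Real.sqrt (vs j ε y ⬝ᵥ vs j ε y))⁻¹ • vs j ε y) y := by
    have h3 := (cd_dot hv hv).sqrt hpos.ne'
    exact (h3.inv (Real.sqrt_pos.2 hpos).ne').smul hv
  have h3 : ContDiff ℝ 1 ((EuclideanSpace.equiv (Fin (k + 2)) ℝ).symm) :=
    (EuclideanSpace.equiv (Fin (k + 2)) ℝ).symm.contDiff
  exact (h3.contDiffAt.comp y h1).prodMk (h3.contDiffAt.comp y h2)

theorem haus_word (M : Mir (Fin (k + 2))) (w : List (Mir (Fin (k + 2)) × ℤ)) (hw : Good w)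
    (hne : w ≠ []) (j : Fin (k + 2)) (ε : ℝ) (hε : ε = 1 ∨ ε = -1) :
    Measure.hausdorffMeasure (((k + 1) + (k + 1) : ℕ) : ℝ)
      {q : EE k × EE k | OnM M q.1.ofLp ∧ TrM M q.1.ofLp q.2.ofLp ∧ 0 < ε * q.2.ofLp j ∧
        q.2.ofLp ⬝ᵥ q.2.ofLp = 1 ∧ POrb w q.1.ofLp q.2.ofLp q.1.ofLp q.2.ofLp} = 0 := by
  have hε0 : ε ≠ 0 := by rcases hε with rfl | rfl <;> norm_num
  have hεε : ε * ε = 1 := by rcases hε with rfl | rfl <;> norm_num
  set N : Set (S1 k → ℝ) := {y | y ∈ closedSet w j ε ∧ RegM M (xs j y) (vs j ε y)} with hN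
  have hN0 : volume N = 0 := measure_mono_null (fun y hy => hy.1) (word_null w hw hne j ε hε0)
  have hcard : (Fintype.card (S1 k) : ℝ) = (((k + 1) + (k + 1) : ℕ) : ℝ) := by
    congr 1
    simp [S1]
  have himg : ∀ δ : ℝ, Measure.hausdorffMeasure (((k + 1) + (k + 1) : ℕ) : ℝ)
      (FF M j ε δ '' N) = 0 := by
    intro δ
    rw [← hcard]
    exact haus_image _ N hN0 fun y hy => FF_smooth M j ε δ hε0 y hy.2
  refine measure_mono_null ?_ (measure_union_null (himg 1) (himg (-1)))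
  rintro ⟨q, u⟩ ⟨hon, htr, hj, hu, horb⟩
  set q' : Fin (k + 2) → ℝ := q.ofLp with hq'
  set u' : Fin (k + 2) → ℝ := u.ofLp with hu'
  have huj : u' j ≠ 0 := by
    intro h0; rw [h0, mul_zero] at hj; exact lt_irrefl _ hj
  set b := ε * u' j with hb
  have hb0 : b ≠ 0 := hj.ne'
  set v : Fin (k + 2) → ℝ := b⁻¹ • u' with hv
  set x : Fin (k + 2) → ℝ := mv q' (-(q' j / u' j)) u' with hx
  set y : S1 k → ℝ := Sum.elim (fun m => x (j.succAbove m)) (fun m => v (j.succAbove m)) with hy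
  have hxj : x j = 0 := by
    simp only [hx, mv]; field_simp; ring
  have hvj : v j = ε := by
    simp only [hv, Pi.smul_apply, smul_eq_mul, hb]
    field_simp
    linear_combination -hεε
  have hxs : xs j y = x := by
    funext i
    unfold xs
    refine Fin.succAboveCases j ?_ (fun m => ?_) i
    · rw [ins_same, hxj]
    · rw [ins_above]; rfl
  have hvs : vs j ε y = v := by
    funext i
    unfold vs
    refine Fin.succAboveCases j ?_ (fun m => ?_) i
    · rw [ins_same, hvj]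
    · rw [ins_above]; rfl
  set t : ℝ := q' j / u' j * b with ht
  have hqt : mv x t v = q' := by
    funext i
    simp only [hx, mv, hv, ht, Pi.smul_apply, smul_eq_mul]
    field_simp
    ring
  have hvv : v ⬝ᵥ v = (b⁻¹) ^ 2 := by
    rw [hv, smul_dotProduct, dotProduct_smul, hu]; simp [pow_two]
  have hvpos : 0 < v ⬝ᵥ v := by
    rw [hvv]; exact pow_pos (inv_pos.2 hj) 2
  have htr' : TrM M q' v := by
    cases M with
    | sph c R =>
      simp only [TrM] at htr ⊢
      rw [hv, dotProduct_smul, smul_eq_mul]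
      exact mul_ne_zero (inv_ne_zero hb0) htr
    | pl ν d =>
      simp only [TrM] at htr ⊢
      rw [hv, smul_dotProduct, smul_eq_mul]
      exact mul_ne_zero (inv_ne_zero hb0) htr
  obtain ⟨hreg, hbr⟩ := tM_spec M x v hvpos t (by rw [hqt]; exact hon) (by rw [hqt]; exact htr')
  have hyN : y ∈ N := by
    refine ⟨⟨t, ?_⟩, by rw [hxs, hvs]; exact hreg⟩
    rw [hxs, hvs, hqt]
    exact POrb_scale w hw b⁻¹ (inv_pos.2 hj) _ _ _ _ horb
  have hsq : Real.sqrt (v ⬝ᵥ v) = b⁻¹ := by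
    rw [hvv, Real.sqrt_sq (inv_pos.2 hj).le]
  have hF : ∀ δ, tM M δ x v = t → FF M j ε δ y = (q, u) := by
    intro δ hδ
    unfold FF
    rw [hxs, hvs, hδ, hqt, hsq, inv_inv]
    have e1 : b • v = u' := by
      rw [hv, smul_smul, mul_inv_cancel₀ hb0, one_smul]
    rw [e1]
    rfl
  rcases hbr with h | h
  · left; exact ⟨y, hyN, hF 1 h⟩
  · right; exact ⟨y, hyN, hF (-1) h⟩

end

end H450Sp
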