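import Mathlib
import Pool.Agent.H450R2.Sp.Phase

/-! Itineraries on countably many mirrors. -/

set_option autoImplicit false
set_option linter.unusedSectionVars false
set_option maxHeartbeats 1000000

namespace H450Sp

open MeasureTheory Filter Topology

noncomputable section

variable {k : ℕ}

/-- a bounce at a mirror -/
def Bounce : Mir (Fin (k + 2)) → (Fin (k + 2) → ℝ) → (Fin (k + 2) → ℝ) → (Fin (k + 2) → ℝ) →
    (Fin (k + 2) → ℝ) → Prop
  | Mir.sph c R, P, V, P', V' => 0 < R ∧ ∃ t : ℝ, 0 < t ∧ P' = mv P t V ∧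
      df P' c ⬝ᵥ df P' c = R ^ 2 ∧ df P' c ⬝ᵥ V ≠ 0 ∧ V' = srefl c R P' V
  | Mir.pl ν d, P, V, P', V' => ν ≠ 0 ∧ ∃ t : ℝ, 0 < t ∧ P' = mv P t V ∧
      P' ⬝ᵥ ν = d ∧ V' = pref ν V

/-- letters -/
def enc (b : Bool) : ℤ := if b then 1 else -1

theorem orb_word {ι : Type} (M : ι → Mir (Fin (k + 2))) (P V : ℕ → Fin (k + 2) → ℝ) (n : ℕ) :
    ∀ m, (∀ l, m ≤ l → l < m + n → ∃ i, Bounce (M i) (P l) (V l) (P (l + 1)) (V (l + 1))) →
    ∃ w : List (ι × Bool), w.length = n ∧ Good (w.map fun x => (M x.1, enc x.2)) ∧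
      POrb (w.map fun x => (M x.1, enc x.2)) (P m) (V m) (P (m + n)) (V (m + n)) := by
  induction n with
  | zero => intro m _; exact ⟨[], rfl, trivial, rfl, rfl⟩
  | succ n ih =>
    intro m h
    obtain ⟨i, hi⟩ := h m le_rfl (by omega)
    obtain ⟨w, hw1, hw2, hw3⟩ := ih (m + 1) (fun l h1 h2 => h l (by omega) (by omega))
    have he : m + 1 + n = m + (n + 1) := by ring
    rw [he] at hw3
    cases hM : M i with
    | sph c R =>
      rw [hM] at hi
      obtain ⟨hR, t, ht, hP, hn, hs, hV⟩ := hi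
      rcases lt_or_gt_of_ne hs with h1 | h1
      · refine ⟨(i, false) :: w, by simp [hw1], ?_, ?_⟩
        · simp only [List.map_cons, hM]
          exact ⟨hR, Or.inr rfl, hw2⟩
        · simp only [List.map_cons, hM]
          refine ⟨t, ht, ?_, ?_, ?_⟩
          · rw [← hP]; exact hn
          · rw [← hP]
            have h2 : ((enc false : ℤ) : ℝ) = -1 := by simp [enc]
            rw [h2]; linarith
          · rw [← hP, ← hV]; exact hw3
      · refine ⟨(i, true) :: w, by simp [hw1], ?_, ?_⟩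
        · simp only [List.map_cons, hM]
          exact ⟨hR, Or.inl rfl, hw2⟩
        · simp only [List.map_cons, hM]
          refine ⟨t, ht, ?_, ?_, ?_⟩
          · rw [← hP]; exact hn
          · rw [← hP]
            have h2 : ((enc true : ℤ) : ℝ) = 1 := by simp [enc]
            rw [h2]; linarith
          · rw [← hP, ← hV]; exact hw3
    | pl ν d =>
      rw [hM] at hi
      obtain ⟨hν, t, ht, hP, hn, hV⟩ := hi
      refine ⟨(i, true) :: w, by simp [hw1], ?_, ?_⟩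
      · simp only [List.map_cons, hM]
        exact ⟨hν, hw2⟩
      · simp only [List.map_cons, hM]
        refine ⟨t, ht, ?_, ?_⟩
        · rw [← hP]; exact hn
        · rw [← hP, ← hV]; exact hw3

/-- phase points of periodic orbits bouncing on countably many spheres and hyperplanes -/
theorem phase_null {ι : Type} [Countable ι] (M : ι → Mir (Fin (k + 2))) :
    Measure.hausdorffMeasure (((k + 1) + (k + 1) : ℕ) : ℝ)
      {q : EE k × EE k | (∃ i, OnM (M i) q.1.ofLp ∧ TrM (M i) q.1.ofLp q.2.ofLp) ∧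
        q.2.ofLp ⬝ᵥ q.2.ofLp = 1 ∧
        ∃ n : ℕ, 1 ≤ n ∧ ∃ P V : ℕ → Fin (k + 2) → ℝ, P 0 = q.1.ofLp ∧ V 0 = q.2.ofLp ∧
          P n = q.1.ofLp ∧ V n = q.2.ofLp ∧
          ∀ m < n, ∃ i, Bounce (M i) (P m) (V m) (P (m + 1)) (V (m + 1))} = 0 := by
  have hsub : {q : EE k × EE k | (∃ i, OnM (M i) q.1.ofLp ∧ TrM (M i) q.1.ofLp q.2.ofLp) ∧
        q.2.ofLp ⬝ᵥ q.2.ofLp = 1 ∧
        ∃ n : ℕ, 1 ≤ n ∧ ∃ P V : ℕ → Fin (k + 2) → ℝ, P 0 = q.1.ofLp ∧ V 0 = q.2.ofLp ∧
          P n = q.1.ofLp ∧ V n = q.2.ofLp ∧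
          ∀ m < n, ∃ i, Bounce (M i) (P m) (V m) (P (m + 1)) (V (m + 1))} ⊆
      ⋃ (i : ι), ⋃ (w : {w : List (ι × Bool) // w ≠ [] ∧ Good (w.map fun x => (M x.1, enc x.2))}),
        ⋃ (j : Fin (k + 2)), ⋃ (s : Bool),
        {q : EE k × EE k | OnM (M i) q.1.ofLp ∧ TrM (M i) q.1.ofLp q.2.ofLp ∧
          0 < (if s then (1 : ℝ) else -1) * q.2.ofLp j ∧
          q.2.ofLp ⬝ᵥ q.2.ofLp = 1 ∧ POrb (w.1.map fun x => (M x.1, enc x.2))
            q.1.ofLp q.2.ofLp q.1.ofLp q.2.ofLp} := by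
    rintro q ⟨⟨i, hon, htr⟩, hu, n, hn, P, V, hP0, hV0, hPn, hVn, h⟩
    obtain ⟨w, hw1, hw2, hw3⟩ := orb_word M P V n 0 (fun l _ h2 => h l (by omega))
    have hwne : w ≠ [] := by
      rintro rfl
      simp at hw1
      omega
    have hj : ∃ j, q.2.ofLp j ≠ 0 := by
      by_contra hcon
      push Not at hcon
      have : q.2.ofLp ⬝ᵥ q.2.ofLp = 0 := Finset.sum_eq_zero fun i _ => by rw [hcon i, mul_zero]
      rw [hu] at this
      exact one_ne_zero this
    obtain ⟨j, hj⟩ := hj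
    have hs : ∃ s : Bool, 0 < (if s then (1 : ℝ) else -1) * q.2.ofLp j := by
      rcases lt_or_gt_of_ne hj with h1 | h1
      · exact ⟨false, by simpa using h1⟩
      · exact ⟨true, by simpa using h1⟩
    obtain ⟨s, hs⟩ := hs
    refine Set.mem_iUnion.2 ⟨i, Set.mem_iUnion.2 ⟨⟨w, hwne, hw2⟩, Set.mem_iUnion.2 ⟨j,
      Set.mem_iUnion.2 ⟨s, hon, htr, hs, hu, ?_⟩⟩⟩⟩
    rw [zero_add, hPn, hVn, hP0, hV0] at hw3
    exact hw3
  refine measure_mono_null hsub (measure_iUnion_null fun i => measure_iUnion_null ?_)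
  rintro ⟨w, hw1, hw2⟩
  refine measure_iUnion_null fun j => measure_iUnion_null fun s => ?_
  refine haus_word (M i) _ hw2 (by simpa using hw1) j _ ?_
  cases s <;> simp

/-- Lagrange multipliers: a function vanishing on the zero set of `f` near `p` has a parallel
derivative -/
theorem parallel_deriv {E : Type} [NormedAddCommGroup E] [InnerProductSpace ℝ E] [CompleteSpace E]
    (f φ : E → ℝ) (p : E) (hf : ContDiffAt ℝ 1 f p) (hφ : ContDiffAt ℝ 1 φ p) (hfp : f p = 0)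
    (hg : fderiv ℝ f p ≠ 0) (h : ∀ᶠ y in 𝓝 p, f y = 0 → φ y = 0) :
    ∃ μ : ℝ, fderiv ℝ φ p = μ • fderiv ℝ f p := by
  have h0 : φ p = 0 := h.self_of_nhds hfp
  have hext : IsLocalExtrOn φ {y | f y = f p} p := by
    left
    change ∀ᶠ y in 𝓝[{y | f y = f p}] p, φ p ≤ φ y
    rw [eventually_nhdsWithin_iff]
    filter_upwards [h] with y hy hy2
    rw [h0, hy (by rw [← hfp]; exact hy2)]
  obtain ⟨a, b, hab, hsum⟩ := hext.exists_multipliers_of_hasStrictFDerivAt_1d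
    (hf.hasStrictFDerivAt one_ne_zero) (hφ.hasStrictFDerivAt one_ne_zero)
  have hb : b ≠ 0 := by
    rintro rfl
    rw [zero_smul, add_zero] at hsum
    rcases smul_eq_zero.1 hsum with h1 | h1
    · exact hab (by rw [h1]; rfl)
    · exact hg h1
  refine ⟨-(a / b), ?_⟩
  have h2 : b • fderiv ℝ φ p = -(a • fderiv ℝ f p) := by
    rw [eq_neg_iff_add_eq_zero, add_comm]; exact hsum
  have h3 : fderiv ℝ φ p = b⁻¹ • (b • fderiv ℝ φ p) := by rw [smul_smul, inv_mul_cancel₀ hb, one_smul]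
  rw [h3, h2, smul_neg, smul_smul, neg_smul]
  congr 2
  field_simp

theorem inner_dot (x y : EE k) : inner ℝ x y = x.ofLp ⬝ᵥ y.ofLp := by
  rw [PiLp.inner_apply]
  unfold dotProduct
  apply Finset.sum_congr rfl
  intro i _
  simp [mul_comm]

end

end H450Sp
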